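import Mathlib

/-!
The final contradiction with polynomials in part (c).
-/

set_option autoImplicit false

namespace Pool.Agent.H84.LieHom

open Polynomial

lemma poly_contradiction (γ C12 C13 C22 C23 C32 C33 D1 D2 D3 : (ZMod 2)[X][X])
    (E1 : C12 * C X + C13 * X = 0)
    (E2 : C22 * C X + C23 * X = C X + γ * X)
    (E3 : C32 * C X + C33 * X = X)
    (V2 : (1 - (C X + γ * X) ^ 2) * C12 - X ^ 2 * C22 + (C X + γ * X) * X * C32 =
      - ((1 + C X + C X ^ 2) * X ^ 2))
    (V3 : (1 - (C X + γ * X) ^ 2) * C13 - X ^ 2 * C23 + (C X + γ * X) * X * C33 =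
      (1 + C X + C X ^ 2) * C X * X)
    (H2 : D1 * C12 + D2 * C22 + D3 * C32 = 0)
    (H3 : D1 * C13 + D2 * C23 + D3 * C33 = 1) : False := by
  have hX : (X : (ZMod 2)[X]) ≠ 0 := X_ne_zero
  have hXX : (X : (ZMod 2)[X][X]) ≠ 0 := X_ne_zero
  have h1X : (1 - (X : (ZMod 2)[X]) ^ 2) ≠ 0 := by
    intro h
    have := congrArg (eval 0) h
    simp at this
  have hc12 : C12.eval 0 = 0 := by
    have h := congrArg (eval 0) V2
    simp only [eval_add, eval_sub, eval_mul, eval_pow, eval_C, eval_X, eval_one, eval_neg] at h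
    have h' : (1 - (X : (ZMod 2)[X]) ^ 2) * C12.eval 0 = 0 := by linear_combination h
    exact (mul_eq_zero.1 h').resolve_left h1X
  have hc13 : C13.eval 0 = 0 := by
    have h := congrArg (eval 0) V3
    simp only [eval_add, eval_sub, eval_mul, eval_pow, eval_C, eval_X, eval_one] at h
    have h' : (1 - (X : (ZMod 2)[X]) ^ 2) * C13.eval 0 = 0 := by linear_combination h
    exact (mul_eq_zero.1 h').resolve_left h1X
  have hc22 : C22.eval 0 = 1 := by
    have h := congrArg (eval 0) E2
    simp only [eval_add, eval_mul, eval_C, eval_X] at h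
    have h' : (X : (ZMod 2)[X]) * (C22.eval 0 - 1) = 0 := by linear_combination h
    exact sub_eq_zero.1 ((mul_eq_zero.1 h').resolve_left hX)
  have hc32 : C32.eval 0 = 0 := by
    have h := congrArg (eval 0) E3
    simp only [eval_add, eval_mul, eval_C, eval_X] at h
    have h' : (X : (ZMod 2)[X]) * C32.eval 0 = 0 := by linear_combination h
    exact (mul_eq_zero.1 h').resolve_left hX
  -- `C33` is a unit at `0`
  have hd2 : D2.eval 0 = 0 := by
    have h := congrArg (eval 0) H2
    simp only [eval_add, eval_mul, eval_zero, hc12, hc22, hc32] at h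
    linear_combination h
  have hc33 : D3.eval 0 * C33.eval 0 = 1 := by
    have h := congrArg (eval 0) H3
    simp only [eval_add, eval_mul, eval_one, hc13, hd2] at h
    linear_combination h
  have hc33' : C33.eval 0 = 1 := by
    have h1 : IsUnit (C33.eval 0) := IsUnit.of_mul_eq_one _ ((mul_comm _ _).trans hc33)
    obtain ⟨r, hr, hr'⟩ := Polynomial.isUnit_iff.1 h1
    have h2 : r = 1 := by
      revert hr
      clear hr' h1
      fin_cases r
      · intro h
        change IsUnit (0 : ZMod 2) at h
        exact absurd h not_isUnit_zero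
      · intro _; rfl
    rw [← hr', h2, C_1]
  -- divisibility by the second variable
  have dvd : ∀ p : (ZMod 2)[X][X], p.eval 0 = 0 → ∃ q, p = X * q := by
    intro p hp
    have h : (X : (ZMod 2)[X][X]) ∣ p := by
      rw [X_dvd_iff, coeff_zero_eq_eval_zero]
      exact hp
    exact h
  obtain ⟨q, hq⟩ := dvd C13 hc13
  obtain ⟨q₁, hq₁⟩ := dvd C12 hc12
  subst hq hq₁
  have e1 : q₁ * C X + X * q = 0 := by
    refine (mul_eq_zero.1 (?_ : X * (q₁ * C X + X * q) = 0)).resolve_left hXX
    linear_combination E1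
  have hq₁0 : q₁.eval 0 = 0 := by
    have h := congrArg (eval 0) e1
    simp only [eval_add, eval_mul, eval_C, eval_X, eval_zero] at h
    have h' : (X : (ZMod 2)[X]) * q₁.eval 0 = 0 := by linear_combination h
    exact (mul_eq_zero.1 h').resolve_left hX
  obtain ⟨q₂, hq₂⟩ := dvd q₁ hq₁0
  subst hq₂
  have e2 : q₂ * C X + q = 0 := by
    refine (mul_eq_zero.1 (?_ : X * (q₂ * C X + q) = 0)).resolve_left hXX
    linear_combination e1
  have e3 : (1 - (C X + γ * X) ^ 2) * q - X * C23 + (C X + γ * X) * C33 -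
      (1 + C X + C X ^ 2) * C X = 0 := by
    refine (mul_eq_zero.1 (?_ : X * ((1 - (C X + γ * X) ^ 2) * q - X * C23 +
      (C X + γ * X) * C33 - (1 + C X + C X ^ 2) * C X) = 0)).resolve_left hXX
    linear_combination V3
  have e4 := congrArg (eval 0) e3
  have e5 := congrArg (eval 0) e2
  simp only [eval_add, eval_sub, eval_mul, eval_pow, eval_C, eval_X, eval_one, eval_zero,
    hc33'] at e4 e5
  generalize q₂.eval 0 = w at *
  have e6 : q.eval 0 = - (w * X) := by linear_combination e5
  rw [e6] at e4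
  have e7 : (X : (ZMod 2)[X]) * ((1 + X) * ((1 - X) * w + X)) = 0 := by
    linear_combination -e4
  have h1X' : (1 + (X : (ZMod 2)[X])) ≠ 0 := by
    intro h
    have := congrArg (eval 0) h
    simp at this
  have e8 := (mul_eq_zero.1 ((mul_eq_zero.1 e7).resolve_left hX)).resolve_left h1X'
  have e9 := congrArg (eval 1) e8
  simp at e9

end Pool.Agent.H84.LieHom
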