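import Mathlib

/-!
The first-order language of Lie algebras over a field (or commutative ring) `k`, its
interpretation in a Lie algebra, equality of types of tuples, and logical homogeneity.
-/

set_option autoImplicit false

namespace Pool.Agent.H84.LieHom

open FirstOrder

universe u v w

/-- The function symbols of the language of Lie algebras over `k`: a constant for zero, unary
symbols for the additive inverse and for the multiplication by each scalar, and binary symbols
for the sum and for the bracket. -/
inductive LieFunc (k : Type u) : ℕ → Type u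
  | zero : LieFunc k 0
  | neg : LieFunc k 1
  | smul (c : k) : LieFunc k 1
  | add : LieFunc k 2
  | bracket : LieFunc k 2

/-- The language of Lie algebras over `k` (there are no relation symbols besides equality). -/
def lieLang (k : Type u) : FirstOrder.Language.{u, 0} := ⟨LieFunc k, fun _ => Empty⟩

/-- A Lie algebra over `k` as a first-order structure. -/
instance lieStructure (k : Type u) (L : Type v) [CommRing k] [LieRing L] [LieAlgebra k L] :
    (lieLang k).Structure L where
  funMap := fun f =>
    match f with
    | LieFunc.zero => fun _ => 0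
    | LieFunc.neg => fun a => - a 0
    | LieFunc.smul c => fun a => c • a 0
    | LieFunc.add => fun a => a 0 + a 1
    | LieFunc.bracket => fun a => ⁅a 0, a 1⁆
  RelMap := fun r => r.elim

/-- Two tuples of elements of the Lie algebra `L` have the same type: they satisfy the same
first-order formulas without parameters. -/
def SameType (k : Type u) {L : Type v} [CommRing k] [LieRing L] [LieAlgebra k L] {m : ℕ}
    (μ₁ μ₂ : Fin m → L) : Prop :=
  ∀ φ : (lieLang k).Formula (Fin m), φ.Realize μ₁ ↔ φ.Realize μ₂

/-- A Lie algebra is logically homogeneous if any two tuples of the same type are carried one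
onto the other by an automorphism of the Lie algebra. -/
def LogicallyHomogeneous (k : Type u) (L : Type v) [CommRing k] [LieRing L] [LieAlgebra k L] :
    Prop :=
  ∀ m : ℕ, 1 ≤ m → ∀ μ₁ μ₂ : Fin m → L, SameType k μ₁ μ₂ → ∃ σ : L ≃ₗ⁅k⁆ L, ∀ i, σ (μ₁ i) = μ₂ i

section terms

variable {k : Type u} {L : Type v} [CommRing k] [LieRing L] [LieAlgebra k L]

/-- The zero term. -/
def tzero {α : Type w} : (lieLang k).Term α := FirstOrder.Language.Term.func (LieFunc.zero : LieFunc k 0) ![]

/-- The negative of a term. -/
def tneg {α : Type w} (s : (lieLang k).Term α) : (lieLang k).Term α :=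
  FirstOrder.Language.Term.func (LieFunc.neg : LieFunc k 1) ![s]

/-- A scalar multiple of a term. -/
def tsmul {α : Type w} (c : k) (s : (lieLang k).Term α) : (lieLang k).Term α :=
  FirstOrder.Language.Term.func (LieFunc.smul c : LieFunc k 1) ![s]

/-- The sum of two terms. -/
def tadd {α : Type w} (s t : (lieLang k).Term α) : (lieLang k).Term α :=
  FirstOrder.Language.Term.func (LieFunc.add : LieFunc k 2) ![s, t]

/-- The bracket of two terms. -/
def tbr {α : Type w} (s t : (lieLang k).Term α) : (lieLang k).Term α :=
  FirstOrder.Language.Term.func (LieFunc.bracket : LieFunc k 2) ![s, t]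

@[simp] lemma realize_tzero {α : Type w} (v : α → L) : (tzero : (lieLang k).Term α).realize v = 0 :=
  rfl

@[simp] lemma realize_tneg {α : Type w} (v : α → L) (s : (lieLang k).Term α) :
    (tneg s).realize v = - s.realize v := rfl

@[simp] lemma realize_tsmul {α : Type w} (v : α → L) (c : k) (s : (lieLang k).Term α) :
    (tsmul c s).realize v = c • s.realize v := rfl

@[simp] lemma realize_tadd {α : Type w} (v : α → L) (s t : (lieLang k).Term α) :
    (tadd s t).realize v = s.realize v + t.realize v := rfl

@[simp] lemma realize_tbr {α : Type w} (v : α → L) (s t : (lieLang k).Term α) :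
    (tbr s t).realize v = ⁅s.realize v, t.realize v⁆ := rfl

/-- Terms are preserved by homomorphisms of Lie algebras. -/
lemma realize_hom {L' : Type*} [LieRing L'] [LieAlgebra k L'] (f : L →ₗ⁅k⁆ L') {α : Type w}
    (v : α → L) (t : (lieLang k).Term α) : t.realize (fun i => f (v i)) = f (t.realize v) := by
  induction t with
  | var i => rfl
  | @func l g ts ih =>
    change LieFunc k l at g
    cases g with
    | zero => exact (map_zero f).symm
    | neg =>
      have h := ih 0
      change - ((ts 0).realize fun i => f (v i)) = f (- (ts 0).realize v)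
      rw [h, map_neg]
    | smul c =>
      have h := ih 0
      change c • ((ts 0).realize fun i => f (v i)) = f (c • (ts 0).realize v)
      rw [h, map_smul]
    | add =>
      have h0 := ih 0
      have h1 := ih 1
      change ((ts 0).realize fun i => f (v i)) + ((ts 1).realize fun i => f (v i)) =
        f ((ts 0).realize v + (ts 1).realize v)
      rw [h0, h1, map_add]
    | bracket =>
      have h0 := ih 0
      have h1 := ih 1
      change ⁅((ts 0).realize fun i => f (v i)), ((ts 1).realize fun i => f (v i))⁆ =
        f ⁅(ts 0).realize v, (ts 1).realize v⁆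
      rw [h0, h1, LieHom.map_lie]

/-- The values of the terms at a tuple form a Lie subalgebra. -/
def termSubalgebra {α : Type w} (v : α → L) : LieSubalgebra k L where
  carrier := {a | ∃ t : (lieLang k).Term α, t.realize v = a}
  add_mem' := by
    rintro _ _ ⟨s, rfl⟩ ⟨t, rfl⟩
    exact ⟨tadd s t, rfl⟩
  zero_mem' := ⟨tzero, rfl⟩
  smul_mem' := by
    rintro c _ ⟨s, rfl⟩
    exact ⟨tsmul c s, rfl⟩
  lie_mem' := by
    rintro _ _ ⟨s, rfl⟩ ⟨t, rfl⟩
    exact ⟨tbr s t, rfl⟩

lemma exists_term_of_mem_lieSpan {α : Type w} (v : α → L) {a : L}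
    (ha : a ∈ LieSubalgebra.lieSpan k L (Set.range v)) :
    ∃ t : (lieLang k).Term α, t.realize v = a := by
  have h : LieSubalgebra.lieSpan k L (Set.range v) ≤ termSubalgebra v := by
    rw [LieSubalgebra.lieSpan_le]
    rintro _ ⟨i, rfl⟩
    exact ⟨FirstOrder.Language.Term.var i, rfl⟩
  exact h ha

end terms

section transfer

variable {k : Type u} {L : Type v} [CommRing k] [LieRing L] [LieAlgebra k L]

/-- The formula `∃ y, (⋀ j, z_j = w_j(y)) ∧ P(y)`. -/
noncomputable def exFormula {m r : ℕ} (w : Fin m → (lieLang k).Term (Fin r))
    (P : (lieLang k).Formula (Fin r)) : (lieLang k).Formula (Fin m) :=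
  FirstOrder.Language.Formula.iExs (Fin r)
    ((FirstOrder.Language.Formula.iInf fun j : Fin m =>
      FirstOrder.Language.Term.equal (FirstOrder.Language.Term.var (Sum.inl j) : (lieLang k).Term (Fin m ⊕ Fin r))
        ((w j).relabel Sum.inr)) ⊓ P.relabel Sum.inr)

lemma realize_exFormula {m r : ℕ} (w : Fin m → (lieLang k).Term (Fin r))
    (P : (lieLang k).Formula (Fin r)) (z : Fin m → L) :
    (exFormula w P).Realize z ↔ ∃ y : Fin r → L, (∀ j, z j = (w j).realize y) ∧ P.Realize y := by
  simp only [exFormula, FirstOrder.Language.Formula.realize_iExs, FirstOrder.Language.Formula.realize_inf,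
    FirstOrder.Language.Formula.realize_iInf, FirstOrder.Language.Formula.realize_equal, FirstOrder.Language.Term.realize_var,
    Sum.elim_inl, FirstOrder.Language.Term.realize_relabel, FirstOrder.Language.Formula.realize_relabel]
  rfl

/-- Transfer along equality of types. -/
lemma SameType.transfer {m r : ℕ} {μ₁ μ₂ : Fin m → L} (h : SameType k μ₁ μ₂)
    (w : Fin m → (lieLang k).Term (Fin r)) (P : (lieLang k).Formula (Fin r)) (x : Fin r → L)
    (hx : ∀ j, μ₁ j = (w j).realize x) (hP : P.Realize x) :
    ∃ y : Fin r → L, (∀ j, μ₂ j = (w j).realize y) ∧ P.Realize y := by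
  rw [← realize_exFormula]
  refine (h _).1 ?_
  rw [realize_exFormula]
  exact ⟨x, hx, hP⟩

lemma SameType.symm {m : ℕ} {μ₁ μ₂ : Fin m → L} (h : SameType k μ₁ μ₂) : SameType k μ₂ μ₁ :=
  fun φ => (h φ).symm

end transfer

end Pool.Agent.H84.LieHom
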