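import Mathlib

/-!
Generation of nilpotent Lie algebras and finite-dimensionality.
-/

set_option autoImplicit false

namespace Pool.Agent.H84.LieHom

variable {k : Type*} {L : Type*} [Field k] [LieRing L] [LieAlgebra k L]

variable (k L) in
/-- The derived subalgebra as a subspace. -/
def brSpan : Submodule k L := Submodule.span k {z | ∃ a b : L, ⁅a, b⁆ = z}

lemma lie_mem_brSpan (a b : L) : ⁅a, b⁆ ∈ brSpan k L := Submodule.subset_span ⟨a, b, rfl⟩

variable (k L) in
/-- The lower central series (indexed from zero). -/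
abbrev lc (i : ℕ) : LieIdeal k L := LieModule.lowerCentralSeries k L L i

lemma lie_mem_lc {i : ℕ} {x y : L} (hy : y ∈ lc k L i) : ⁅x, y⁆ ∈ lc k L (i + 1) := by
  rw [lc, LieModule.lowerCentralSeries_succ]
  exact LieSubmodule.lie_mem_lie (LieSubmodule.mem_top x) hy

lemma lie_mem_lc' {i : ℕ} {x y : L} (hy : y ∈ lc k L i) : ⁅y, x⁆ ∈ lc k L (i + 1) := by
  rw [← lie_skew]
  exact neg_mem (lie_mem_lc hy)

lemma lc_succ_toSubmodule (i : ℕ) :
    (lc k L (i + 1)).toSubmodule = Submodule.span k {z | ∃ a b : L, b ∈ lc k L i ∧ ⁅a, b⁆ = z} := by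
  rw [lc, LieModule.lowerCentralSeries_succ, LieSubmodule.lieIdeal_oper_eq_linear_span']
  congr 1
  ext z
  constructor
  · rintro ⟨a, -, b, hb, rfl⟩
    exact ⟨a, b, hb, rfl⟩
  · rintro ⟨a, b, hb, rfl⟩
    exact ⟨a, LieSubmodule.mem_top a, b, hb, rfl⟩

lemma lc_one_toSubmodule : (lc k L 1).toSubmodule = brSpan k L := by
  rw [lc_succ_toSubmodule, brSpan]
  congr 1
  ext z
  constructor
  · rintro ⟨a, b, -, rfl⟩
    exact ⟨a, b, rfl⟩
  · rintro ⟨a, b, rfl⟩
    exact ⟨a, b, by simp, rfl⟩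

lemma mem_lc_one {z : L} : z ∈ lc k L 1 ↔ z ∈ brSpan k L := by
  rw [← lc_one_toSubmodule]
  rfl

/-- In a nilpotent Lie algebra: if every element of the set `R` is an element of the subalgebra
`K` up to a sum of brackets of elements of `R`, then `R` lies in `K`; more generally up to
the terms of the lower central series. -/
lemma approx_of_generates (R : LieSubalgebra k L) (K : LieSubalgebra k L)
    (h : ∀ z ∈ R, ∃ a ∈ K, z - a ∈ Submodule.span k {z | ∃ a ∈ R, ∃ b ∈ R, ⁅a, b⁆ = z}) (n : ℕ) :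
    ∀ z ∈ R, ∃ a ∈ K, z - a ∈ lc k L n := by
  induction n with
  | zero => exact fun z _ => ⟨0, K.zero_mem, by simp⟩
  | succ n ih =>
    intro z hz
    obtain ⟨a, haK, ha⟩ := h z hz
    have key : ∀ d ∈ Submodule.span k {z | ∃ a ∈ R, ∃ b ∈ R, ⁅a, b⁆ = z},
        ∃ a' ∈ K, d - a' ∈ lc k L (n + 1) := by
      intro d hd
      induction hd using Submodule.span_induction with
      | mem d hd =>
        obtain ⟨u, hu, v, hv, rfl⟩ := hd
        obtain ⟨a₁, ha₁, h₁⟩ := ih u hu
        obtain ⟨a₂, ha₂, h₂⟩ := ih v hv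
        refine ⟨⁅a₁, a₂⁆, K.lie_mem ha₁ ha₂, ?_⟩
        have e : ⁅u, v⁆ - ⁅a₁, a₂⁆ = ⁅a₁, v - a₂⁆ + ⁅u - a₁, v⁆ := by
          rw [lie_sub, sub_lie]; abel
        rw [e]
        exact add_mem (lie_mem_lc h₂) (lie_mem_lc' h₁)
      | zero => exact ⟨0, K.zero_mem, by simp⟩
      | add x y _ _ hx hy =>
        obtain ⟨a₁, ha₁, h₁⟩ := hx
        obtain ⟨a₂, ha₂, h₂⟩ := hy
        refine ⟨a₁ + a₂, K.add_mem ha₁ ha₂, ?_⟩
        have e : x + y - (a₁ + a₂) = (x - a₁) + (y - a₂) := by abel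
        rw [e]
        exact add_mem h₁ h₂
      | smul c x _ hx =>
        obtain ⟨a₁, ha₁, h₁⟩ := hx
        refine ⟨c • a₁, K.smul_mem c ha₁, ?_⟩
        rw [← smul_sub]
        exact (lc k L (n + 1)).smul_mem c h₁
    obtain ⟨a', ha'K, ha'⟩ := key _ ha
    refine ⟨a + a', K.add_mem haK ha'K, ?_⟩
    rw [← sub_sub]
    exact ha'

/-- The case of a nilpotent Lie algebra. -/
lemma le_of_generates {n : ℕ} (hn : lc k L n = ⊥) (R : LieSubalgebra k L) (K : LieSubalgebra k L)
    (h : ∀ z ∈ R, ∃ a ∈ K, z - a ∈ Submodule.span k {z | ∃ a ∈ R, ∃ b ∈ R, ⁅a, b⁆ = z}) :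
    R ≤ K := by
  intro z hz
  obtain ⟨a, ha, h1⟩ := approx_of_generates R K h n z hz
  rw [hn, LieSubmodule.mem_bot, sub_eq_zero] at h1
  rwa [h1]

/-- If `K` is a subalgebra with `K + [L, L] = L` then `K + γ = L` for all terms `γ` of the lower
central series. -/
lemma approx_top (K : LieSubalgebra k L) (h : ∀ z : L, ∃ a ∈ K, z - a ∈ brSpan k L) (n : ℕ)
    (z : L) : ∃ a ∈ K, z - a ∈ lc k L n := by
  refine approx_of_generates ⊤ K (fun z _ => ?_) n z (LieSubalgebra.mem_top z)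
  obtain ⟨a, haK, ha⟩ := h z
  refine ⟨a, haK, ?_⟩
  refine Submodule.span_mono ?_ ha
  rintro _ ⟨a, b, rfl⟩
  exact ⟨a, LieSubalgebra.mem_top a, b, LieSubalgebra.mem_top b, rfl⟩

lemma lie_mem_lc_add_two {i : ℕ} {d v : L} (hd : d ∈ brSpan k L) (hv : v ∈ lc k L i) :
    ⁅d, v⁆ ∈ lc k L (i + 2) := by
  rw [brSpan] at hd
  induction hd using Submodule.span_induction with
  | mem d hd =>
    obtain ⟨a, b, rfl⟩ := hd
    rw [lie_lie]
    exact sub_mem (lie_mem_lc (lie_mem_lc hv)) (lie_mem_lc (lie_mem_lc hv))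
  | zero => simp
  | add x y _ _ hx hy => rw [add_lie]; exact add_mem hx hy
  | smul c x _ hx => rw [smul_lie]; exact (lc k L (i + 2)).smul_mem c hx

/-- In a Lie algebra generated by the finite family `x`, every element is a combination of the
generators modulo the derived algebra. -/
lemma exists_span_add_brSpan {ι : Type*} (x : ι → L)
    (hx : LieSubalgebra.lieSpan k L (Set.range x) = ⊤) (z : L) :
    ∃ w ∈ Submodule.span k (Set.range x), z - w ∈ brSpan k L := by
  let K : LieSubalgebra k L :=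
    { (Submodule.span k (Set.range x) ⊔ brSpan k L : Submodule k L) with
      lie_mem' := fun {a b} _ _ =>
        (le_sup_right : brSpan k L ≤ _) (lie_mem_brSpan a b) }
  have hK : LieSubalgebra.lieSpan k L (Set.range x) ≤ K := by
    rw [LieSubalgebra.lieSpan_le]
    intro z hz
    exact (le_sup_left : Submodule.span k (Set.range x) ≤ _) (Submodule.subset_span hz)
  rw [hx] at hK
  have hz : z ∈ Submodule.span k (Set.range x) ⊔ brSpan k L := hK (LieSubalgebra.mem_top z)
  obtain ⟨w, hw, d, hd, h⟩ := Submodule.mem_sup.1 hz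
  exact ⟨w, hw, by rw [← h, add_sub_cancel_left]; exact hd⟩

lemma exists_fg_graded {ι : Type*} [Finite ι] (x : ι → L)
    (hx : LieSubalgebra.lieSpan k L (Set.range x) = ⊤) (i : ℕ) :
    ∃ W : Submodule k L, W.FG ∧ ∀ z ∈ lc k L i, ∃ w ∈ W, z - w ∈ lc k L (i + 1) := by
  classical
  induction i with
  | zero =>
    refine ⟨Submodule.span k (Set.range x), Submodule.fg_span (Set.finite_range x),
      fun z _ => ?_⟩
    obtain ⟨w, hw, h⟩ := exists_span_add_brSpan x hx z
    exact ⟨w, hw, mem_lc_one.2 h⟩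
  | succ i ih =>
    obtain ⟨W, hW, h⟩ := ih
    obtain ⟨S, hS⟩ := hW
    refine ⟨Submodule.span k (Set.image2 (fun a b => ⁅a, b⁆) (Set.range x) (S : Set L)),
      Submodule.fg_span ((Set.finite_range x).image2 _ S.finite_toSet), ?_⟩
    intro z hz
    have hz' : z ∈ (lc k L (i + 1)).toSubmodule := hz
    rw [lc_succ_toSubmodule] at hz'
    clear hz
    induction hz' using Submodule.span_induction with
    | mem z hz =>
      obtain ⟨a, b, hb, rfl⟩ := hz
      obtain ⟨w₁, hw₁, h₁⟩ := exists_span_add_brSpan x hx a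
      obtain ⟨w₂, hw₂, h₂⟩ := h b hb
      refine ⟨⁅w₁, w₂⁆, ?_, ?_⟩
      · rw [← hS] at hw₂
        clear h₁ h₂
        induction hw₁ using Submodule.span_induction with
        | mem w₁ hw₁ =>
          induction hw₂ using Submodule.span_induction with
          | mem w₂ hw₂ => exact Submodule.subset_span ⟨w₁, hw₁, w₂, hw₂, rfl⟩
          | zero => rw [lie_zero]; exact zero_mem _
          | add u v _ _ hu hv => rw [lie_add]; exact add_mem hu hv
          | smul c u _ hu => rw [lie_smul]; exact Submodule.smul_mem _ _ hu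
        | zero => rw [zero_lie]; exact zero_mem _
        | add u v _ _ hu hv => rw [add_lie]; exact add_mem hu hv
        | smul c u _ hu => rw [smul_lie]; exact Submodule.smul_mem _ _ hu
      · have e : ⁅a, b⁆ - ⁅w₁, w₂⁆ = ⁅w₁, b - w₂⁆ + ⁅a - w₁, b⁆ := by
          rw [lie_sub, sub_lie]; abel
        rw [e]
        exact add_mem (lie_mem_lc h₂) (lie_mem_lc_add_two h₁ hb)
    | zero => exact ⟨0, zero_mem _, by simp⟩
    | add u v _ _ hu' hv' =>
      obtain ⟨w₁, hw₁, h₁⟩ := hu'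
      obtain ⟨w₂, hw₂, h₂⟩ := hv'
      refine ⟨w₁ + w₂, add_mem hw₁ hw₂, ?_⟩
      have e : u + v - (w₁ + w₂) = (u - w₁) + (v - w₂) := by abel
      rw [e]
      exact add_mem h₁ h₂
    | smul c u _ hu' =>
      obtain ⟨w₁, hw₁, h₁⟩ := hu'
      refine ⟨c • w₁, Submodule.smul_mem _ _ hw₁, ?_⟩
      rw [← smul_sub]
      exact (lc k L (i + 1 + 1)).smul_mem c h₁

/-- A finitely generated Lie algebra is finite-dimensional modulo each term of the lower central
series. -/
lemma exists_fg_complement {ι : Type*} [Finite ι] (x : ι → L)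
    (hx : LieSubalgebra.lieSpan k L (Set.range x) = ⊤) (n : ℕ) :
    ∃ W : Submodule k L, W.FG ∧ ∀ z : L, ∃ w ∈ W, z - w ∈ lc k L n := by
  induction n with
  | zero => exact ⟨⊥, Submodule.fg_bot, fun z => ⟨0, zero_mem _, by simp⟩⟩
  | succ n ih =>
    obtain ⟨W, hW, h⟩ := ih
    obtain ⟨W', hW', h'⟩ := exists_fg_graded x hx n
    refine ⟨W ⊔ W', hW.sup hW', fun z => ?_⟩
    obtain ⟨w, hw, h1⟩ := h z
    obtain ⟨w', hw', h2⟩ := h' _ h1
    exact ⟨w + w', Submodule.add_mem_sup hw hw', by rw [← sub_sub]; exact h2⟩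

lemma finiteDimensional_of_nilpotent {ι : Type*} [Finite ι] (x : ι → L)
    (hx : LieSubalgebra.lieSpan k L (Set.range x) = ⊤) {n : ℕ} (hn : lc k L n = ⊥) :
    FiniteDimensional k L := by
  obtain ⟨W, hW, h⟩ := exists_fg_complement x hx n
  have hW' : W = ⊤ := by
    rw [eq_top_iff]
    intro z _
    obtain ⟨w, hw, h1⟩ := h z
    rw [hn, LieSubmodule.mem_bot, sub_eq_zero] at h1
    rwa [h1]
  rw [hW'] at hW
  exact ⟨hW⟩

end Pool.Agent.H84.LieHom
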