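import Mathlib
import Pool.Agent.H84.LieHom.Lang
import Pool.Agent.H84.LieHom.Nilp

/-!
Relatively free nilpotent Lie algebras of finite rank are logically homogeneous.
-/

set_option autoImplicit false

namespace Pool.Agent.H84.LieHom

open FirstOrder

section linear

variable {k : Type*} {M V : Type*} [Field k] [AddCommGroup M] [Module k M] [AddCommGroup V]
  [Module k V]

/-- Lifts of a linearly independent family can be completed to lifts of a spanning family. -/
lemma exists_extension (π : M →ₗ[k] V) (hπ : Function.Surjective π) [FiniteDimensional k V]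
    {s r : ℕ} (hs : s ≤ r) (hr : Module.finrank k V ≤ r) (e : Fin s → M)
    (he : LinearIndependent k (fun i => π (e i))) :
    ∃ E : Fin r → M, (∀ i : Fin s, E (Fin.castLE hs i) = e i) ∧
      Submodule.span k (Set.range fun i => π (E i)) = ⊤ := by
  classical
  obtain ⟨W', hW'⟩ := Submodule.exists_isCompl (Submodule.span k (Set.range fun i => π (e i)))
  have h1 := Submodule.finrank_add_eq_of_isCompl hW'
  rw [finrank_span_eq_card he, Fintype.card_fin] at h1
  let b := Module.finBasis k W'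
  have hc : ∀ j, ∃ c : M, π c = b j := fun j => hπ (b j)
  choose c hc using hc
  refine ⟨fun i => if h : (i : ℕ) < s then e ⟨i, h⟩ else
    if h' : (i : ℕ) - s < Module.finrank k W' then c ⟨i - s, h'⟩ else 0, fun i => ?_, ?_⟩
  · simp
  · rw [eq_top_iff, ← hW'.sup_eq_top, sup_le_iff]
    constructor
    · rw [Submodule.span_le]
      rintro _ ⟨i, rfl⟩
      refine Submodule.subset_span ⟨Fin.castLE hs i, ?_⟩
      simp
    · intro w hw
      have h2 : (⟨w, hw⟩ : W') ∈ Submodule.span k (Set.range b) := by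
        rw [b.span_eq]; trivial
      have h3 : w ∈ (Submodule.span k (Set.range b)).map W'.subtype := ⟨⟨w, hw⟩, h2, rfl⟩
      rw [Submodule.map_span] at h3
      refine Submodule.span_mono ?_ h3
      rintro _ ⟨_, ⟨j, rfl⟩, rfl⟩
      have hj : s + (j : ℕ) < r := by have := j.2; omega
      refine ⟨⟨s + j, hj⟩, ?_⟩
      have h4 : ¬ (s + (j : ℕ) < s) := by omega
      have h5 : s + (j : ℕ) - s < Module.finrank k W' := by have := j.2; omega
      have h6 : (⟨s + (j : ℕ) - s, h5⟩ : Fin (Module.finrank k W')) = j := by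
        ext; simp
      simp only [h4, h5, dif_pos, dif_neg, not_false_iff, h6, hc]
      rfl

/-- A subspace invariant under an endomorphism that is injective on it is mapped onto itself. -/
lemma surj_of_inj_on [FiniteDimensional k M] (h : M →ₗ[k] M) (W : Submodule k M)
    (hW : ∀ z ∈ W, h z ∈ W) (hi : ∀ z ∈ W, h z = 0 → z = 0) : ∀ z ∈ W, ∃ y ∈ W, h y = z := by
  have h1 : Function.Injective (h.restrict hW) := by
    rw [injective_iff_map_eq_zero]
    intro z hz
    have h2 : h z = 0 := congrArg Subtype.val hz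
    exact Subtype.ext (hi z z.2 h2)
  have h2 := LinearMap.injective_iff_surjective.1 h1
  intro z hz
  obtain ⟨y, hy⟩ := h2 ⟨z, hz⟩
  exact ⟨y, y.2, congrArg Subtype.val hy⟩

end linear

section iter

variable {k : Type*} {L : Type*} [CommRing k] [LieRing L] [LieAlgebra k L]

/-- The iterates of an endomorphism. -/
noncomputable def iterHom (f : L →ₗ⁅k⁆ L) : ℕ → (L →ₗ⁅k⁆ L)
  | 0 => _root_.LieHom.id
  | n + 1 => (iterHom f n).comp f

lemma iterHom_apply (f : L →ₗ⁅k⁆ L) (n : ℕ) (z : L) : iterHom f n z = f^[n] z := by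
  induction n generalizing z with
  | zero => rfl
  | succ n ih => simp [iterHom, ih]

lemma iterHom_eq_pow (f : L →ₗ⁅k⁆ L) (n : ℕ) :
    ((iterHom f n : L →ₗ⁅k⁆ L) : L →ₗ[k] L) = ((f : L →ₗ[k] L) : Module.End k L) ^ n := by
  induction n with
  | zero => ext; rfl
  | succ n ih =>
    rw [pow_succ, ← ih]
    rfl

end iter

variable {k : Type*} {L : Type*} [Field k] [LieRing L] [LieAlgebra k L]

lemma map_mem_brSpan {L' : Type*} [LieRing L'] [LieAlgebra k L'] (h : L →ₗ⁅k⁆ L') {z : L}
    (hz : z ∈ brSpan k L) : h z ∈ Submodule.span k {z | ∃ a ∈ h.range, ∃ b ∈ h.range, ⁅a, b⁆ = z} := by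
  rw [brSpan] at hz
  induction hz using Submodule.span_induction with
  | mem z hz =>
    obtain ⟨a, b, rfl⟩ := hz
    rw [_root_.LieHom.map_lie]
    exact Submodule.subset_span ⟨h a, ⟨a, rfl⟩, h b, ⟨b, rfl⟩, rfl⟩
  | zero => simp
  | add x y _ _ hx hy => rw [map_add]; exact add_mem hx hy
  | smul c x _ hx => rw [map_smul]; exact Submodule.smul_mem _ _ hx

lemma map_mem_brSpan' {L' : Type*} [LieRing L'] [LieAlgebra k L'] (h : L →ₗ⁅k⁆ L') {z : L}
    (hz : z ∈ brSpan k L) : h z ∈ brSpan k L' := by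
  refine Submodule.span_mono ?_ (map_mem_brSpan h hz)
  rintro _ ⟨a, _, b, _, rfl⟩
  exact ⟨a, b, rfl⟩

/-- `h` acts bijectively on the intersection of its range with the derived algebra. -/
lemma fitting_onto [FiniteDimensional k L] (h : L →ₗ⁅k⁆ L)
    (hd : ∀ z ∈ h.range, h z = 0 → z = 0) {z : L} (hz : z ∈ h.range) (hz' : z ∈ brSpan k L) :
    ∃ y ∈ h.range, y ∈ brSpan k L ∧ h y = z := by
  obtain ⟨y, hy, hyz⟩ := surj_of_inj_on (h : L →ₗ[k] L) (h.range.toSubmodule ⊓ brSpan k L)
    (fun z hz => ⟨⟨z, rfl⟩, map_mem_brSpan' h hz.2⟩) (fun z hz h0 => hd z hz.1 h0) z ⟨hz, hz'⟩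
  exact ⟨y, hy.1, hy.2, hyz⟩

lemma fitting_bracket [FiniteDimensional k L] (h : L →ₗ⁅k⁆ L)
    (hd : ∀ z ∈ h.range, h z = 0 → z = 0) {z : L} (hz : z ∈ h.range) (hz' : z ∈ brSpan k L) :
    z ∈ Submodule.span k {z | ∃ a ∈ h.range, ∃ b ∈ h.range, ⁅a, b⁆ = z} := by
  obtain ⟨y, _, hy, rfl⟩ := fitting_onto h hd hz hz'
  exact map_mem_brSpan h hy

lemma fitting_reflect [FiniteDimensional k L] (h : L →ₗ⁅k⁆ L)
    (hd : ∀ z ∈ h.range, h z = 0 → z = 0) {z : L} (hz : z ∈ h.range) (hz' : h z ∈ brSpan k L) :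
    z ∈ brSpan k L := by
  obtain ⟨y, hy, hyb, hyz⟩ := fitting_onto h hd ⟨z, rfl⟩ hz'
  have h1 : y = z := by
    rw [← sub_eq_zero]
    refine hd _ (sub_mem hy hz) ?_
    have h2 : h y = h z := hyz
    rw [map_sub, h2, sub_self]
  rwa [← h1]

/-- A finitely generated relatively free nilpotent Lie algebra is logically homogeneous. -/
theorem logicallyHomogeneous_of_relFree {r n : ℕ} (x : Fin r → L)
    (hx : LieSubalgebra.lieSpan k L (Set.range x) = ⊤) (hn : lc k L n = ⊥)
    (hfree : ∀ y : Fin r → L, ∃ φ : L →ₗ⁅k⁆ L, ∀ i, φ (x i) = y i) :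
    LogicallyHomogeneous k L := by
  classical
  have hfd : FiniteDimensional k L := finiteDimensional_of_nilpotent x hx hn
  -- a surjectivity criterion
  have surj : ∀ (E : Fin r → L) (φ : L →ₗ⁅k⁆ L), (∀ i, φ (x i) = E i) →
      Submodule.span k (Set.range fun i => (brSpan k L).mkQ (E i)) = ⊤ →
      Function.Bijective φ := by
    intro E φ hφ hE
    have h1 : Function.Surjective φ := by
      have h2 : (⊤ : LieSubalgebra k L) ≤ φ.range := by
        refine le_of_generates hn ⊤ φ.range (fun z _ => ?_)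
        have h3 : (brSpan k L).mkQ z ∈ Submodule.span k (Set.range fun i => (brSpan k L).mkQ (E i)) := by
          rw [hE]; trivial
        have h4 : (Set.range fun i => (brSpan k L).mkQ (E i)) = (brSpan k L).mkQ '' Set.range E := by
          ext z; simp
        rw [h4, ← Submodule.map_span] at h3
        obtain ⟨w, hw, hwz⟩ := h3
        refine ⟨w, ?_, ?_⟩
        · have h5 : Submodule.span k (Set.range E) ≤ φ.range.toSubmodule := by
            rw [Submodule.span_le]
            rintro _ ⟨i, rfl⟩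
            exact ⟨x i, hφ i⟩
          exact h5 hw
        · have h6 : z - w ∈ brSpan k L := by
            rw [← Submodule.ker_mkQ (brSpan k L), LinearMap.mem_ker, map_sub, hwz, sub_self]
          refine Submodule.span_mono ?_ h6
          rintro _ ⟨a, b, rfl⟩
          exact ⟨a, LieSubalgebra.mem_top a, b, LieSubalgebra.mem_top b, rfl⟩
      intro z
      exact h2 (LieSubalgebra.mem_top z)
    exact ⟨(LinearMap.injective_iff_surjective (f := (φ : L →ₗ[k] L))).2 h1, h1⟩
  have hrank : Module.finrank k (L ⧸ brSpan k L) ≤ r := by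
    have h1 : Submodule.span k (Set.range fun i => (brSpan k L).mkQ (x i)) = ⊤ := by
      rw [eq_top_iff]
      intro v _
      obtain ⟨z, rfl⟩ := (brSpan k L).mkQ_surjective v
      obtain ⟨w, hw, hwz⟩ := exists_span_add_brSpan x hx z
      have h2 : (brSpan k L).mkQ z = (brSpan k L).mkQ w := by
        rw [← sub_eq_zero, ← map_sub, ← LinearMap.mem_ker, Submodule.ker_mkQ]
        exact hwz
      have h4 : (Set.range fun i => (brSpan k L).mkQ (x i)) = (brSpan k L).mkQ '' Set.range x := by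
        ext z; simp
      rw [h2, h4, ← Submodule.map_span]
      exact ⟨w, hw, rfl⟩
    have h2 := finrank_range_le_card (R := k) (fun i => (brSpan k L).mkQ (x i))
    rw [Set.finrank, h1, finrank_top, Fintype.card_fin] at h2
    exact h2
  intro m _ μ₁ μ₂ hμ
  -- endomorphisms
  have endo : ∀ μ₁ μ₂ : Fin m → L, SameType k μ₁ μ₂ → ∃ φ : L →ₗ⁅k⁆ L, ∀ j, φ (μ₁ j) = μ₂ j := by
    intro μ₁ μ₂ hμ
    have h1 : ∀ j, ∃ t : (lieLang k).Term (Fin r), t.realize x = μ₁ j := fun j =>
      exists_term_of_mem_lieSpan x (by rw [hx]; exact LieSubalgebra.mem_top _)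
    choose w hw using h1
    obtain ⟨y, hy, -⟩ := hμ.transfer w ⊤ x (fun j => (hw j).symm) (by simp)
    obtain ⟨φ, hφ⟩ := hfree y
    refine ⟨φ, fun j => ?_⟩
    rw [← hw j, hy j, ← realize_hom]
    congr 1
    funext i
    exact hφ i
  obtain ⟨φ, hφ⟩ := endo μ₁ μ₂ hμ
  obtain ⟨ψ, hψ⟩ := endo μ₂ μ₁ hμ.symm
  obtain ⟨K, hK⟩ := Filter.eventually_atTop.1
    (LinearMap.eventually_isCompl_ker_pow_range_pow ((ψ.comp φ : L →ₗ⁅k⁆ L) : Module.End k L))
  set h : L →ₗ⁅k⁆ L := iterHom (ψ.comp φ) (K + 1) with hh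
  have hcompl := hK (K + 1) (Nat.le_succ K)
  rw [← iterHom_eq_pow, ← hh] at hcompl
  have hd : ∀ z ∈ h.range, h z = 0 → z = 0 := by
    intro z hz h0
    have h1 : z ∈ LinearMap.ker (h : L →ₗ[k] L) ⊓ LinearMap.range (h : L →ₗ[k] L) := ⟨h0, hz⟩
    rw [hcompl.inf_eq_bot] at h1
    exact h1
  have hfix : ∀ j, h (μ₁ j) = μ₁ j := by
    intro j
    have h1 : (ψ.comp φ) (μ₁ j) = μ₁ j := by
      rw [_root_.LieHom.comp_apply, hφ, hψ]
    rw [hh, iterHom_apply]
    exact Function.iterate_fixed h1 _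
  have hfactor : ∀ z, h z = iterHom (ψ.comp φ) K (ψ (φ z)) := by
    intro z
    rw [hh, iterHom]
    rfl
  -- lifts of a basis of the image of the range of `h`
  let W : Submodule k (L ⧸ brSpan k L) := (h.range.toSubmodule).map (brSpan k L).mkQ
  let b := Module.finBasis k W
  set s := Module.finrank k W with hs
  have hsr : s ≤ r := (Submodule.finrank_le W).trans hrank
  have he : ∀ i : Fin s, ∃ e : L, e ∈ h.range ∧ (brSpan k L).mkQ e = b i := by
    intro i
    obtain ⟨e, he, h1⟩ := (b i).2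
    exact ⟨e, he, h1⟩
  choose e he hb using he
  have hbli : LinearIndependent k (fun i => ((b i : W) : L ⧸ brSpan k L)) :=
    b.linearIndependent.map' W.subtype (Submodule.ker_subtype W)
  have heli : LinearIndependent k (fun i => (brSpan k L).mkQ (e i)) := by
    simpa only [hb] using hbli
  have hφeli : LinearIndependent k (fun i => (brSpan k L).mkQ (φ (e i))) := by
    rw [Fintype.linearIndependent_iff] at heli ⊢
    intro g hg i
    refine heli g ?_ i
    have h1 : φ (∑ i, g i • e i) ∈ brSpan k L := by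
      rw [← Submodule.ker_mkQ (brSpan k L), LinearMap.mem_ker, ← hg, map_sum, map_sum]
      simp
    have h2 : h (∑ i, g i • e i) ∈ brSpan k L := by
      rw [hfactor]
      exact map_mem_brSpan' _ (map_mem_brSpan' _ h1)
    have h3 : (∑ i, g i • e i) ∈ h.range :=
      sum_mem fun i _ => h.range.smul_mem _ (he i)
    have h4 := fitting_reflect h hd h3 h2
    rw [← Submodule.ker_mkQ (brSpan k L), LinearMap.mem_ker, map_sum] at h4
    simpa using h4
  obtain ⟨E₁, hE₁, hs₁⟩ := exists_extension (brSpan k L).mkQ (brSpan k L).mkQ_surjective hsr hrank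
    e heli
  obtain ⟨E₂, hE₂, hs₂⟩ := exists_extension (brSpan k L).mkQ (brSpan k L).mkQ_surjective hsr hrank
    (fun i => φ (e i)) hφeli
  obtain ⟨α, hα⟩ := hfree E₁
  obtain ⟨β, hβ⟩ := hfree E₂
  have hαb := surj E₁ α hα hs₁
  have hβb := surj E₂ β hβ hs₂
  let α' : L ≃ₗ⁅k⁆ L := LieEquiv.ofBijective α hαb
  let β' : L ≃ₗ⁅k⁆ L := LieEquiv.ofBijective β hβb
  refine ⟨α'.symm.trans β', fun j => ?_⟩
  -- agreement on the generated subalgebra
  let Kσ : LieSubalgebra k L :=
    { LinearMap.eqLocus ((α'.symm.trans β' : L ≃ₗ⁅k⁆ L) : L →ₗ[k] L) (φ : L →ₗ[k] L) ⊓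
        h.range.toSubmodule with
      lie_mem' := by
        rintro a b ⟨ha, ha'⟩ ⟨hb, hb'⟩
        refine ⟨?_, h.range.lie_mem ha' hb'⟩
        have ha2 : (α'.symm.trans β') a = φ a := ha
        have hb2 : (α'.symm.trans β') b = φ b := hb
        change (α'.symm.trans β') ⁅a, b⁆ = φ ⁅a, b⁆
        rw [_root_.LieEquiv.map_lie, _root_.LieHom.map_lie, ha2, hb2] }
  have hle : h.range ≤ Kσ := by
    refine le_of_generates hn h.range Kσ (fun z hz => ?_)
    have h1 : (brSpan k L).mkQ z ∈ W := ⟨z, hz, rfl⟩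
    have h2 : (⟨(brSpan k L).mkQ z, h1⟩ : W) ∈ Submodule.span k (Set.range b) := by
      rw [b.span_eq]; trivial
    have h3 : (brSpan k L).mkQ z ∈ (Submodule.span k (Set.range b)).map W.subtype := ⟨_, h2, rfl⟩
    rw [Submodule.map_span] at h3
    have h4 : W.subtype '' Set.range b = (brSpan k L).mkQ '' Set.range e := by
      ext v
      constructor
      · rintro ⟨_, ⟨i, rfl⟩, rfl⟩
        exact ⟨e i, ⟨i, rfl⟩, hb i⟩
      · rintro ⟨_, ⟨i, rfl⟩, rfl⟩
        exact ⟨b i, ⟨i, rfl⟩, (hb i).symm⟩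
    rw [h4, ← Submodule.map_span] at h3
    obtain ⟨w, hw, hwz⟩ := h3
    have hwK : w ∈ Kσ := by
      have h5 : Submodule.span k (Set.range e) ≤ Kσ.toSubmodule := by
        rw [Submodule.span_le]
        rintro _ ⟨i, rfl⟩
        refine ⟨?_, he i⟩
        change β (α'.symm (e i)) = φ (e i)
        have h6 : α'.symm (e i) = x (Fin.castLE hsr i) := by
          rw [LieEquiv.symm_apply_eq]
          change e i = α (x (Fin.castLE hsr i))
          rw [hα, hE₁]
        rw [h6, hβ, hE₂]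
      exact h5 hw
    refine ⟨w, hwK, ?_⟩
    refine fitting_bracket h hd (sub_mem hz hwK.2) ?_
    rw [← Submodule.ker_mkQ (brSpan k L), LinearMap.mem_ker, map_sub, hwz, sub_self]
  have h1 : μ₁ j ∈ Kσ := hle ⟨μ₁ j, hfix j⟩
  have h2 : (α'.symm.trans β') (μ₁ j) = φ (μ₁ j) := h1.1
  rw [h2, hφ]

end Pool.Agent.H84.LieHom
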