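import Mathlib
import Pool.Agent.H84.LieHom.PartB

/-!
Quotients of the free Lie algebra by fully invariant ideals; free nilpotent Lie algebras.
-/

set_option autoImplicit false

namespace Pool.Agent.H84.LieHom

open FirstOrder

variable {k : Type*} {L L' : Type*} [CommRing k] [LieRing L] [LieAlgebra k L] [LieRing L']
  [LieAlgebra k L']

/-- The projection onto the quotient by an ideal. -/
def mkHom (I : LieIdeal k L) : L →ₗ⁅k⁆ L ⧸ I :=
  { (LieSubmodule.Quotient.mk' I : L →ₗ[k] L ⧸ I) with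
    map_lie' := fun {x y} => LieSubmodule.Quotient.mk_bracket (I := I) x y }

lemma mkHom_surjective (I : LieIdeal k L) : Function.Surjective (mkHom I) :=
  LieSubmodule.Quotient.surjective_mk' I

lemma mkHom_eq_zero (I : LieIdeal k L) {z : L} : mkHom I z = 0 ↔ z ∈ I :=
  LieSubmodule.Quotient.mk_eq_zero I

/-- A homomorphism vanishing on an ideal factors through the quotient. -/
lemma exists_liftHom (I : LieIdeal k L) (f : L →ₗ⁅k⁆ L') (h : ∀ z ∈ I, f z = 0) :
    ∃ F : (L ⧸ I) →ₗ⁅k⁆ L', ∀ z, F (mkHom I z) = f z := by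
  let F₀ : (L ⧸ I) →ₗ[k] L' := I.toSubmodule.liftQ (f : L →ₗ[k] L') h
  have hF₀ : ∀ z, F₀ (mkHom I z) = f z := fun z => rfl
  refine ⟨{ F₀ with map_lie' := ?_ }, hF₀⟩
  intro x y
  obtain ⟨x, rfl⟩ := mkHom_surjective I x
  obtain ⟨y, rfl⟩ := mkHom_surjective I y
  change F₀ ⁅mkHom I x, mkHom I y⁆ = ⁅F₀ (mkHom I x), F₀ (mkHom I y)⁆
  rw [← _root_.LieHom.map_lie, hF₀, hF₀, hF₀, _root_.LieHom.map_lie]

variable (k) in
lemma lieSpan_range_of (X : Type*) :
    LieSubalgebra.lieSpan k (FreeLieAlgebra k X) (Set.range (FreeLieAlgebra.of k)) = ⊤ := by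
  set K := LieSubalgebra.lieSpan k (FreeLieAlgebra k X) (Set.range (FreeLieAlgebra.of k)) with hK
  let g : FreeLieAlgebra k X →ₗ⁅k⁆ K :=
    FreeLieAlgebra.lift k fun x => ⟨FreeLieAlgebra.of k x, LieSubalgebra.subset_lieSpan ⟨x, rfl⟩⟩
  have h : K.incl.comp g = _root_.LieHom.id := by
    refine FreeLieAlgebra.hom_ext fun x => ?_
    rw [_root_.LieHom.comp_apply, FreeLieAlgebra.lift_of_apply]
    rfl
  rw [eq_top_iff]
  intro z _
  have h1 : K.incl (g z) = z := _root_.LieHom.congr_fun h z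
  rw [← h1]
  exact (g z).2

lemma lieSpan_range_map (x : L) {ι : Type*} (v : ι → L) (f : L →ₗ⁅k⁆ L')
    (hx : x ∈ LieSubalgebra.lieSpan k L (Set.range v)) :
    f x ∈ LieSubalgebra.lieSpan k L' (Set.range fun i => f (v i)) := by
  have h : LieSubalgebra.lieSpan k L (Set.range v) ≤
      (LieSubalgebra.lieSpan k L' (Set.range fun i => f (v i))).comap f := by
    rw [LieSubalgebra.lieSpan_le]
    rintro _ ⟨i, rfl⟩
    exact LieSubalgebra.subset_lieSpan ⟨i, rfl⟩
  exact h hx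

lemma quot_generated {X : Type*} (I : LieIdeal k (FreeLieAlgebra k X)) :
    LieSubalgebra.lieSpan k (FreeLieAlgebra k X ⧸ I)
      (Set.range fun i => mkHom I (FreeLieAlgebra.of k i)) = ⊤ := by
  rw [eq_top_iff]
  intro z _
  obtain ⟨z, rfl⟩ := mkHom_surjective I z
  exact lieSpan_range_map z _ (mkHom I) (by rw [lieSpan_range_of]; exact LieSubalgebra.mem_top _)

lemma quot_relFree {X : Type*} (I : LieIdeal k (FreeLieAlgebra k X))
    (hI : ∀ φ : FreeLieAlgebra k X →ₗ⁅k⁆ FreeLieAlgebra k X, ∀ z ∈ I, φ z ∈ I)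
    (y : X → (FreeLieAlgebra k X ⧸ I)) :
    ∃ Φ : (FreeLieAlgebra k X ⧸ I) →ₗ⁅k⁆ (FreeLieAlgebra k X ⧸ I),
      ∀ i, Φ (mkHom I (FreeLieAlgebra.of k i)) = y i := by
  have h : ∀ i, ∃ z, mkHom I z = y i := fun i => mkHom_surjective I (y i)
  choose z hz using h
  obtain ⟨Φ, hΦ⟩ := exists_liftHom I ((mkHom I).comp (FreeLieAlgebra.lift k z)) (fun w hw => by
    rw [_root_.LieHom.comp_apply, mkHom_eq_zero]
    exact hI _ w hw)
  refine ⟨Φ, fun i => ?_⟩
  rw [hΦ, _root_.LieHom.comp_apply, FreeLieAlgebra.lift_of_apply, hz]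

lemma lcs_fullyInvariant (n : ℕ) (φ : L →ₗ⁅k⁆ L') (z : L)
    (hz : z ∈ LieModule.lowerCentralSeries k L L n) :
    φ z ∈ LieModule.lowerCentralSeries k L' L' n := by
  exact LieIdeal.map_lowerCentralSeries_le n (LieIdeal.mem_map hz)

lemma lcs_quot_eq_bot (n : ℕ) :
    LieModule.lowerCentralSeries k (L ⧸ LieModule.lowerCentralSeries k L L n)
      (L ⧸ LieModule.lowerCentralSeries k L L n) n = ⊥ := by
  rw [← LieIdeal.lowerCentralSeries_map_eq (R := k) n
    (mkHom_surjective (LieModule.lowerCentralSeries k L L n)), LieIdeal.map_eq_bot_iff]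
  intro z hz
  rw [_root_.LieHom.mem_ker]
  exact (mkHom_eq_zero _).2 hz

/-- The free `n`-nilpotent Lie algebra of rank `r` over `k`: the quotient of the free Lie algebra
by the term `γ_{n+1}` of the lower central series (Mathlib's index is `n`). -/
abbrev FreeNilpotent (k : Type*) [CommRing k] (r n : ℕ) :=
  FreeLieAlgebra k (Fin r) ⧸
    LieModule.lowerCentralSeries k (FreeLieAlgebra k (Fin r)) (FreeLieAlgebra k (Fin r)) n

/-- Part (b). -/
theorem freeNilpotent_logicallyHomogeneous (k : Type*) [Field k] (r n : ℕ) :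
    LogicallyHomogeneous k (FreeNilpotent k r n) :=
  logicallyHomogeneous_of_relFree _ (quot_generated _) (lcs_quot_eq_bot n)
    (quot_relFree _ (fun φ z hz => lcs_fullyInvariant n φ z hz))

end Pool.Agent.H84.LieHom
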