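import Mathlib
import Pool.Agent.H84.LieHom.Quot
import Pool.Agent.H84.LieHom.PolyC

/-!
A metabelian Lie algebra of polynomial vectors, and the homomorphism of the free metabelian Lie
algebra of rank three over the field with two elements into it.
-/

set_option autoImplicit false

namespace Pool.Agent.H84.LieHom

noncomputable section

/-- Polynomials in three variables over the field with two elements. -/
abbrev P3 := MvPolynomial (Fin 3) (ZMod 2)

/-- Vectors of three polynomials. -/
def Tm : Type := Fin 3 → P3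

instance : AddCommGroup Tm := inferInstanceAs (AddCommGroup (Fin 3 → P3))
instance : Module P3 Tm := inferInstanceAs (Module P3 (Fin 3 → P3))
instance : Module (ZMod 2) Tm := inferInstanceAs (Module (ZMod 2) (Fin 3 → P3))
instance : IsScalarTower (ZMod 2) P3 Tm := inferInstanceAs (IsScalarTower (ZMod 2) P3 (Fin 3 → P3))

/-- The coordinates of a vector. -/
def Tm.co (i : Fin 3) : Tm →ₗ[P3] P3 := LinearMap.proj (R := P3) (φ := fun _ : Fin 3 => P3) i

lemma Tm.ext' {w w' : Tm} (h : ∀ i, Tm.co i w = Tm.co i w') : w = w' := funext h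

/-- The linear form `w ↦ ∑ w_i X_i`. -/
def eps : Tm →ₗ[P3] P3 := ∑ i : Fin 3, (MvPolynomial.X i : P3) • Tm.co i

lemma eps_apply (w : Tm) : eps w = ∑ i : Fin 3, MvPolynomial.X i * Tm.co i w := by
  simp [eps, LinearMap.sum_apply, LinearMap.smul_apply]

/-- The basis vectors. -/
def bas (i : Fin 3) : Tm := (Pi.single i 1 : Fin 3 → P3)

lemma co_bas (i j : Fin 3) : Tm.co i (bas j) = if i = j then 1 else 0 := by
  change (Pi.single j (1 : P3) : Fin 3 → P3) i = _
  rw [Pi.single_apply]

lemma eps_bas (i : Fin 3) : eps (bas i) = MvPolynomial.X i := by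
  rw [eps_apply]
  simp [co_bas]

instance : Bracket Tm Tm := ⟨fun w w' => eps w • w' - eps w' • w⟩

lemma tm_bracket (w w' : Tm) : ⁅w, w'⁆ = eps w • w' - eps w' • w := rfl

lemma eps_bracket (w w' : Tm) : eps ⁅w, w'⁆ = 0 := by
  rw [tm_bracket, map_sub, map_smul, map_smul, smul_eq_mul, smul_eq_mul, mul_comm, sub_self]

instance : LieRing Tm where
  add_lie x y z := by
    simp only [tm_bracket, map_add, add_smul, smul_add]; abel
  lie_add x y z := by
    simp only [tm_bracket, map_add, add_smul, smul_add]; abel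
  lie_self x := by simp [tm_bracket]
  leibniz_lie x y z := by
    rw [tm_bracket x ⁅y, z⁆, eps_bracket, tm_bracket ⁅x, y⁆ z, eps_bracket, tm_bracket y ⁅x, z⁆,
      eps_bracket, tm_bracket y z, tm_bracket x y, tm_bracket x z]
    simp only [smul_sub, smul_smul, zero_smul, sub_zero, zero_sub]
    rw [mul_comm (eps z) (eps x), mul_comm (eps z) (eps y), mul_comm (eps y) (eps x)]
    abel

lemma eps_smul2 (c : ZMod 2) (w : Tm) : eps (c • w) = c • eps w :=
  LinearMap.map_smul_of_tower eps c w

instance : LieAlgebra (ZMod 2) Tm where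
  lie_smul c x y := by
    rw [tm_bracket, tm_bracket, eps_smul2, smul_sub, smul_assoc]
    congr 1
    rw [← algebraMap_smul P3 c y, smul_comm, algebraMap_smul]

end

/-- The free solvable Lie algebra of derived length at most `n` and rank `r` over `k`: the quotient
of the free Lie algebra by the term `L^{(n)}` of the derived series. -/
abbrev FreeSolvable (k : Type*) [CommRing k] (r n : ℕ) :=
  FreeLieAlgebra k (Fin r) ⧸ LieAlgebra.derivedSeries k (FreeLieAlgebra k (Fin r)) n

/-- The free metabelian Lie algebra of rank three over the field with two elements. -/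
abbrev S32 := FreeSolvable (ZMod 2) 3 2

/-- The generators of the free metabelian Lie algebra. -/
noncomputable def gx (i : Fin 3) : S32 := mkHom _ (FreeLieAlgebra.of (ZMod 2) i)

lemma gx_generates : LieSubalgebra.lieSpan (ZMod 2) S32 (Set.range gx) = ⊤ := quot_generated _

section general

variable {k : Type*} {L L' : Type*} [CommRing k] [LieRing L] [LieAlgebra k L] [LieRing L']
  [LieAlgebra k L']

/-- Homomorphisms agreeing on generators are equal. -/
lemma hom_eq_of_generators {ι : Type*} {x : ι → L}
    (hx : LieSubalgebra.lieSpan k L (Set.range x) = ⊤) {f g : L →ₗ⁅k⁆ L'}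
    (h : ∀ i, f (x i) = g (x i)) (z : L) : f z = g z := by
  let K : LieSubalgebra k L :=
    { LinearMap.eqLocus (f : L →ₗ[k] L') (g : L →ₗ[k] L') with
      lie_mem' := fun {a b} ha hb => by
        have ha' : f a = g a := ha
        have hb' : f b = g b := hb
        change f ⁅a, b⁆ = g ⁅a, b⁆
        rw [_root_.LieHom.map_lie, _root_.LieHom.map_lie, ha', hb'] }
  have hK : LieSubalgebra.lieSpan k L (Set.range x) ≤ K := by
    rw [LieSubalgebra.lieSpan_le]
    rintro _ ⟨i, rfl⟩
    exact h i
  rw [hx] at hK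
  exact hK (LieSubalgebra.mem_top z)

/-- Induction in a Lie algebra with given generators. -/
lemma generators_induction {ι : Type*} {x : ι → L}
    (hx : LieSubalgebra.lieSpan k L (Set.range x) = ⊤) (p : L → Prop) (h0 : p 0)
    (hg : ∀ i, p (x i)) (hadd : ∀ a b, p a → p b → p (a + b)) (hsmul : ∀ (c : k) a, p a → p (c • a))
    (hlie : ∀ a b, p a → p b → p ⁅a, b⁆) (z : L) : p z := by
  let K : LieSubalgebra k L :=
    { carrier := {z | p z}
      add_mem' := fun {a b} ha hb => hadd a b ha hb
      zero_mem' := h0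
      smul_mem' := fun c a ha => hsmul c a ha
      lie_mem' := fun {a b} ha hb => hlie a b ha hb }
  have hK : LieSubalgebra.lieSpan k L (Set.range x) ≤ K := by
    rw [LieSubalgebra.lieSpan_le]
    rintro _ ⟨i, rfl⟩
    exact hg i
  rw [hx] at hK
  exact hK (LieSubalgebra.mem_top z)

lemma derived_one_iff {z : L} : z ∈ LieAlgebra.derivedSeries k L 1 ↔
    z ∈ Submodule.span k {z | ∃ a b : L, ⁅a, b⁆ = z} := by
  have h : (LieAlgebra.derivedSeries k L 1).toSubmodule =
      Submodule.span k {z | ∃ a b : L, ⁅a, b⁆ = z} := by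
    rw [LieAlgebra.derivedSeries_def, LieAlgebra.derivedSeriesOfIdeal_succ,
      LieAlgebra.derivedSeriesOfIdeal_zero, LieSubmodule.lieIdeal_oper_eq_linear_span']
    congr 1
    ext z
    constructor
    · rintro ⟨a, -, b, -, rfl⟩
      exact ⟨a, b, rfl⟩
    · rintro ⟨a, b, rfl⟩
      exact ⟨a, LieSubmodule.mem_top a, b, LieSubmodule.mem_top b, rfl⟩
  rw [← h]
  rfl

lemma derived_two_toSubmodule : (LieAlgebra.derivedSeries k L 2).toSubmodule =
    Submodule.span k {z | ∃ a ∈ LieAlgebra.derivedSeries k L 1,
      ∃ b ∈ LieAlgebra.derivedSeries k L 1, ⁅a, b⁆ = z} := by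
  rw [LieAlgebra.derivedSeries_def, LieAlgebra.derivedSeriesOfIdeal_succ,
    LieSubmodule.lieIdeal_oper_eq_linear_span']

lemma lie_mem_derived_two {a b : L} (ha : a ∈ LieAlgebra.derivedSeries k L 1)
    (hb : b ∈ LieAlgebra.derivedSeries k L 1) : ⁅a, b⁆ ∈ LieAlgebra.derivedSeries k L 2 := by
  rw [LieAlgebra.derivedSeries_def, LieAlgebra.derivedSeriesOfIdeal_succ]
  exact LieSubmodule.lie_mem_lie ha hb

/-- In the quotient by the second derived term, the derived algebra is abelian. -/
lemma derived_abelian (a b : L ⧸ LieAlgebra.derivedSeries k L 2)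
    (ha : a ∈ LieAlgebra.derivedSeries k (L ⧸ LieAlgebra.derivedSeries k L 2) 1)
    (hb : b ∈ LieAlgebra.derivedSeries k (L ⧸ LieAlgebra.derivedSeries k L 2) 1) : ⁅a, b⁆ = 0 := by
  have h1 := lie_mem_derived_two ha hb
  have h2 := LieIdeal.derivedSeries_map_eq (R := k) 2
    (mkHom_surjective (LieAlgebra.derivedSeries k L 2))
  rw [← h2] at h1
  have h3 : LieIdeal.map (mkHom (LieAlgebra.derivedSeries k L 2))
      (LieAlgebra.derivedSeries k L 2) = ⊥ := by
    rw [LieIdeal.map_eq_bot_iff]
    intro z hz
    rw [_root_.LieHom.mem_ker]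
    exact (mkHom_eq_zero _).2 hz
  rw [h3] at h1
  exact h1

end general

/-- The homomorphism of the free metabelian Lie algebra into the Lie algebra of vectors, mapping
the generators to the basis vectors. -/
lemma exists_del : ∃ d : S32 →ₗ⁅ZMod 2⁆ Tm, ∀ i, d (gx i) = bas i := by
  obtain ⟨d, hd⟩ := exists_liftHom (LieAlgebra.derivedSeries (ZMod 2)
    (FreeLieAlgebra (ZMod 2) (Fin 3)) 2) (FreeLieAlgebra.lift (ZMod 2) bas) (by
      intro z hz
      set f := FreeLieAlgebra.lift (ZMod 2) bas with hf
      have h1 : ∀ a ∈ LieAlgebra.derivedSeries (ZMod 2) (FreeLieAlgebra (ZMod 2) (Fin 3)) 1,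
          eps (f a) = 0 := by
        intro a ha
        rw [derived_one_iff] at ha
        induction ha using Submodule.span_induction with
        | mem a ha =>
          obtain ⟨u, v, rfl⟩ := ha
          rw [_root_.LieHom.map_lie, eps_bracket]
        | zero => simp
        | add u v _ _ hu hv => rw [map_add, map_add, hu, hv, add_zero]
        | smul c u _ hu => rw [map_smul, eps_smul2, hu, smul_zero]
      have h2 : z ∈ (LieAlgebra.derivedSeries (ZMod 2)
        (FreeLieAlgebra (ZMod 2) (Fin 3)) 2).toSubmodule := hz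
      rw [derived_two_toSubmodule] at h2
      clear hz
      induction h2 using Submodule.span_induction with
      | mem z hz =>
        obtain ⟨a, ha, b, hb, rfl⟩ := hz
        rw [_root_.LieHom.map_lie, tm_bracket, h1 a ha, h1 b hb, zero_smul, zero_smul, sub_zero]
      | zero => simp
      | add u v _ _ hu hv => rw [map_add, hu, hv, add_zero]
      | smul c u _ hu => rw [map_smul, hu, smul_zero])
  refine ⟨d, fun i => ?_⟩
  rw [gx, hd, FreeLieAlgebra.lift_of_apply]

end Pool.Agent.H84.LieHom
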