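import Mathlib

/-!
A module over a Lie algebra with an ordered basis, with basis the finite multisets of basis
elements (Poincaré–Birkhoff–Witt), in a form relative to a subalgebra.
-/

set_option autoImplicit false

namespace Pool.Agent.H84.LieHom.PBW

open Finsupp

universe v

variable {k L Λ : Type*} [Field k] [LieRing L] [LieAlgebra k L] [LinearOrder Λ]

/-- The basis vector attached to a multiset. -/
noncomputable def z (k : Type*) {Λ : Type*} [Field k] (M : Multiset Λ) : Multiset Λ →₀ k :=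
  Finsupp.single M 1

open Classical in
/-- The recursive step of the definition of the action. -/
noncomputable def F (b : Module.Basis Λ k L)
    (T : L →ₗ[k] (Multiset Λ →₀ k) →ₗ[k] (Multiset Λ →₀ k)) (n : ℕ) (l : Λ) (M : Multiset Λ) :
    Multiset Λ →₀ k :=
  if M.card < n then T (b l) (z k M)
  else if h : ∃ μ ∈ M, μ < l ∧ ∀ ν ∈ M, μ ≤ ν then
    z k (l ::ₘ M) + T (b h.choose) (T (b l) (z k (M.erase h.choose)) -
      z k (l ::ₘ M.erase h.choose)) + T ⁅b l, b h.choose⁆ (z k (M.erase h.choose))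
  else z k (l ::ₘ M)

/-- Approximations of the action, correct on multisets of size less than `n`. -/
noncomputable def T (b : Module.Basis Λ k L) :
    ℕ → (L →ₗ[k] (Multiset Λ →₀ k) →ₗ[k] (Multiset Λ →₀ k))
  | 0 => 0
  | n + 1 => b.constr k fun l => Finsupp.linearCombination k (F b (T b n) n l)

lemma T_succ (b : Module.Basis Λ k L) (n : ℕ) (l : Λ) (M : Multiset Λ) :
    T b (n + 1) (b l) (z k M) = F b (T b n) n l M := by
  rw [T, Module.Basis.constr_basis, z, Finsupp.linearCombination_single, one_smul]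

/-- The action. -/
noncomputable def rho (b : Module.Basis Λ k L) :
    L →ₗ[k] (Multiset Λ →₀ k) →ₗ[k] (Multiset Λ →₀ k) :=
  b.constr k fun l => Finsupp.linearCombination k fun M => T b (M.card + 1) (b l) (z k M)

lemma rho_apply (b : Module.Basis Λ k L) (l : Λ) (M : Multiset Λ) :
    rho b (b l) (z k M) = T b (M.card + 1) (b l) (z k M) := by
  rw [rho, Module.Basis.constr_basis]
  conv_lhs => rw [z]
  rw [Finsupp.linearCombination_single, one_smul]

lemma T_eq_rho_basis (b : Module.Basis Λ k L) (n : ℕ) (l : Λ) (M : Multiset Λ) (h : M.card < n) :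
    T b n (b l) (z k M) = rho b (b l) (z k M) := by
  induction n with
  | zero => exact absurd h (Nat.not_lt_zero _)
  | succ n ih =>
    rcases Nat.lt_succ_iff_lt_or_eq.1 h with h1 | h1
    · rw [T_succ, F, if_pos h1, ih h1]
    · rw [rho_apply, h1]

/-- The span of the basis vectors attached to multisets satisfying a condition. -/
noncomputable abbrev sp (k : Type*) {Λ : Type*} [Field k] (p : Set (Multiset Λ)) :
    Submodule k (Multiset Λ →₀ k) := Finsupp.supported k k p

omit [LinearOrder Λ] in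
lemma sp_induction {p : Set (Multiset Λ)} {C : (Multiset Λ →₀ k) → Prop} (h0 : C 0)
    (hadd : ∀ u v, C u → C v → C (u + v)) (hsmul : ∀ (c : k) u, C u → C (c • u))
    (hz : ∀ M ∈ p, C (z k M)) {w : Multiset Λ →₀ k} (hw : w ∈ sp k p) : C w := by
  rw [sp, Finsupp.supported_eq_span_single] at hw
  induction hw using Submodule.span_induction with
  | mem w hw =>
    obtain ⟨M, hM, rfl⟩ := hw
    exact hz M hM
  | zero => exact h0
  | add u v _ _ hu hv => exact hadd u v hu hv
  | smul c u _ hu => exact hsmul c u hu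

omit [LinearOrder Λ] in
lemma z_mem_sp {p : Set (Multiset Λ)} {M : Multiset Λ} (h : M ∈ p) : z k M ∈ sp k p :=
  Finsupp.single_mem_supported k 1 h

/-- Multisets of size at most `n`. -/
abbrev fil (Λ : Type*) (n : ℕ) : Set (Multiset Λ) := {M | M.card ≤ n}

omit [LinearOrder Λ] in
lemma sp_mono {p q : Set (Multiset Λ)} (h : p ⊆ q) : sp k p ≤ sp k q :=
  Finsupp.supported_mono h

lemma T_eq_rho (b : Module.Basis Λ k L) {n m : ℕ} (hmn : m < n) (l : L) (w : Multiset Λ →₀ k)
    (hw : w ∈ sp k (fil Λ m)) : T b n l w = rho b l w := by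
  refine sp_induction (C := fun w => T b n l w = rho b l w) (by simp) (fun u v hu hv => by
    rw [map_add, map_add, hu, hv]) (fun c u hu => by rw [map_smul, map_smul, hu]) ?_ hw
  intro M hM
  have h1 : M.card < n := lt_of_le_of_lt hM hmn
  have h2 : (T b n).flip (z k M) = (rho b).flip (z k M) :=
    b.ext fun l => T_eq_rho_basis b n l M h1
  exact LinearMap.congr_fun h2 l

/-- The leading term of the action. -/
lemma rho_sub_mem (b : Module.Basis Λ k L) (n : ℕ) :
    ∀ (M : Multiset Λ), M.card = n → ∀ l : Λ, rho b (b l) (z k M) - z k (l ::ₘ M) ∈ sp k (fil Λ n) := by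
  induction n using Nat.strong_induction_on with
  | _ n ih =>
    intro M hM l
    -- consequences of the induction hypothesis
    have ih2 : ∀ m, m < n → ∀ l : L, ∀ w ∈ sp k (fil Λ m), rho b l w ∈ sp k (fil Λ (m + 1)) := by
      intro m hm l w hw
      refine sp_induction (C := fun w => rho b l w ∈ sp k (fil Λ (m + 1))) (by simp)
        (fun u v hu hv => by rw [map_add]; exact add_mem hu hv)
        (fun c u hu => by rw [map_smul]; exact Submodule.smul_mem _ _ hu) ?_ hw
      intro K hK
      have hK' : K.card ≤ m := hK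
      have h1 : ∀ l : Λ, rho b (b l) (z k K) ∈ sp k (fil Λ (m + 1)) := by
        intro l
        have h2 := ih K.card (lt_of_le_of_lt hK' hm) K rfl l
        have h3 : z k (l ::ₘ K) ∈ sp k (fil Λ (m + 1)) := z_mem_sp (by
          change (l ::ₘ K).card ≤ m + 1
          rw [Multiset.card_cons]; omega)
        have h4 := add_mem (sp_mono (k := k) (p := fil Λ K.card) (q := fil Λ (m + 1))
          (fun N hN => by
            have : N.card ≤ K.card := hN
            change N.card ≤ m + 1
            omega) h2) h3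
        rwa [sub_add_cancel] at h4
      have h5 : l ∈ Submodule.span k (Set.range b) := by rw [b.span_eq]; trivial
      induction h5 using Submodule.span_induction with
      | mem x hx => obtain ⟨l, rfl⟩ := hx; exact h1 l
      | zero => simp
      | add x y _ _ hx hy => rw [map_add]; exact add_mem hx hy
      | smul c x _ hx => rw [map_smul]; exact Submodule.smul_mem _ _ hx
    rw [rho_apply, T_succ, F, if_neg (lt_irrefl _)]
    split_ifs with h
    · obtain ⟨h1, h2, h3⟩ := h.choose_spec
      set μ := h.choose with hμ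
      have hcard : (M.erase μ).card + 1 = n := by
        rw [Multiset.card_erase_add_one h1, hM]
      set N := M.erase μ with hN
      have hNn : N.card < n := by omega
      have hNz : z k N ∈ sp k (fil Λ N.card) := z_mem_sp (show N.card ≤ N.card from le_rfl)
      have e1 : T b M.card (b l) (z k N) = rho b (b l) (z k N) :=
        T_eq_rho b (by omega : N.card < M.card) _ _ hNz
      have e2 : T b M.card ⁅b l, b μ⁆ (z k N) = rho b ⁅b l, b μ⁆ (z k N) :=
        T_eq_rho b (by omega : N.card < M.card) _ _ hNz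
      have hw := ih N.card hNn N rfl l
      have e3 : T b M.card (b μ) (rho b (b l) (z k N) - z k (l ::ₘ N)) =
          rho b (b μ) (rho b (b l) (z k N) - z k (l ::ₘ N)) :=
        T_eq_rho b (by omega : N.card < M.card) _ _ hw
      rw [e1, e2, e3]
      have e4 : z k (l ::ₘ M) + rho b (b μ) (rho b (b l) (z k N) - z k (l ::ₘ N)) +
          rho b ⁅b l, b μ⁆ (z k N) - z k (l ::ₘ M) =
          rho b (b μ) (rho b (b l) (z k N) - z k (l ::ₘ N)) + rho b ⁅b l, b μ⁆ (z k N) := by abel
      rw [e4]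
      have h5 := ih2 N.card hNn (b μ) _ hw
      have h6 := ih2 N.card hNn ⁅b l, b μ⁆ _ hNz
      rw [hcard] at h5 h6
      exact add_mem h5 h6
    · rw [sub_self]; exact zero_mem _

lemma rho_mem_fil (b : Module.Basis Λ k L) (m : ℕ) (l : L) (w : Multiset Λ →₀ k)
    (hw : w ∈ sp k (fil Λ m)) : rho b l w ∈ sp k (fil Λ (m + 1)) := by
  refine sp_induction (C := fun w => rho b l w ∈ sp k (fil Λ (m + 1))) (by simp)
    (fun u v hu hv => by rw [map_add]; exact add_mem hu hv)
    (fun c u hu => by rw [map_smul]; exact Submodule.smul_mem _ _ hu) ?_ hw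
  intro K hK
  have hK' : K.card ≤ m := hK
  have h1 : ∀ l : Λ, rho b (b l) (z k K) ∈ sp k (fil Λ (m + 1)) := by
    intro l
    have h2 := rho_sub_mem b K.card K rfl l
    have h3 : z k (l ::ₘ K) ∈ sp k (fil Λ (m + 1)) := z_mem_sp (by
      change (l ::ₘ K).card ≤ m + 1
      rw [Multiset.card_cons]; omega)
    have h4 := add_mem (sp_mono (k := k) (p := fil Λ K.card) (q := fil Λ (m + 1))
      (fun N hN => by
        have : N.card ≤ K.card := hN
        change N.card ≤ m + 1
        omega) h2) h3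
    rwa [sub_add_cancel] at h4
  have h5 : l ∈ Submodule.span k (Set.range b) := by rw [b.span_eq]; trivial
  induction h5 using Submodule.span_induction with
  | mem x hx => obtain ⟨l, rfl⟩ := hx; exact h1 l
  | zero => simp
  | add x y _ _ hx hy => rw [map_add]; exact add_mem hx hy
  | smul c x _ hx => rw [map_smul]; exact Submodule.smul_mem _ _ hx

lemma rho_low (b : Module.Basis Λ k L) (l : Λ) (M : Multiset Λ) (h : ∀ μ ∈ M, l ≤ μ) :
    rho b (b l) (z k M) = z k (l ::ₘ M) := by
  rw [rho_apply, T_succ, F, if_neg (lt_irrefl _), dif_neg]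
  rintro ⟨μ, h1, h2, -⟩
  exact absurd (h μ h1) (not_le.2 h2)

lemma rho_high (b : Module.Basis Λ k L) (l μ : Λ) (N : Multiset Λ) (hμ : μ < l)
    (h : ∀ ν ∈ N, μ ≤ ν) :
    rho b (b l) (z k (μ ::ₘ N)) = z k (l ::ₘ μ ::ₘ N) +
      rho b (b μ) (rho b (b l) (z k N) - z k (l ::ₘ N)) + rho b ⁅b l, b μ⁆ (z k N) := by
  have hex : ∃ μ' ∈ μ ::ₘ N, μ' < l ∧ ∀ ν ∈ μ ::ₘ N, μ' ≤ ν := by
    refine ⟨μ, Multiset.mem_cons_self _ _, hμ, ?_⟩
    intro ν hν
    rcases Multiset.mem_cons.1 hν with rfl | hν
    · exact le_rfl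
    · exact h ν hν
  rw [rho_apply, T_succ, F, if_neg (lt_irrefl _), dif_pos hex]
  have hμ' : hex.choose = μ := by
    obtain ⟨h1, h2, h3⟩ := hex.choose_spec
    refine le_antisymm (h3 μ (Multiset.mem_cons_self _ _)) ?_
    rcases Multiset.mem_cons.1 h1 with h4 | h4
    · exact h4.ge
    · exact h _ h4
  rw [hμ', Multiset.erase_cons_head]
  have hcard : N.card < (μ ::ₘ N).card := by rw [Multiset.card_cons]; omega
  have hNz : z k N ∈ sp k (fil Λ N.card) := z_mem_sp (show N.card ≤ N.card from le_rfl)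
  rw [T_eq_rho b hcard _ _ hNz, T_eq_rho b hcard _ _ hNz,
    T_eq_rho b hcard _ _ (rho_sub_mem b N.card N rfl l)]

/-- The defect of the commutator relation. -/
noncomputable def comm (b : Module.Basis Λ k L) (x y : L) (w : Multiset Λ →₀ k) :
    Multiset Λ →₀ k :=
  rho b x (rho b y w) - rho b y (rho b x w) - rho b ⁅x, y⁆ w

lemma comm_case (b : Module.Basis Λ k L) (l ν : Λ) (M : Multiset Λ) (h : ν < l)
    (hM : ∀ μ ∈ M, ν ≤ μ) : comm b (b l) (b ν) (z k M) = 0 := by
  rw [comm, rho_low b ν M hM, rho_high b l ν M h hM]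
  have h1 : rho b (b ν) (z k (l ::ₘ M)) = z k (l ::ₘ ν ::ₘ M) := by
    rw [rho_low b ν (l ::ₘ M), Multiset.cons_swap]
    intro μ hμ
    rcases Multiset.mem_cons.1 hμ with rfl | hμ
    · exact h.le
    · exact hM μ hμ
  rw [map_sub, h1]
  abel

lemma comm_swap (b : Module.Basis Λ k L) (x y : L) (w : Multiset Λ →₀ k) :
    comm b x y w = - comm b y x w := by
  rw [comm, comm, ← lie_skew x y, map_neg, LinearMap.neg_apply]
  abel

/-- From basis elements to all elements. -/
lemma comm_of_basis (b : Module.Basis Λ k L) (m : ℕ)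
    (h : ∀ M : Multiset Λ, M.card ≤ m → ∀ l ν : Λ, comm b (b l) (b ν) (z k M) = 0)
    (x y : L) (w : Multiset Λ →₀ k) (hw : w ∈ sp k (fil Λ m)) : comm b x y w = 0 := by
  refine sp_induction (C := fun w => comm b x y w = 0) (by simp [comm]) ?_ ?_ ?_ hw
  · intro u v hu hv
    have e : comm b x y (u + v) = comm b x y u + comm b x y v := by
      simp only [comm, map_add]; abel
    rw [e, hu, hv, add_zero]
  · intro c u hu
    have e : comm b x y (c • u) = c • comm b x y u := by
      simp only [comm, map_smul, smul_sub]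
    rw [e, hu, smul_zero]
  · intro M hM
    have hx : x ∈ Submodule.span k (Set.range b) := by rw [b.span_eq]; trivial
    have hy : y ∈ Submodule.span k (Set.range b) := by rw [b.span_eq]; trivial
    induction hx using Submodule.span_induction with
    | mem x hx =>
      obtain ⟨l, rfl⟩ := hx
      induction hy using Submodule.span_induction with
      | mem y hy => obtain ⟨ν, rfl⟩ := hy; exact h M hM l ν
      | zero => simp [comm]
      | add u v _ _ hu hv =>
        have e : comm b (b l) (u + v) (z k M) = comm b (b l) u (z k M) + comm b (b l) v (z k M) := by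
          simp only [comm, map_add, lie_add, LinearMap.add_apply]; abel
        rw [e, hu, hv, add_zero]
      | smul c u _ hu =>
        have e : comm b (b l) (c • u) (z k M) = c • comm b (b l) u (z k M) := by
          simp only [comm, map_smul, lie_smul, LinearMap.smul_apply, smul_sub]
        rw [e, hu, smul_zero]
    | zero => simp [comm]
    | add u v _ _ hu hv =>
      have e : comm b (u + v) y (z k M) = comm b u y (z k M) + comm b v y (z k M) := by
        simp only [comm, map_add, add_lie, LinearMap.add_apply]; abel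
      rw [e, hu, hv, add_zero]
    | smul c u _ hu =>
      have e : comm b (c • u) y (z k M) = c • comm b u y (z k M) := by
        simp only [comm, map_smul, smul_lie, LinearMap.smul_apply, smul_sub]
      rw [e, hu, smul_zero]

lemma comm_eq (b : Module.Basis Λ k L) {x y : L} {w : Multiset Λ →₀ k} (h : comm b x y w = 0) :
    rho b x (rho b y w) = rho b y (rho b x w) + rho b ⁅x, y⁆ w := by
  rw [comm, sub_sub, sub_eq_zero] at h
  exact h

lemma comm_basis (b : Module.Basis Λ k L) (n : ℕ) :
    ∀ M : Multiset Λ, M.card = n → ∀ l ν : Λ, comm b (b l) (b ν) (z k M) = 0 := by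
  induction n using Nat.strong_induction_on with
  | _ n ih =>
    intro M hM l ν
    by_cases hlν : l = ν
    · rw [hlν, comm, lie_self, sub_self, map_zero, LinearMap.zero_apply, sub_zero]
    by_cases h1 : ν < l ∧ ∀ μ ∈ M, ν ≤ μ
    · exact comm_case b l ν M h1.1 h1.2
    by_cases h2 : l < ν ∧ ∀ μ ∈ M, l ≤ μ
    · rw [comm_swap, comm_case b ν l M h2.1 h2.2, neg_zero]
    -- the main case
    obtain ⟨μ, N, hMN, hμN, hμl, hμν⟩ : ∃ (μ : Λ) (N : Multiset Λ), M = μ ::ₘ N ∧
        (∀ κ ∈ N, μ ≤ κ) ∧ μ < l ∧ μ < ν := by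
      have hne : M ≠ 0 := by
        rintro rfl
        rcases lt_or_gt_of_ne hlν with h | h
        · exact h2 ⟨h, by simp⟩
        · exact h1 ⟨h, by simp⟩
      obtain ⟨μ, hμM, hμ⟩ : ∃ μ ∈ M, ∀ κ ∈ M, μ ≤ κ := by
        have hne' : M.toFinset.Nonempty := by
          rw [Multiset.toFinset_nonempty]; exact hne
        refine ⟨M.toFinset.min' hne', Multiset.mem_toFinset.1 (Finset.min'_mem _ _), ?_⟩
        intro κ hκ
        exact Finset.min'_le _ _ (Multiset.mem_toFinset.2 hκ)
      refine ⟨μ, M.erase μ, (Multiset.cons_erase hμM).symm, ?_, ?_, ?_⟩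
      · intro κ hκ
        exact hμ κ (Multiset.mem_of_mem_erase hκ)
      · by_contra hcon
        push Not at hcon
        rcases lt_or_gt_of_ne hlν with h | h
        · exact h2 ⟨h, fun κ hκ => hcon.trans (hμ κ hκ)⟩
        · exact h1 ⟨h, fun κ hκ => (h.le.trans hcon).trans (hμ κ hκ)⟩
      · by_contra hcon
        push Not at hcon
        rcases lt_or_gt_of_ne hlν with h | h
        · exact h2 ⟨h, fun κ hκ => (h.le.trans hcon).trans (hμ κ hκ)⟩
        · exact h1 ⟨h, fun κ hκ => hcon.trans (hμ κ hκ)⟩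
    have hNn : N.card < n := by
      rw [hMN, Multiset.card_cons] at hM; omega
    have hNz : z k N ∈ sp k (fil Λ N.card) := z_mem_sp (show N.card ≤ N.card from le_rfl)
    -- the relation on smaller elements
    have key : ∀ (x y : L) (w : Multiset Λ →₀ k), w ∈ sp k (fil Λ N.card) → comm b x y w = 0 :=
      fun x y w hw => comm_of_basis b N.card
        (fun K hK l ν => ih K.card (lt_of_le_of_lt hK hNn) K rfl l ν) x y w hw
    have key2 : ∀ κ : Λ, μ < κ → ∀ κ' : Λ, μ < κ' →
        comm b (b κ) (b μ) (rho b (b κ') (z k N)) = 0 := by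
      intro κ hκ κ' hκ'
      have e : rho b (b κ') (z k N) = z k (κ' ::ₘ N) + (rho b (b κ') (z k N) - z k (κ' ::ₘ N)) := by
        abel
      rw [e]
      have e2 : ∀ u v, comm b (b κ) (b μ) (u + v) = comm b (b κ) (b μ) u + comm b (b κ) (b μ) v := by
        intro u v; simp only [comm, map_add]; abel
      rw [e2, key _ _ _ (rho_sub_mem b N.card N rfl κ'), comm_case b κ μ _ hκ, add_zero]
      intro τ hτ
      rcases Multiset.mem_cons.1 hτ with rfl | hτ
      · exact hκ'.le
      · exact hμN τ hτ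
    have hzM : z k M = rho b (b μ) (z k N) := by rw [hMN, rho_low b μ N hμN]
    have a1 := comm_eq b (key (b ν) (b μ) _ hNz)
    have a2 := comm_eq b (key (b l) (b μ) _ hNz)
    have a3 := comm_eq b (key2 l hμl ν hμν)
    have a4 := comm_eq b (key2 ν hμν l hμl)
    have a5 := comm_eq b (key (b l) ⁅b ν, b μ⁆ _ hNz)
    have a6 := comm_eq b (key (b ν) ⁅b l, b μ⁆ _ hNz)
    have a7 := comm_eq b (key (b l) (b ν) _ hNz)
    have a8 := comm_eq b (key (b μ) ⁅b l, b ν⁆ _ hNz)
    have jac : ⁅b μ, ⁅b l, b ν⁆⁆ + ⁅b l, ⁅b ν, b μ⁆⁆ - ⁅b ν, ⁅b l, b μ⁆⁆ = 0 := by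
      have h := lie_jacobi (b μ) (b l) (b ν)
      rw [← lie_skew (b μ) (b l), lie_neg] at h
      rw [← h]
      abel
    have jac' := congrArg (fun t => rho b t (z k N)) jac
    simp only [map_add, map_sub, LinearMap.add_apply, LinearMap.sub_apply, map_zero,
      LinearMap.zero_apply] at jac'
    rw [comm, hzM, a1, a2, map_add, map_add, a3, a4, a5, a6]
    have a7' : rho b (b μ) (rho b (b l) (rho b (b ν) (z k N))) =
        rho b (b μ) (rho b (b ν) (rho b (b l) (z k N))) + rho b (b μ) (rho b ⁅b l, b ν⁆ (z k N)) := by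
      rw [a7, map_add]
    rw [a7', a8]
    have e : rho b (b μ) (rho b (b ν) (rho b (b l) (z k N))) +
        (rho b ⁅b l, b ν⁆ (rho b (b μ) (z k N)) + rho b ⁅b μ, ⁅b l, b ν⁆⁆ (z k N)) +
        rho b ⁅b l, b μ⁆ (rho b (b ν) (z k N)) +
        (rho b ⁅b ν, b μ⁆ (rho b (b l) (z k N)) + rho b ⁅b l, ⁅b ν, b μ⁆⁆ (z k N)) -
        (rho b (b μ) (rho b (b ν) (rho b (b l) (z k N))) +
        rho b ⁅b ν, b μ⁆ (rho b (b l) (z k N)) +
        (rho b ⁅b l, b μ⁆ (rho b (b ν) (z k N)) + rho b ⁅b ν, ⁅b l, b μ⁆⁆ (z k N))) -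
        rho b ⁅b l, b ν⁆ (rho b (b μ) (z k N)) = rho b ⁅b μ, ⁅b l, b ν⁆⁆ (z k N) +
        rho b ⁅b l, ⁅b ν, b μ⁆⁆ (z k N) - rho b ⁅b ν, ⁅b l, b μ⁆⁆ (z k N) := by abel
    rw [e, jac']

/-- The commutator relation. -/
theorem rho_lie (b : Module.Basis Λ k L) (x y : L) (w : Multiset Λ →₀ k) :
    rho b ⁅x, y⁆ w = rho b x (rho b y w) - rho b y (rho b x w) := by
  have h : comm b x y w = 0 := by
    refine sp_induction (p := Set.univ) (C := fun w => comm b x y w = 0) (by simp [comm]) ?_ ?_ ?_
      (by simp [sp])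
    · intro u v hu hv
      have e : comm b x y (u + v) = comm b x y u + comm b x y v := by
        simp only [comm, map_add]; abel
      rw [e, hu, hv, add_zero]
    · intro c u hu
      have e : comm b x y (c • u) = c • comm b x y u := by
        simp only [comm, map_smul, smul_sub]
      rw [e, hu, smul_zero]
    · intro M _
      exact comm_of_basis b M.card (fun K _ l ν => comm_basis b K.card K rfl l ν) x y _
        (z_mem_sp (show M.card ≤ M.card from le_rfl))
  rw [comm, sub_eq_zero] at h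
  exact h.symm

/-- The span of the multisets meeting an upper set that spans a subalgebra is a submodule. -/
theorem rho_stable (b : Module.Basis Λ k L) (U : Set Λ) (hU : ∀ l ∈ U, ∀ ν, l ≤ ν → ν ∈ U)
    (hbr : ∀ l ∈ U, ∀ ν ∈ U, ⁅b l, b ν⁆ ∈ Submodule.span k (b '' U)) (n : ℕ) :
    ∀ M : Multiset Λ, M.card = n → (∃ l ∈ M, l ∈ U) → ∀ x : L,
      rho b x (z k M) ∈ sp k {M : Multiset Λ | ∃ l ∈ M, l ∈ U} := by
  induction n using Nat.strong_induction_on with
  | _ n ih =>
    intro M hM hMU x
    -- reduction to basis elements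
    suffices hb : ∀ l : Λ, rho b (b l) (z k M) ∈ sp k {M : Multiset Λ | ∃ l ∈ M, l ∈ U} by
      have hx : x ∈ Submodule.span k (Set.range b) := by rw [b.span_eq]; trivial
      induction hx using Submodule.span_induction with
      | mem x hx => obtain ⟨l, rfl⟩ := hx; exact hb l
      | zero => simp
      | add x y _ _ hx hy => rw [map_add]; exact add_mem hx hy
      | smul c x _ hx => rw [map_smul]; exact Submodule.smul_mem _ _ hx
    intro l
    by_cases hlow : ∀ μ ∈ M, l ≤ μ
    · rw [rho_low b l M hlow]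
      obtain ⟨κ, hκ, hκU⟩ := hMU
      exact z_mem_sp ⟨κ, Multiset.mem_cons_of_mem hκ, hκU⟩
    obtain ⟨μ, N, hMN, hμN, hμl⟩ : ∃ (μ : Λ) (N : Multiset Λ), M = μ ::ₘ N ∧
        (∀ κ ∈ N, μ ≤ κ) ∧ μ < l := by
      push Not at hlow
      obtain ⟨κ, hκ, hκl⟩ := hlow
      obtain ⟨μ, hμM, hμ⟩ : ∃ μ ∈ M, ∀ κ ∈ M, μ ≤ κ := by
        have hne' : M.toFinset.Nonempty := ⟨κ, Multiset.mem_toFinset.2 hκ⟩
        refine ⟨M.toFinset.min' hne', Multiset.mem_toFinset.1 (Finset.min'_mem _ _), ?_⟩
        intro κ hκ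
        exact Finset.min'_le _ _ (Multiset.mem_toFinset.2 hκ)
      exact ⟨μ, M.erase μ, (Multiset.cons_erase hμM).symm,
        fun κ hκ => hμ κ (Multiset.mem_of_mem_erase hκ), lt_of_le_of_lt (hμ κ hκ) hκl⟩
    have hNn : N.card < n := by
      rw [hMN, Multiset.card_cons] at hM; omega
    rw [hMN, rho_high b l μ N hμl hμN]
    have h1 : z k (l ::ₘ μ ::ₘ N) ∈ sp k {M : Multiset Λ | ∃ l ∈ M, l ∈ U} := by
      obtain ⟨κ, hκ, hκU⟩ := hMU
      rw [hMN] at hκ
      exact z_mem_sp ⟨κ, Multiset.mem_cons_of_mem hκ, hκU⟩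
    by_cases hNU : ∃ κ ∈ N, κ ∈ U
    · -- the rest of the multiset still meets the upper set
      have h2 : rho b (b l) (z k N) - z k (l ::ₘ N) ∈
          sp k ({M : Multiset Λ | ∃ l ∈ M, l ∈ U} ∩ fil Λ N.card) := by
        rw [sp, Finsupp.supported_inter]
        refine ⟨?_, rho_sub_mem b N.card N rfl l⟩
        obtain ⟨κ, hκ, hκU⟩ := hNU
        exact sub_mem (ih N.card hNn N rfl ⟨κ, hκ, hκU⟩ (b l))
          (z_mem_sp ⟨κ, Multiset.mem_cons_of_mem hκ, hκU⟩)
      have h3 : rho b (b μ) (rho b (b l) (z k N) - z k (l ::ₘ N)) ∈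
          sp k {M : Multiset Λ | ∃ l ∈ M, l ∈ U} := by
        refine sp_induction (C := fun w => rho b (b μ) w ∈
          sp k {M : Multiset Λ | ∃ l ∈ M, l ∈ U}) (by simp)
          (fun u v hu hv => by rw [map_add]; exact add_mem hu hv)
          (fun c u hu => by rw [map_smul]; exact Submodule.smul_mem _ _ hu) ?_ h2
        rintro K ⟨hK1, hK2⟩
        exact ih K.card (lt_of_le_of_lt hK2 hNn) K rfl hK1 (b μ)
      exact add_mem (add_mem h1 h3) (ih N.card hNn N rfl hNU _)
    · -- the multiset is a singleton in the upper set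
      have hμU : μ ∈ U := by
        obtain ⟨κ, hκ, hκU⟩ := hMU
        rw [hMN] at hκ
        rcases Multiset.mem_cons.1 hκ with rfl | hκ
        · exact hκU
        · exact absurd ⟨κ, hκ, hκU⟩ hNU
      have hN0 : N = 0 := by
        rw [Multiset.eq_zero_iff_forall_notMem]
        intro κ hκ
        exact hNU ⟨κ, hκ, hU μ hμU κ (hμN κ hκ)⟩
      subst hN0
      rw [rho_low b l 0 (by simp), sub_self, map_zero, add_zero]
      refine add_mem h1 ?_
      have h4 := hbr l (hU μ hμU l hμl.le) μ hμU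
      generalize ⁅b l, b μ⁆ = y at h4 ⊢
      induction h4 using Submodule.span_induction with
      | mem x hx =>
        obtain ⟨κ, hκ, rfl⟩ := hx
        rw [rho_low b κ 0 (by simp)]
        exact z_mem_sp ⟨κ, Multiset.mem_cons_self _ _, hκ⟩
      | zero => simp
      | add x y _ _ hx hy => rw [map_add]; exact add_mem hx hy
      | smul c x _ hx => rw [map_smul]; exact Submodule.smul_mem _ _ hx

/-- The action on the empty multiset. -/
lemma rho_vacuum (b : Module.Basis Λ k L) (U : Set Λ) (x : L) :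
    rho b x (z k 0) ∈ sp k {M : Multiset Λ | ∃ l ∈ M, l ∈ U} ↔ x ∈ Submodule.span k (b '' U) := by
  have h1 : ∀ x, rho b x (z k 0) = (b.repr x).mapDomain fun l => ({l} : Multiset Λ) := by
    intro x
    have h2 : (rho b).flip (z k (0 : Multiset Λ)) =
        (Finsupp.lmapDomain k k fun l => ({l} : Multiset Λ)) ∘ₗ (b.repr : L →ₗ[k] Λ →₀ k) := by
      refine b.ext fun l => ?_
      rw [LinearMap.flip_apply, rho_low b l 0 (by simp), LinearMap.comp_apply]
      simp [z]
    have h3 := LinearMap.congr_fun h2 x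
    exact h3
  have hinj : Function.Injective fun l : Λ => ({l} : Multiset Λ) := fun a c h =>
    Multiset.singleton_inj.1 h
  rw [h1, Module.Basis.mem_span_image, sp, Finsupp.mem_supported,
    Finsupp.mapDomain_support_of_injective hinj]
  constructor
  · intro h l hl
    have h2 := h (Finset.mem_coe.2 (Finset.mem_image_of_mem _ hl))
    obtain ⟨κ, hκ, hκU⟩ := h2
    rw [Multiset.mem_singleton] at hκ
    rwa [← hκ]
  · intro h M hM
    obtain ⟨l, hl, rfl⟩ := Finset.mem_image.1 (Finset.mem_coe.1 hM)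
    exact ⟨l, Multiset.mem_singleton_self l, h hl⟩

/-- For every subalgebra `H` of a Lie algebra `L` over a field there is a representation of `L` with
an invariant subspace `W` and a vector `v` such that `x v ∈ W` if and only if `x ∈ H`. -/
theorem exists_module {L : Type v} [LieRing L] [LieAlgebra k L] (H : LieSubalgebra k L) :
    ∃ (Λ : Type v) (ρ : L →ₗ[k] (Multiset Λ →₀ k) →ₗ[k] (Multiset Λ →₀ k))
      (W : Submodule k (Multiset Λ →₀ k)) (v : Multiset Λ →₀ k),
      (∀ x y w, ρ ⁅x, y⁆ w = ρ x (ρ y w) - ρ y (ρ x w)) ∧ (∀ x, ∀ w ∈ W, ρ x w ∈ W) ∧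
      ∀ x, ρ x v ∈ W ↔ x ∈ H := by
  classical
  obtain ⟨C, hC⟩ := Submodule.exists_isCompl H.toSubmodule
  let bH := Module.Basis.ofVectorSpace k H.toSubmodule
  let bC := Module.Basis.ofVectorSpace k C
  set ιH := Module.Basis.ofVectorSpaceIndex k H.toSubmodule
  set ιC := Module.Basis.ofVectorSpaceIndex k C
  let _ : LinearOrder ιH := IsWellOrder.linearOrder WellOrderingRel
  let _ : LinearOrder ιC := IsWellOrder.linearOrder WellOrderingRel
  let b₀ : Module.Basis (ιC ⊕ ιH) k L :=
    (bC.prod bH).map (Submodule.prodEquivOfIsCompl C H.toSubmodule hC.symm)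
  let b : Module.Basis (ιC ⊕ₗ ιH) k L := b₀.reindex toLex
  let U : Set (ιC ⊕ₗ ιH) := Set.range fun i : ιH => toLex (Sum.inr i)
  have hbH : ∀ i : ιH, b (toLex (Sum.inr i)) = (bH i : L) := by
    intro i
    simp [b, b₀]
  have hspan : Submodule.span k (b '' U) = H.toSubmodule := by
    have h1 : b '' U = H.toSubmodule.subtype '' Set.range bH := by
      ext y
      constructor
      · rintro ⟨_, ⟨i, rfl⟩, rfl⟩
        exact ⟨bH i, ⟨i, rfl⟩, (hbH i).symm⟩
      · rintro ⟨_, ⟨i, rfl⟩, rfl⟩
        exact ⟨_, ⟨i, rfl⟩, hbH i⟩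
    rw [h1, ← Submodule.map_span, bH.span_eq, Submodule.map_top, Submodule.range_subtype]
  have hUup : ∀ l ∈ U, ∀ ν, l ≤ ν → ν ∈ U := by
    rintro _ ⟨i, rfl⟩ ν hν
    rcases h : ofLex ν with c | j
    · exfalso
      have h' : ν = toLex (Sum.inl c) := by rw [← h]; rfl
      rw [h'] at hν
      exact Sum.Lex.not_inr_le_inl hν
    · refine ⟨j, ?_⟩
      change toLex (Sum.inr j) = ν
      rw [← h]
      rfl
  have hUbr : ∀ l ∈ U, ∀ ν ∈ U, ⁅b l, b ν⁆ ∈ Submodule.span k (b '' U) := by
    intro l hl ν hν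
    have h1 : b l ∈ H.toSubmodule := hspan.le (Submodule.subset_span ⟨l, hl, rfl⟩)
    have h2 : b ν ∈ H.toSubmodule := hspan.le (Submodule.subset_span ⟨ν, hν, rfl⟩)
    exact hspan.ge (H.lie_mem h1 h2)
  refine ⟨ιC ⊕ₗ ιH, rho b, sp k {M | ∃ l ∈ M, l ∈ U}, z k 0, rho_lie b, ?_, ?_⟩
  · intro x w hw
    refine sp_induction (C := fun w => rho b x w ∈ sp k {M | ∃ l ∈ M, l ∈ U}) (by simp)
      (fun u v hu hv => by rw [map_add]; exact add_mem hu hv)
      (fun c u hu => by rw [map_smul]; exact Submodule.smul_mem _ _ hu) ?_ hw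
    intro M hM
    exact rho_stable b U hUup hUbr M.card M rfl hM x
  · intro x
    rw [rho_vacuum, hspan]
    rfl

end Pool.Agent.H84.LieHom.PBW
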