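import Mathlib

/-!
Free associative algebras: weighted gradings, left derivatives, and decompositions.
-/

set_option autoImplicit false

namespace Pool.Agent.H84.LieHom.FA

open FreeAlgebra

variable {k X : Type*} [Field k]

/-- The homomorphism into polynomials multiplying each generator by a power of the variable. -/
noncomputable def lam (d : X → ℕ) : FreeAlgebra k X →ₐ[k] Polynomial (FreeAlgebra k X) :=
  FreeAlgebra.lift k fun x => Polynomial.monomial (d x) (ι k x)

/-- The homogeneous components with respect to a weighted degree. -/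
noncomputable def comp (d : X → ℕ) (n : ℕ) : FreeAlgebra k X →ₗ[k] FreeAlgebra k X where
  toFun a := (lam d a).coeff n
  map_add' a b := by rw [map_add, Polynomial.coeff_add]
  map_smul' c a := by rw [map_smul, Polynomial.coeff_smul, RingHom.id_apply]

lemma comp_apply (d : X → ℕ) (n : ℕ) (a : FreeAlgebra k X) : comp d n a = (lam d a).coeff n := rfl

lemma comp_ι (d : X → ℕ) (n : ℕ) (x : X) : comp d n (ι k x) = if d x = n then ι k x else 0 := by
  rw [comp_apply, lam, FreeAlgebra.lift_ι_apply, Polynomial.coeff_monomial]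

lemma comp_algebraMap (d : X → ℕ) (n : ℕ) (c : k) :
    comp d n (algebraMap k (FreeAlgebra k X) c) =
      if n = 0 then algebraMap k (FreeAlgebra k X) c else 0 := by
  rw [comp_apply, AlgHom.commutes]
  change (Polynomial.C (algebraMap k (FreeAlgebra k X) c)).coeff n = _
  rw [Polynomial.coeff_C]

lemma comp_mul (d : X → ℕ) (n : ℕ) (a b : FreeAlgebra k X) :
    comp d n (a * b) = ∑ p ∈ Finset.HasAntidiagonal.antidiagonal n, comp d p.1 a * comp d p.2 b := by
  rw [comp_apply, map_mul, Polynomial.coeff_mul]
  rfl

lemma comp_comp (d : X → ℕ) (m n : ℕ) (a : FreeAlgebra k X) :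
    comp d m (comp d n a) = if m = n then comp d n a else 0 := by
  induction a using FreeAlgebra.induction generalizing m n with
  | grade0 c =>
    rw [comp_algebraMap]
    split_ifs with h1 h2 h2
    · rw [comp_algebraMap, if_pos (h2.trans h1)]
    · rw [comp_algebraMap, if_neg (fun h => h2 (h.trans h1.symm))]
    · rw [map_zero]
    · rw [map_zero]
  | grade1 x =>
    rw [comp_ι]
    split_ifs with h1 h2 h2
    · rw [comp_ι, if_pos (h1.trans h2.symm)]
    · rw [comp_ι, if_neg (fun h => h2 (h.symm.trans h1))]
    · rw [map_zero]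
    · rw [map_zero]
  | mul a b ha hb =>
    rw [comp_mul, map_sum]
    split_ifs with h
    · subst h
      refine Finset.sum_congr rfl fun p hp => ?_
      rw [comp_mul]
      have hp' := Finset.HasAntidiagonal.mem_antidiagonal.1 hp
      rw [Finset.sum_eq_single p]
      · rw [ha, if_pos rfl, hb, if_pos rfl]
      · intro q hq hqp
        have hq' := Finset.HasAntidiagonal.mem_antidiagonal.1 hq
        rw [ha, hb]
        have h1 : q.1 ≠ p.1 := by
          intro h1
          exact hqp (Prod.ext h1 (by omega))
        rw [if_neg h1, zero_mul]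
      · intro h
        exact absurd hp h
    · refine Finset.sum_eq_zero fun p hp => ?_
      have hp' := Finset.HasAntidiagonal.mem_antidiagonal.1 hp
      rw [comp_mul]
      refine Finset.sum_eq_zero fun q hq => ?_
      have hq' := Finset.HasAntidiagonal.mem_antidiagonal.1 hq
      rw [ha, hb]
      by_cases h1 : q.1 = p.1
      · have h2 : q.2 ≠ p.2 := by omega
        rw [if_neg h2, mul_zero]
      · rw [if_neg h1, zero_mul]
  | add a b ha hb =>
    rw [map_add, map_add, ha, hb]
    split_ifs
    · rfl
    · rw [add_zero]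

/-- Evaluation of polynomials over a noncommutative ring at one. -/
noncomputable def ev1 (A : Type*) [Semiring A] : Polynomial A →+* A :=
  Polynomial.eval₂RingHom' (RingHom.id A) 1 (fun _ => Commute.one_right _)

lemma ev1_monomial {A : Type*} [Semiring A] (n : ℕ) (a : A) : ev1 A (Polynomial.monomial n a) = a := by
  simp [ev1, Polynomial.eval₂RingHom']

lemma ev1_eq_sum {A : Type*} [Semiring A] (p : Polynomial A) (n : ℕ) (h : p.natDegree ≤ n) :
    ev1 A p = ∑ i ∈ Finset.range (n + 1), p.coeff i := by
  conv_lhs => rw [p.as_sum_range' (n + 1) (by omega)]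
  rw [map_sum]
  exact Finset.sum_congr rfl fun i _ => ev1_monomial i _

lemma ev1_lam (d : X → ℕ) (a : FreeAlgebra k X) : ev1 _ (lam d a) = a := by
  induction a using FreeAlgebra.induction with
  | grade0 c =>
    rw [AlgHom.commutes]
    change ev1 _ (Polynomial.C (algebraMap k (FreeAlgebra k X) c)) = _
    rw [← Polynomial.monomial_zero_left, ev1_monomial]
  | grade1 x => rw [lam, FreeAlgebra.lift_ι_apply, ev1_monomial]
  | mul a b ha hb => rw [map_mul, map_mul, ha, hb]
  | add a b ha hb => rw [map_add, map_add, ha, hb]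

lemma lam_injective (d : X → ℕ) : Function.Injective (lam (k := k) d) :=
  Function.LeftInverse.injective (g := ev1 _) (ev1_lam d)

/-- The weighted degree. -/
noncomputable def deg (d : X → ℕ) (a : FreeAlgebra k X) : ℕ := (lam d a).natDegree

lemma deg_le_iff (d : X → ℕ) (a : FreeAlgebra k X) (n : ℕ) :
    deg d a ≤ n ↔ ∀ m, n < m → comp d m a = 0 :=
  Polynomial.natDegree_le_iff_coeff_eq_zero

lemma sum_comp (d : X → ℕ) (a : FreeAlgebra k X) (n : ℕ) (h : deg d a ≤ n) :
    ∑ i ∈ Finset.range (n + 1), comp d i a = a := by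
  conv_rhs => rw [← ev1_lam d a]
  rw [ev1_eq_sum _ n h]
  rfl

lemma comp_deg_ne_zero (d : X → ℕ) {a : FreeAlgebra k X} (h : a ≠ 0) : comp d (deg d a) a ≠ 0 := by
  have h1 : lam d a ≠ 0 := fun h0 => h (lam_injective d (h0.trans (map_zero _).symm))
  exact Polynomial.leadingCoeff_ne_zero.2 h1

lemma eq_zero_of_comp (d : X → ℕ) {a : FreeAlgebra k X} (h : ∀ n, comp d n a = 0) : a = 0 := by
  by_contra hne
  exact comp_deg_ne_zero d hne (h _)

lemma deg_mul_le (d : X → ℕ) (a b : FreeAlgebra k X) : deg d (a * b) ≤ deg d a + deg d b := by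
  rw [deg, map_mul]
  exact Polynomial.natDegree_mul_le

lemma comp_mul_top (d : X → ℕ) {a b : FreeAlgebra k X} {m n : ℕ} (ha : deg d a ≤ m)
    (hb : deg d b ≤ n) : comp d (m + n) (a * b) = comp d m a * comp d n b := by
  rw [comp_apply, map_mul]
  exact Polynomial.coeff_mul_add_eq_of_natDegree_le ha hb

lemma deg_add_le (d : X → ℕ) {a b : FreeAlgebra k X} {n : ℕ} (ha : deg d a ≤ n)
    (hb : deg d b ≤ n) : deg d (a + b) ≤ n := by
  rw [deg_le_iff] at *
  intro m hm
  rw [map_add, ha m hm, hb m hm, add_zero]

lemma deg_smul_le (d : X → ℕ) {a : FreeAlgebra k X} {n : ℕ} (c : k) (ha : deg d a ≤ n) :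
    deg d (c • a) ≤ n := by
  rw [deg_le_iff] at *
  intro m hm
  rw [map_smul, ha m hm, smul_zero]

lemma deg_zero (d : X → ℕ) : deg d (0 : FreeAlgebra k X) = 0 := by
  rw [deg, map_zero, Polynomial.natDegree_zero]

/-- The augmentation. -/
noncomputable def eps : FreeAlgebra k X →ₐ[k] k := FreeAlgebra.lift k fun _ => 0

lemma eps_ι (x : X) : eps (ι k x) = 0 := by rw [eps, FreeAlgebra.lift_ι_apply]

section derivative

variable [DecidableEq X]

/-- An auxiliary homomorphism into matrices, used to define the left derivatives. -/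
noncomputable def mat (x : X) : FreeAlgebra k X →ₐ[k] Matrix (Fin 2) (Fin 2) (FreeAlgebra k X) :=
  FreeAlgebra.lift k fun y => !![0, if y = x then 1 else 0; 0, ι k y]

lemma mat_entries (x : X) (a : FreeAlgebra k X) :
    mat x a 0 0 = algebraMap k _ (eps a) ∧ mat x a 1 0 = 0 ∧ mat x a 1 1 = a := by
  induction a using FreeAlgebra.induction with
  | grade0 c =>
    rw [AlgHom.commutes, AlgHom.commutes]
    simp [Matrix.algebraMap_matrix_apply]
  | grade1 y =>
    rw [mat, FreeAlgebra.lift_ι_apply, eps_ι]
    simp
  | mul a b ha hb =>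
    obtain ⟨ha1, ha2, ha3⟩ := ha
    obtain ⟨hb1, hb2, hb3⟩ := hb
    rw [map_mul, map_mul]
    simp only [Matrix.mul_apply, Fin.sum_univ_two, ha1, ha2, ha3, hb1, hb2, hb3, map_mul, mul_zero,
      add_zero, zero_mul, zero_add, and_self]
  | add a b ha hb =>
    obtain ⟨ha1, ha2, ha3⟩ := ha
    obtain ⟨hb1, hb2, hb3⟩ := hb
    rw [map_add, map_add]
    simp only [Matrix.add_apply, ha1, ha2, ha3, hb1, hb2, hb3, map_add, add_zero, and_self]

/-- The left derivative: removal of an initial letter. -/
noncomputable def der (x : X) : FreeAlgebra k X →ₗ[k] FreeAlgebra k X where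
  toFun a := mat x a 0 1
  map_add' a b := by rw [map_add, Matrix.add_apply]
  map_smul' c a := by rw [map_smul, Matrix.smul_apply, RingHom.id_apply]

lemma der_apply (x : X) (a : FreeAlgebra k X) : der x a = mat x a 0 1 := rfl

lemma der_ι (x y : X) : der x (ι k y) = if y = x then 1 else 0 := by
  rw [der_apply, mat, FreeAlgebra.lift_ι_apply]
  simp

lemma der_algebraMap (x : X) (c : k) : der x (algebraMap k (FreeAlgebra k X) c) = 0 := by
  rw [der_apply, AlgHom.commutes]
  simp [Matrix.algebraMap_matrix_apply]

lemma der_mul (x : X) (a b : FreeAlgebra k X) :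
    der x (a * b) = eps a • der x b + der x a * b := by
  rw [der_apply, map_mul, Matrix.mul_apply, Fin.sum_univ_two, (mat_entries x a).1,
    (mat_entries x b).2.2, Algebra.smul_def]
  rfl

lemma decomp [Fintype X] (a : FreeAlgebra k X) :
    a = algebraMap k _ (eps a) + ∑ x, ι k x * der x a := by
  induction a using FreeAlgebra.induction with
  | grade0 c =>
    rw [AlgHom.commutes]
    simp [der_algebraMap]
  | grade1 y =>
    rw [eps_ι]
    simp [der_ι]
  | mul a b ha hb =>
    have e1 : ∑ x, ι k x * der x (a * b) =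
        eps a • ∑ x, ι k x * der x b + (∑ x, ι k x * der x a) * b := by
      rw [Finset.smul_sum, Finset.sum_mul, ← Finset.sum_add_distrib]
      refine Finset.sum_congr rfl fun x _ => ?_
      rw [der_mul, mul_add, mul_smul_comm, mul_assoc]
    have e2 : (∑ x, ι k x * der x a) * b = a * b - algebraMap k _ (eps a) * b := by
      rw [← sub_mul]
      congr 1
      rw [eq_sub_iff_add_eq, add_comm]
      exact ha.symm
    have e3 : eps a • ∑ x, ι k x * der x b =
        algebraMap k _ (eps a) * b - algebraMap k _ (eps a) * algebraMap k _ (eps b) := by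
      rw [Algebra.smul_def, ← mul_sub]
      congr 1
      rw [eq_sub_iff_add_eq, add_comm]
      exact hb.symm
    rw [e1, e2, e3, map_mul, map_mul]
    abel
  | add a b ha hb =>
    have e1 : ∑ x, ι k x * der x (a + b) = ∑ x, ι k x * der x a + ∑ x, ι k x * der x b := by
      rw [← Finset.sum_add_distrib]
      refine Finset.sum_congr rfl fun x _ => ?_
      rw [map_add, mul_add]
    rw [e1, map_add, map_add]
    conv_lhs => rw [ha, hb]
    abel

end derivative

end Pool.Agent.H84.LieHom.FA
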