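import Mathlib
import Pool.Agent.H84.LieHom.FreeAlg

/-!
The filtration of a free associative algebra by length, and the weak algorithm for homogeneous
elements.
-/

set_option autoImplicit false

namespace Pool.Agent.H84.LieHom.FA

open FreeAlgebra

variable {k X : Type*} [Field k]

variable (k X) in
/-- The span of the generators. -/
noncomputable def V : Submodule k (FreeAlgebra k X) := Submodule.span k (Set.range (ι k))

variable (k X) in
/-- The span of one and the generators. -/
noncomputable def U : Submodule k (FreeAlgebra k X) := 1 ⊔ V k X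

lemma U_pow_mono {m n : ℕ} (h : m ≤ n) : U k X ^ m ≤ U k X ^ n := by
  induction n with
  | zero => rw [Nat.le_zero.1 h]
  | succ n ih =>
    rcases Nat.lt_or_ge n m with h1 | h1
    · rw [show m = n + 1 by omega]
    · refine (ih h1).trans ?_
      rw [pow_succ]
      calc U k X ^ n = U k X ^ n * 1 := (mul_one _).symm
        _ ≤ U k X ^ n * U k X := mul_le_mul' le_rfl le_sup_left

lemma algebraMap_mem_U (n : ℕ) (c : k) : algebraMap k (FreeAlgebra k X) c ∈ U k X ^ n := by
  refine U_pow_mono (Nat.zero_le n) ?_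
  rw [pow_zero]
  exact Submodule.mem_one.2 ⟨c, rfl⟩

lemma exists_mem_U (a : FreeAlgebra k X) : ∃ n, a ∈ U k X ^ n := by
  induction a using FreeAlgebra.induction with
  | grade0 c => exact ⟨0, algebraMap_mem_U 0 c⟩
  | grade1 x =>
    refine ⟨1, ?_⟩
    rw [pow_one]
    exact (le_sup_right : V k X ≤ U k X) (Submodule.subset_span ⟨x, rfl⟩)
  | mul a b ha hb =>
    obtain ⟨m, hm⟩ := ha
    obtain ⟨n, hn⟩ := hb
    exact ⟨m + n, by rw [pow_add]; exact Submodule.mul_mem_mul hm hn⟩
  | add a b ha hb =>
    obtain ⟨m, hm⟩ := ha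
    obtain ⟨n, hn⟩ := hb
    exact ⟨max m n, add_mem (U_pow_mono (le_max_left _ _) hm) (U_pow_mono (le_max_right _ _) hn)⟩

lemma exists_mem_U_family {J : Type*} [Fintype J] (b : J → FreeAlgebra k X) :
    ∃ n, ∀ j, b j ∈ U k X ^ n := by
  choose f hf using fun j => exists_mem_U (b j)
  exact ⟨Finset.univ.sup f, fun j => U_pow_mono (Finset.le_sup (Finset.mem_univ j)) (hf j)⟩

/-- Right decomposition. -/
lemma right_decomp [Fintype X] (n : ℕ) (a : FreeAlgebra k X) (ha : a ∈ U k X ^ (n + 1)) :
    ∃ (c : k) (w : X → FreeAlgebra k X), (∀ x, w x ∈ U k X ^ n) ∧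
      a = algebraMap k _ c + ∑ x, w x * ι k x := by
  classical
  induction n generalizing a with
  | zero =>
    rw [zero_add, pow_one, U] at ha
    obtain ⟨c, hc, v, hv, rfl⟩ := Submodule.mem_sup.1 ha
    obtain ⟨c, rfl⟩ := Submodule.mem_one.1 hc
    obtain ⟨g, rfl⟩ := (Submodule.mem_span_range_iff_exists_fun k).1 hv
    refine ⟨c, fun x => algebraMap k _ (g x), fun x => algebraMap_mem_U 0 _, ?_⟩
    simp only [Algebra.smul_def]
  | succ n ih =>
    rw [pow_succ] at ha
    induction ha using Submodule.mul_induction_on' with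
    | mem_mul_mem b hb u hu =>
      rw [U] at hu
      obtain ⟨c, hc, v, hv, rfl⟩ := Submodule.mem_sup.1 hu
      obtain ⟨c, rfl⟩ := Submodule.mem_one.1 hc
      obtain ⟨g, rfl⟩ := (Submodule.mem_span_range_iff_exists_fun k).1 hv
      obtain ⟨c', w, hw, hb'⟩ := ih b hb
      refine ⟨c * c', fun x => c • w x + g x • b, fun x => ?_, ?_⟩
      · exact add_mem (Submodule.smul_mem _ _ (U_pow_mono (Nat.le_succ n) (hw x)))
          (Submodule.smul_mem _ _ hb)
      · have e1 : b * algebraMap k _ c = algebraMap k _ (c * c') + ∑ x, c • w x * ι k x := by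
          rw [← Algebra.commutes, ← Algebra.smul_def]
          conv_lhs => rw [hb']
          rw [smul_add, Finset.smul_sum, Algebra.smul_def, map_mul]
          congr 1
          refine Finset.sum_congr rfl fun x _ => ?_
          rw [smul_mul_assoc]
        rw [mul_add, e1, Finset.mul_sum, add_assoc, ← Finset.sum_add_distrib]
        congr 1
        refine Finset.sum_congr rfl fun x _ => ?_
        rw [add_mul, mul_smul_comm, smul_mul_assoc, smul_mul_assoc]
    | add a b _ _ ha hb =>
      obtain ⟨c, w, hw, rfl⟩ := ha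
      obtain ⟨c', w', hw', rfl⟩ := hb
      refine ⟨c + c', fun x => w x + w' x, fun x => add_mem (hw x) (hw' x), ?_⟩
      rw [map_add]
      simp only [add_mul, Finset.sum_add_distrib]
      abel

section

variable [DecidableEq X]

lemma der_mem_one (x : X) {u : FreeAlgebra k X} (hu : u ∈ U k X) : der x u ∈ (1 : Submodule k (FreeAlgebra k X)) := by
  rw [U] at hu
  obtain ⟨c, hc, v, hv, rfl⟩ := Submodule.mem_sup.1 hu
  obtain ⟨c, rfl⟩ := Submodule.mem_one.1 hc
  rw [map_add, der_algebraMap, zero_add]
  rw [V] at hv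
  clear hu
  induction hv using Submodule.span_induction with
  | mem v hv =>
    obtain ⟨y, rfl⟩ := hv
    rw [der_ι]
    split_ifs
    · exact Submodule.mem_one.2 ⟨1, map_one _⟩
    · exact zero_mem _
  | zero => rw [map_zero]; exact zero_mem _
  | add a b _ _ ha hb => rw [map_add]; exact add_mem ha hb
  | smul c a _ ha => rw [map_smul]; exact Submodule.smul_mem _ _ ha

lemma der_mem (x : X) (n : ℕ) {a : FreeAlgebra k X} (ha : a ∈ U k X ^ (n + 1)) :
    der x a ∈ U k X ^ n := by
  induction n generalizing a with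
  | zero =>
    rw [zero_add, pow_one] at ha
    rw [pow_zero]
    exact der_mem_one x ha
  | succ n ih =>
    rw [pow_succ'] at ha
    induction ha using Submodule.mul_induction_on' with
    | mem_mul_mem u hu b hb =>
      rw [der_mul]
      refine add_mem (Submodule.smul_mem _ _ (U_pow_mono (Nat.le_succ n) (ih hb))) ?_
      have h1 : der x u * b ∈ (1 : Submodule k (FreeAlgebra k X)) * U k X ^ (n + 1) :=
        Submodule.mul_mem_mul (der_mem_one x hu) hb
      rwa [one_mul] at h1
    | add a b _ _ ha hb => rw [map_add]; exact add_mem ha hb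

/-- Every nontrivial left relation yields one with a coefficient with nonzero constant term. -/
lemma weak_step [Fintype X] {J : Type*} [Fintype J] (a : J → FreeAlgebra k X) (n : ℕ) :
    ∀ b : J → FreeAlgebra k X, (∀ j, b j ∈ U k X ^ n) → ∑ j, b j * a j = 0 → (∃ j, b j ≠ 0) →
      ∃ b' : J → FreeAlgebra k X, ∑ j, b' j * a j = 0 ∧ ∃ j, eps (b' j) ≠ 0 := by
  induction n with
  | zero =>
    rintro b hb h ⟨j, hj⟩
    refine ⟨b, h, j, ?_⟩
    have h1 := hb j
    rw [pow_zero] at h1
    obtain ⟨c, hc⟩ := Submodule.mem_one.1 h1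
    intro h0
    rw [← hc, AlgHom.commutes] at h0
    have h2 : c = 0 := h0
    exact hj (by rw [← hc, h2, map_zero])
  | succ n ih =>
    rintro b hb h ⟨j, hj⟩
    by_cases hex : ∃ j, eps (b j) ≠ 0
    · exact ⟨b, h, hex⟩
    push Not at hex
    obtain ⟨x, hx⟩ : ∃ x, der x (b j) ≠ 0 := by
      by_contra hcon
      push Not at hcon
      apply hj
      rw [decomp (b j), hex j, map_zero, zero_add]
      exact Finset.sum_eq_zero fun x _ => by rw [hcon, mul_zero]
    refine ih (fun j => der x (b j)) (fun j => der_mem x n (hb j)) ?_ ⟨j, hx⟩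
    have h1 := congrArg (der x) h
    rw [map_sum, map_zero] at h1
    rw [← h1]
    refine Finset.sum_congr rfl fun j _ => ?_
    rw [der_mul, hex, zero_smul, zero_add]

end

/-- Homogeneous elements. -/
def Homog (d : X → ℕ) (n : ℕ) (a : FreeAlgebra k X) : Prop :=
  ∀ m, comp d m a = if m = n then a else 0

lemma homog_comp (d : X → ℕ) (n : ℕ) (a : FreeAlgebra k X) : Homog d n (comp d n a) :=
  fun m => comp_comp d m n a

lemma homog_zero (d : X → ℕ) (n : ℕ) : Homog d n (0 : FreeAlgebra k X) := by
  intro m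
  rw [map_zero]
  split_ifs <;> rfl

lemma comp_zero_eq (d : X → ℕ) (hd : ∀ x, 0 < d x) (a : FreeAlgebra k X) :
    comp d 0 a = algebraMap k _ (eps a) := by
  induction a using FreeAlgebra.induction with
  | grade0 c => rw [comp_algebraMap, if_pos rfl, AlgHom.commutes]; rfl
  | grade1 x => rw [comp_ι, if_neg (hd x).ne', eps_ι, map_zero]
  | mul a b ha hb =>
    rw [comp_mul]
    simp only [Finset.HasAntidiagonal.antidiagonal_zero, Finset.sum_singleton, ha, hb, map_mul]
  | add a b ha hb => rw [map_add, ha, hb, map_add, map_add]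

lemma comp_mul_homog (d : X → ℕ) {n : ℕ} {a : FreeAlgebra k X} (ha : Homog d n a)
    (b : FreeAlgebra k X) (m : ℕ) : comp d m (b * a) = if n ≤ m then comp d (m - n) b * a else 0 := by
  rw [comp_mul]
  split_ifs with h
  · rw [Finset.sum_eq_single (m - n, n)]
    · rw [ha, if_pos rfl]
    · intro p hp hpn
      have hp' := Finset.HasAntidiagonal.mem_antidiagonal.1 hp
      rw [ha, if_neg, mul_zero]
      intro h1
      exact hpn (Prod.ext (by change p.1 = m - n; omega) h1)
    · intro h1
      exact absurd (Finset.HasAntidiagonal.mem_antidiagonal.2 (by change m - n + n = m; omega)) h1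
  · refine Finset.sum_eq_zero fun p hp => ?_
    have hp' := Finset.HasAntidiagonal.mem_antidiagonal.1 hp
    rw [ha, if_neg (by omega), mul_zero]

/-- The weak algorithm for homogeneous elements: in a left dependent family of homogeneous
elements, one of the elements is a left combination of the others. -/
theorem weak_algorithm [Fintype X] {J : Type*} [Fintype J] [DecidableEq J] (d : X → ℕ)
    (hd : ∀ x, 0 < d x) (a : J → FreeAlgebra k X) (e : J → ℕ) (ha : ∀ j, Homog d (e j) (a j))
    (b : J → FreeAlgebra k X) (hb : ∑ j, b j * a j = 0) (hne : ∃ j, b j ≠ 0) :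
    ∃ (i : J) (c : J → FreeAlgebra k X), a i = ∑ j ∈ Finset.univ.erase i, c j * a j := by
  classical
  obtain ⟨n, hn⟩ := exists_mem_U_family b
  obtain ⟨b', hb', i, hi⟩ := weak_step a n b hn hb hne
  have h1 := congrArg (comp d (e i)) hb'
  rw [map_sum, map_zero, ← Finset.add_sum_erase _ _ (Finset.mem_univ i)] at h1
  rw [comp_mul_homog d (ha i), if_pos le_rfl, Nat.sub_self, comp_zero_eq d hd,
    ← Algebra.smul_def] at h1
  have h2 : ∀ j, ∃ c, comp d (e i) (b' j * a j) = c * a j := by
    intro j
    rw [comp_mul_homog d (ha j)]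
    split_ifs
    · exact ⟨_, rfl⟩
    · exact ⟨0, (zero_mul _).symm⟩
  choose c hc using h2
  refine ⟨i, fun j => -((eps (b' i))⁻¹ • c j), ?_⟩
  have h3 : a i = -((eps (b' i))⁻¹ • ∑ j ∈ Finset.univ.erase i, comp d (e i) (b' j * a j)) := by
    rw [eq_neg_iff_add_eq_zero]
    have h4 := congrArg (fun t => (eps (b' i))⁻¹ • t) h1
    simp only [smul_add, smul_zero, smul_smul, inv_mul_cancel₀ hi, one_smul] at h4
    exact h4
  rw [h3, Finset.smul_sum, ← Finset.sum_neg_distrib]
  refine Finset.sum_congr rfl fun j _ => ?_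
  rw [hc, neg_mul, smul_mul_assoc]

end Pool.Agent.H84.LieHom.FA
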