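import Mathlib
import Pool.Agent.H84.LieHom.PBW
import Pool.Agent.H84.LieHom.Weak
import Pool.Agent.H84.LieHom.Magnus

/-!
The free Lie algebra inside the free associative algebra; homogeneous elements of the free Lie
algebra none of which lies in the subalgebra generated by the others are free generators.
-/

set_option autoImplicit false

namespace Pool.Agent.H84.LieHom.FA

open FreeAlgebra

variable {k X : Type*} [Field k]

attribute [local instance 100] LieRing.ofAssociativeRing

/-- The embedding of the free Lie algebra into the free associative algebra. -/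
noncomputable def emb : FreeLieAlgebra k X →ₗ[k] FreeAlgebra k X :=
  (FreeLieAlgebra.lift k (FreeAlgebra.ι k) : FreeLieAlgebra k X →ₗ⁅k⁆ FreeAlgebra k X)

lemma emb_of (x : X) : emb (FreeLieAlgebra.of k x) = ι k x :=
  FreeLieAlgebra.lift_of_apply _ _

lemma emb_lie (a b : FreeLieAlgebra k X) : emb ⁅a, b⁆ = emb a * emb b - emb b * emb a := by
  have h := _root_.LieHom.map_lie
    (FreeLieAlgebra.lift k (FreeAlgebra.ι k) : FreeLieAlgebra k X →ₗ⁅k⁆ FreeAlgebra k X) a b
  rw [LieRing.of_associative_ring_bracket] at h
  exact h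

/-- The associative extension of a homomorphism. -/
lemma emb_lift {Y : Type*} (v : X → FreeLieAlgebra k Y) (l : FreeLieAlgebra k X) :
    emb (FreeLieAlgebra.lift k v l) = FreeAlgebra.lift k (fun x => emb (v x)) (emb l) := by
  refine generators_induction (lieSpan_range_of k X)
    (fun l => emb (FreeLieAlgebra.lift k v l) = FreeAlgebra.lift k (fun x => emb (v x)) (emb l))
    ?_ ?_ ?_ ?_ ?_ l
  · simp
  · intro x
    rw [FreeLieAlgebra.lift_of_apply, emb_of, FreeAlgebra.lift_ι_apply]
  · intro a b ha hb
    rw [map_add, map_add, map_add, map_add, ha, hb]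
  · intro c a ha
    rw [map_smul, map_smul, map_smul, map_smul, ha]
  · intro a b ha hb
    rw [_root_.LieHom.map_lie, emb_lie, emb_lie, ha, hb, map_sub, map_mul, map_mul]

lemma emb_hom {Y : Type*} (h : FreeLieAlgebra k X →ₗ⁅k⁆ FreeLieAlgebra k Y)
    (l : FreeLieAlgebra k X) :
    emb (h l) = FreeAlgebra.lift k (fun x => emb (h (FreeLieAlgebra.of k x))) (emb l) := by
  have h1 : h = FreeLieAlgebra.lift k (fun x => h (FreeLieAlgebra.of k x)) :=
    (FreeLieAlgebra.lift_comp_of h).symm
  conv_lhs => rw [h1]
  exact emb_lift _ l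

lemma eps_emb (l : FreeLieAlgebra k X) : eps (emb l) = 0 := by
  refine generators_induction (lieSpan_range_of k X) (fun l => eps (emb l) = 0) ?_ ?_ ?_ ?_ ?_ l
  · simp
  · intro x; rw [emb_of, eps_ι]
  · intro a b ha hb; rw [map_add, map_add, ha, hb, add_zero]
  · intro c a ha; rw [map_smul, map_smul, ha, smul_zero]
  · intro a b _ _; rw [emb_lie, map_sub, map_mul, map_mul, mul_comm, sub_self]

/-- A Lie element in the left ideal generated by a Lie subalgebra lies in the subalgebra. -/
theorem mem_of_left_ideal (H : LieSubalgebra k (FreeLieAlgebra k X)) {J : Type*} (s : Finset J)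
    (c : J → FreeAlgebra k X) (h : J → FreeLieAlgebra k X) (hh : ∀ j ∈ s, h j ∈ H)
    (l : FreeLieAlgebra k X) (hl : emb l = ∑ j ∈ s, c j * emb (h j)) : l ∈ H := by
  obtain ⟨Λ, ρ, W, v, hρ, hW, hv⟩ := PBW.exists_module H
  let R : FreeAlgebra k X →ₐ[k] Module.End k (Multiset Λ →₀ k) :=
    FreeAlgebra.lift k fun x => ρ (FreeLieAlgebra.of k x)
  have hR : ∀ l, R (emb l) = ρ l := by
    intro l
    refine generators_induction (lieSpan_range_of k X) (fun l => R (emb l) = ρ l) ?_ ?_ ?_ ?_ ?_ l
    · simp
    · intro x; rw [emb_of]; exact FreeAlgebra.lift_ι_apply _ _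
    · intro a b ha hb; rw [map_add, map_add, map_add, ha, hb]
    · intro c a ha; rw [map_smul, map_smul, map_smul, ha]
    · intro a b ha hb
      rw [emb_lie, map_sub, map_mul, map_mul, ha, hb]
      refine LinearMap.ext fun w => ?_
      rw [hρ]
      rfl
  have hRW : ∀ a : FreeAlgebra k X, ∀ w ∈ W, R a w ∈ W := by
    intro a
    induction a using FreeAlgebra.induction with
    | grade0 c =>
      intro w hw
      rw [AlgHom.commutes, Module.algebraMap_end_apply]
      exact W.smul_mem c hw
    | grade1 x =>
      intro w hw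
      have h1 : R (ι k x) = ρ (FreeLieAlgebra.of k x) := FreeAlgebra.lift_ι_apply _ _
      rw [h1]
      exact hW _ w hw
    | mul a b ha hb =>
      intro w hw
      rw [map_mul]
      exact ha _ (hb w hw)
    | add a b ha hb =>
      intro w hw
      rw [map_add]
      exact add_mem (ha w hw) (hb w hw)
  rw [← hv, ← hR, hl, map_sum, LinearMap.sum_apply]
  refine sum_mem fun j hj => ?_
  rw [map_mul]
  refine hRW _ _ ?_
  rw [hR, hv]
  exact hh j hj

lemma emb_injective : Function.Injective (emb (k := k) (X := X)) := by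
  rw [injective_iff_map_eq_zero]
  intro l hl
  have h := mem_of_left_ideal (⊥ : LieSubalgebra k (FreeLieAlgebra k X)) (∅ : Finset ℕ)
    (fun _ => 0) (fun _ => 0) (by simp) l (by simpa using hl)
  exact (LieSubalgebra.mem_bot l).1 h

/-- Homogeneous elements, none of which lies in the subalgebra generated by the others, are left
independent. -/
theorem left_independent [Fintype X] {J : Type*} [Fintype J] (d : X → ℕ) (hd : ∀ x, 0 < d x)
    (v : J → FreeLieAlgebra k X) (e : J → ℕ) (hv : ∀ j, Homog d (e j) (emb (v j)))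
    (hind : ∀ j, v j ∉ LieSubalgebra.lieSpan k (FreeLieAlgebra k X) (v '' {i | i ≠ j}))
    (b : J → FreeAlgebra k X) (hb : ∑ j, b j * emb (v j) = 0) : ∀ j, b j = 0 := by
  classical
  by_contra hcon
  push Not at hcon
  obtain ⟨i, c, hi⟩ := weak_algorithm d hd (fun j => emb (v j)) e hv b hb hcon
  exact hind i (mem_of_left_ideal
    (LieSubalgebra.lieSpan k (FreeLieAlgebra k X) (v '' {j | j ≠ i})) (Finset.univ.erase i) c v
    (fun j hj => LieSubalgebra.subset_lieSpan ⟨j, Finset.ne_of_mem_erase hj, rfl⟩) _ hi)

/-- Such elements generate a free associative algebra. -/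
theorem free_of_independent [Fintype X] {J : Type*} [Fintype J] (d : X → ℕ) (hd : ∀ x, 0 < d x)
    (v : J → FreeLieAlgebra k X) (e : J → ℕ) (hv : ∀ j, Homog d (e j) (emb (v j)))
    (hind : ∀ j, v j ∉ LieSubalgebra.lieSpan k (FreeLieAlgebra k X) (v '' {i | i ≠ j})) :
    Function.Injective (FreeAlgebra.lift k (fun j => emb (v j))) := by
  rw [injective_iff_map_eq_zero]
  have key : ∀ n, ∀ w ∈ U k J ^ n, FreeAlgebra.lift k (fun j => emb (v j)) w = 0 → w = 0 := by
    intro n
    induction n with
    | zero =>
      intro w hw h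
      rw [pow_zero] at hw
      obtain ⟨c, rfl⟩ := Submodule.mem_one.1 hw
      rw [AlgHom.commutes] at h
      have h1 := congrArg eps h
      rw [AlgHom.commutes, map_zero] at h1
      have h2 : c = 0 := h1
      rw [h2, map_zero]
    | succ n ih =>
      intro w hw h
      obtain ⟨c, u, hu, rfl⟩ := right_decomp n w hw
      rw [map_add, AlgHom.commutes, map_sum] at h
      simp only [map_mul, FreeAlgebra.lift_ι_apply] at h
      have h1 := congrArg eps h
      rw [map_add, AlgHom.commutes, map_sum, map_zero] at h1
      simp only [map_mul, eps_emb, mul_zero, Finset.sum_const_zero, add_zero] at h1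
      have h2 : c = 0 := h1
      rw [h2, map_zero, zero_add] at h ⊢
      have h3 := left_independent d hd v e hv hind _ h
      refine Finset.sum_eq_zero fun j _ => ?_
      rw [ih (u j) (hu j) (h3 j), zero_mul]
  intro w hw
  obtain ⟨n, hn⟩ := exists_mem_U w
  exact key n w hn hw

/-- Components of elements of the subalgebra generated by a set of generators: the component of
degree `n` lies in the subalgebra generated by the generators of degree at most `n`. -/
lemma comp_mem (d : X → ℕ) (Y : Set X) (l : FreeLieAlgebra k X)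
    (hl : l ∈ LieSubalgebra.lieSpan k (FreeLieAlgebra k X) (FreeLieAlgebra.of k '' Y)) (n : ℕ) :
    ∃ l' ∈ LieSubalgebra.lieSpan k (FreeLieAlgebra k X) (FreeLieAlgebra.of k '' {x ∈ Y | d x ≤ n}),
      emb l' = comp d n (emb l) := by
  classical
  set K : ℕ → LieSubalgebra k (FreeLieAlgebra k X) := fun n =>
    LieSubalgebra.lieSpan k (FreeLieAlgebra k X) (FreeLieAlgebra.of k '' {x ∈ Y | d x ≤ n}) with hK
  have hmono : ∀ {m n : ℕ}, m ≤ n → K m ≤ K n := by
    intro m n hmn
    refine LieSubalgebra.lieSpan_mono (Set.image_mono ?_)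
    rintro x ⟨hx, hx'⟩
    exact ⟨hx, hx'.trans hmn⟩
  let G : LieSubalgebra k (FreeLieAlgebra k X) :=
    { carrier := {l | ∀ n, ∃ l' ∈ K n, emb l' = comp d n (emb l)}
      add_mem' := by
        intro a b ha hb n
        obtain ⟨a', ha', ha⟩ := ha n
        obtain ⟨b', hb', hb⟩ := hb n
        exact ⟨a' + b', add_mem ha' hb', by rw [map_add, map_add, map_add, ha, hb]⟩
      zero_mem' := fun n => ⟨0, zero_mem _, by simp⟩
      smul_mem' := by
        intro c a ha n
        obtain ⟨a', ha', ha⟩ := ha n
        exact ⟨c • a', (K n).smul_mem c ha', by rw [map_smul, map_smul, map_smul, ha]⟩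
      lie_mem' := by
        intro a b ha hb n
        choose a' ha' ha using ha
        choose b' hb' hb using hb
        refine ⟨∑ p ∈ Finset.HasAntidiagonal.antidiagonal n, ⁅a' p.1, b' p.2⁆, ?_, ?_⟩
        · refine sum_mem fun p hp => ?_
          have hp' := Finset.HasAntidiagonal.mem_antidiagonal.1 hp
          exact (K n).lie_mem (hmono (by omega) (ha' p.1)) (hmono (by omega) (hb' p.2))
        · rw [map_sum, emb_lie, map_sub, comp_mul, comp_mul,
            ← Finset.sum_equiv (Equiv.prodComm ℕ ℕ) (g := fun p => comp d p.1 (emb b) * comp d p.2 (emb a))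
              (f := fun p => comp d p.2 (emb b) * comp d p.1 (emb a))
              (s := Finset.HasAntidiagonal.antidiagonal n)
              (t := Finset.HasAntidiagonal.antidiagonal n)
              (fun p => by
                rw [Finset.HasAntidiagonal.mem_antidiagonal,
                  Finset.HasAntidiagonal.mem_antidiagonal]
                simp only [Equiv.prodComm_apply, Prod.fst_swap, Prod.snd_swap]
                omega)
              (fun p _ => rfl), ← Finset.sum_sub_distrib]
          refine Finset.sum_congr rfl fun p _ => ?_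
          rw [emb_lie, ha, hb] }
  have h : LieSubalgebra.lieSpan k (FreeLieAlgebra k X) (FreeLieAlgebra.of k '' Y) ≤ G := by
    rw [LieSubalgebra.lieSpan_le]
    rintro _ ⟨x, hx, rfl⟩ n
    rw [emb_of, comp_ι]
    split_ifs with h
    · exact ⟨FreeLieAlgebra.of k x, LieSubalgebra.subset_lieSpan ⟨x, ⟨hx, h.le⟩, rfl⟩, emb_of x⟩
    · exact ⟨0, zero_mem _, map_zero _⟩
  exact h hl n

end Pool.Agent.H84.LieHom.FA
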