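import Mathlib
import Pool.Agent.H84.LieHom.Emb

/-!
Every injective endomorphism of a free Lie algebra of finite rank becomes reduced (the degree of
the value is the weighted degree of the argument) after composition with an automorphism.
-/

set_option autoImplicit false

namespace Pool.Agent.H84.LieHom.FA

open FreeAlgebra

variable {k X Y : Type*} [Field k]

lemma deg_algebraMap (d : X → ℕ) (c : k) : deg d (algebraMap k (FreeAlgebra k X) c) = 0 := by
  rw [← Nat.le_zero, deg_le_iff]
  intro m hm
  rw [comp_algebraMap, if_neg hm.ne']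

/-- Leading terms of the values of a substitution. -/
lemma lift_comp (d : Y → ℕ) (e : X → ℕ) (b : X → FreeAlgebra k Y) (hb : ∀ x, deg d (b x) ≤ e x)
    (w : FreeAlgebra k X) (n : ℕ) :
    deg d (FreeAlgebra.lift k b (comp e n w)) ≤ n ∧
      comp d n (FreeAlgebra.lift k b (comp e n w)) =
        FreeAlgebra.lift k (fun x => comp d (e x) (b x)) (comp e n w) := by
  induction w using FreeAlgebra.induction generalizing n with
  | grade0 c =>
    rw [comp_algebraMap]
    split_ifs with h
    · subst h
      rw [AlgHom.commutes, AlgHom.commutes, deg_algebraMap, comp_algebraMap, if_pos rfl]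
      exact ⟨le_rfl, rfl⟩
    · rw [map_zero, map_zero, deg_zero, map_zero]
      exact ⟨Nat.zero_le _, rfl⟩
  | grade1 x =>
    rw [comp_ι]
    split_ifs with h
    · subst h
      rw [FreeAlgebra.lift_ι_apply, FreeAlgebra.lift_ι_apply]
      exact ⟨hb x, rfl⟩
    · rw [map_zero, map_zero, deg_zero, map_zero]
      exact ⟨Nat.zero_le _, rfl⟩
  | mul u v hu hv =>
    rw [comp_mul, map_sum, map_sum, map_sum]
    constructor
    · rw [deg_le_iff]
      intro m hm
      rw [map_sum]
      refine Finset.sum_eq_zero fun p hp => ?_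
      have hp' := Finset.HasAntidiagonal.mem_antidiagonal.1 hp
      rw [map_mul]
      have h1 := (deg_mul_le d (FreeAlgebra.lift k b (comp e p.1 u))
        (FreeAlgebra.lift k b (comp e p.2 v))).trans (add_le_add (hu p.1).1 (hv p.2).1)
      rw [hp'] at h1
      exact (deg_le_iff d _ n).1 h1 m hm
    · refine Finset.sum_congr rfl fun p hp => ?_
      have hp' := Finset.HasAntidiagonal.mem_antidiagonal.1 hp
      rw [map_mul (FreeAlgebra.lift k b), map_mul (FreeAlgebra.lift k fun x => comp d (e x) (b x)),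
        ← (hu p.1).2, ← (hv p.2).2, ← comp_mul_top d (hu p.1).1 (hv p.2).1, hp']
  | add u v hu hv =>
    rw [map_add, map_add, map_add, map_add, (hu n).2, (hv n).2]
    exact ⟨deg_add_le d (hu n).1 (hv n).1, rfl⟩

/-- Substitution of homogeneous elements is a graded homomorphism. -/
lemma lift_homog (d : Y → ℕ) (e : X → ℕ) (a : X → FreeAlgebra k Y) (ha : ∀ x, Homog d (e x) (a x))
    (w : FreeAlgebra k X) (n : ℕ) :
    FreeAlgebra.lift k a (comp e n w) = comp d n (FreeAlgebra.lift k a w) := by
  induction w using FreeAlgebra.induction generalizing n with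
  | grade0 c =>
    rw [comp_algebraMap, AlgHom.commutes, comp_algebraMap]
    split_ifs
    · rw [AlgHom.commutes]
    · rw [map_zero]
  | grade1 x =>
    rw [comp_ι, FreeAlgebra.lift_ι_apply, ha]
    by_cases h : e x = n
    · rw [if_pos h, if_pos h.symm, FreeAlgebra.lift_ι_apply]
    · rw [if_neg h, if_neg (fun h' => h h'.symm), map_zero]
  | mul u v hu hv =>
    rw [comp_mul, map_sum, map_mul, comp_mul]
    refine Finset.sum_congr rfl fun p _ => ?_
    rw [map_mul, hu, hv]
  | add u v hu hv => rw [map_add, map_add, hu, hv, map_add, map_add]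

lemma deg_lift_le (d : Y → ℕ) (e : X → ℕ) (b : X → FreeAlgebra k Y) (hb : ∀ x, deg d (b x) ≤ e x)
    (w : FreeAlgebra k X) (n : ℕ) (hw : deg e w ≤ n) :
    deg d (FreeAlgebra.lift k b w) ≤ n ∧
      comp d n (FreeAlgebra.lift k b w) =
        FreeAlgebra.lift k (fun x => comp d (e x) (b x)) (comp e n w) := by
  have h1 : FreeAlgebra.lift k b w =
      ∑ i ∈ Finset.range (n + 1), FreeAlgebra.lift k b (comp e i w) := by
    rw [← map_sum, sum_comp e w n hw]
  constructor
  · rw [h1, deg_le_iff]
    intro m hm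
    rw [map_sum]
    refine Finset.sum_eq_zero fun i hi => ?_
    have hi' : i ≤ n := Nat.lt_succ_iff.1 (Finset.mem_range.1 hi)
    exact (deg_le_iff d _ i).1 (lift_comp d e b hb w i).1 m (lt_of_le_of_lt hi' hm)
  · rw [h1, map_sum, Finset.sum_range_succ, (lift_comp d e b hb w n).2,
      Finset.sum_eq_zero, zero_add]
    intro i hi
    exact (deg_le_iff d _ i).1 (lift_comp d e b hb w i).1 n (Finset.mem_range.1 hi)

/-- If the leading terms are free generators, then the degree of the value is the weighted degree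
of the argument. -/
lemma deg_le_of_free (d : Y → ℕ) (e : X → ℕ) (b : X → FreeAlgebra k Y)
    (hb : ∀ x, deg d (b x) ≤ e x)
    (hfree : Function.Injective (FreeAlgebra.lift k (fun x => comp d (e x) (b x))))
    (w : FreeAlgebra k X) (n : ℕ) (hw : deg d (FreeAlgebra.lift k b w) ≤ n) : deg e w ≤ n := by
  by_contra hcon
  push Not at hcon
  have hw0 : w ≠ 0 := by
    rintro rfl
    rw [deg_zero] at hcon
    exact Nat.not_lt_zero _ hcon
  have h1 := (deg_lift_le d e b hb w (deg e w) le_rfl).2
  rw [(deg_le_iff d _ n).1 hw _ hcon] at h1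
  have h2 := hfree (h1.symm.trans (map_zero _).symm)
  exact comp_deg_ne_zero e hw0 h2

/-- Elementary automorphisms. -/
lemma exists_elementary [DecidableEq X] (j : X) (q : FreeLieAlgebra k X)
    (hq : q ∈ LieSubalgebra.lieSpan k (FreeLieAlgebra k X) (FreeLieAlgebra.of k '' {i | i ≠ j})) :
    ∃ β : FreeLieAlgebra k X ≃ₗ⁅k⁆ FreeLieAlgebra k X,
      β (FreeLieAlgebra.of k j) = FreeLieAlgebra.of k j - q ∧
      ∀ i, i ≠ j → β (FreeLieAlgebra.of k i) = FreeLieAlgebra.of k i := by
  let B : FreeLieAlgebra k X → (FreeLieAlgebra k X →ₗ⁅k⁆ FreeLieAlgebra k X) := fun p =>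
    FreeLieAlgebra.lift k (Function.update (FreeLieAlgebra.of k) j (FreeLieAlgebra.of k j + p))
  have hBj : ∀ p, B p (FreeLieAlgebra.of k j) = FreeLieAlgebra.of k j + p := fun p => by
    simp only [B]
    rw [FreeLieAlgebra.lift_of_apply, Function.update_self]
  have hBi : ∀ p, ∀ i, i ≠ j → B p (FreeLieAlgebra.of k i) = FreeLieAlgebra.of k i :=
    fun p i hi => by
      simp only [B]
      rw [FreeLieAlgebra.lift_of_apply, Function.update_of_ne hi]
  have hBq : ∀ p, B p q = q := by
    intro p
    let G : LieSubalgebra k (FreeLieAlgebra k X) :=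
      { LinearMap.eqLocus (B p : FreeLieAlgebra k X →ₗ[k] FreeLieAlgebra k X)
          (LinearMap.id) with
        lie_mem' := fun {a b} ha hb => by
          have ha' : B p a = a := ha
          have hb' : B p b = b := hb
          change B p ⁅a, b⁆ = ⁅a, b⁆
          rw [_root_.LieHom.map_lie, ha', hb'] }
    have hG : LieSubalgebra.lieSpan k (FreeLieAlgebra k X) (FreeLieAlgebra.of k '' {i | i ≠ j}) ≤
        G := by
      rw [LieSubalgebra.lieSpan_le]
      rintro _ ⟨i, hi, rfl⟩
      exact hBi p i hi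
    exact hG hq
  have hcomp : ∀ p p' : FreeLieAlgebra k X, B p p' = p' → B p' p = p → p + p' = 0 →
      ∀ z, B p (B p' z) = z := by
    intro p p' h1 _ h3 z
    have h4 : (B p).comp (B p') = _root_.LieHom.id := by
      refine FreeLieAlgebra.hom_ext fun i => ?_
      rw [_root_.LieHom.comp_apply, _root_.LieHom.id_apply]
      by_cases hi : i = j
      · subst hi
        rw [hBj, map_add, hBj, h1, add_assoc, h3, add_zero]
      · rw [hBi p' i hi, hBi p i hi]
    exact _root_.LieHom.congr_fun h4 z
  have hBq' : ∀ p, B p (-q) = -q := fun p => by rw [map_neg, hBq]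
  let β : FreeLieAlgebra k X ≃ₗ⁅k⁆ FreeLieAlgebra k X :=
    LieEquiv.ofBijective (B (-q)) ⟨by
      refine Function.LeftInverse.injective (g := B q) fun z => ?_
      exact hcomp q (-q) (hBq' q) (hBq _) (add_neg_cancel q) z, by
      refine Function.RightInverse.surjective (g := B q) fun z => ?_
      exact hcomp (-q) q (hBq _) (hBq' q) (neg_add_cancel q) z⟩
  refine ⟨β, ?_, fun i hi => hBi (-q) i hi⟩
  change B (-q) (FreeLieAlgebra.of k j) = _
  rw [hBj, sub_eq_add_neg]

lemma exists_preimage_lieSpan (v : X → FreeLieAlgebra k Y) (s : Set X) {l : FreeLieAlgebra k Y}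
    (hl : l ∈ LieSubalgebra.lieSpan k (FreeLieAlgebra k Y) (v '' s)) :
    ∃ p ∈ LieSubalgebra.lieSpan k (FreeLieAlgebra k X) (FreeLieAlgebra.of k '' s),
      FreeLieAlgebra.lift k v p = l := by
  have h : LieSubalgebra.lieSpan k (FreeLieAlgebra k Y) (v '' s) ≤
      (LieSubalgebra.lieSpan k (FreeLieAlgebra k X) (FreeLieAlgebra.of k '' s)).map
        (FreeLieAlgebra.lift k v) := by
    rw [LieSubalgebra.lieSpan_le]
    rintro _ ⟨x, hx, rfl⟩
    exact ⟨FreeLieAlgebra.of k x, LieSubalgebra.subset_lieSpan ⟨x, hx, rfl⟩,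
      FreeLieAlgebra.lift_of_apply _ _⟩
  obtain ⟨p, hp, h1⟩ := h hl
  exact ⟨p, hp, h1⟩

variable (X) in
/-- The standard weights. -/
def one : X → ℕ := fun _ => 1

/-- The reduction theorem. -/
theorem exists_reduced [Fintype X] [DecidableEq X]
    (g : FreeLieAlgebra k X →ₗ⁅k⁆ FreeLieAlgebra k X) (hg : Function.Injective g) :
    ∃ α : FreeLieAlgebra k X ≃ₗ⁅k⁆ FreeLieAlgebra k X,
      Function.Injective (FreeAlgebra.lift k (fun x =>
        comp (one X) (deg (one X) (emb (g (α (FreeLieAlgebra.of k x)))))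
          (emb (g (α (FreeLieAlgebra.of k x)))))) := by
  let S : (FreeLieAlgebra k X ≃ₗ⁅k⁆ FreeLieAlgebra k X) → ℕ := fun α =>
    ∑ x, deg (one X) (emb (g (α (FreeLieAlgebra.of k x))))
  obtain ⟨α, hα⟩ : ∃ α, ∀ β, S α ≤ S β := by
    obtain ⟨α, hα⟩ := Nat.sInf_mem (s := Set.range S) ⟨_, LieEquiv.refl, rfl⟩
    exact ⟨α, fun β => by rw [hα]; exact Nat.sInf_le ⟨β, rfl⟩⟩
  refine ⟨α, ?_⟩
  set u : X → FreeLieAlgebra k X := fun x => g (α (FreeLieAlgebra.of k x)) with hu
  set e : X → ℕ := fun x => deg (one X) (emb (u x)) with he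
  have hone : ∀ x : X, 0 < one X x := fun _ => Nat.one_pos
  have htop : ∀ l : FreeLieAlgebra k X,
      l ∈ LieSubalgebra.lieSpan k (FreeLieAlgebra k X) (FreeLieAlgebra.of k '' Set.univ) := by
    intro l
    rw [Set.image_univ, lieSpan_range_of]
    exact LieSubalgebra.mem_top l
  have hv : ∀ x, ∃ v : FreeLieAlgebra k X, emb v = comp (one X) (e x) (emb (u x)) := by
    intro x
    obtain ⟨v, _, hv⟩ := comp_mem (one X) Set.univ (u x) (htop _) (e x)
    exact ⟨v, hv⟩
  choose v hv using hv
  have hhom : ∀ x, Homog (one X) (e x) (emb (v x)) := fun x => by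
    rw [hv]; exact homog_comp _ _ _
  have hfun : (fun x => emb (v x)) = fun x => comp (one X) (e x) (emb (u x)) := funext hv
  -- the degrees are positive
  have hepos : ∀ x, 0 < e x := by
    intro x
    rw [Nat.pos_iff_ne_zero]
    intro h0
    have h1 : u x ≠ 0 := by
      intro h
      have h2 : α (FreeLieAlgebra.of k x) = 0 := hg (h.trans (map_zero g).symm)
      have h3 : FreeLieAlgebra.of k x = 0 := by
        have h4 := congrArg α.symm h2
        rwa [LieEquiv.symm_apply_apply, map_zero] at h4
      have h5 := congrArg emb h3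
      rw [emb_of, map_zero] at h5
      have h6 := congrArg (der x) h5
      rw [der_ι, if_pos rfl, map_zero] at h6
      have h7 := congrArg eps h6
      rw [map_one, map_zero] at h7
      exact one_ne_zero h7
    have h2 : emb (u x) ≠ 0 := fun h => h1 (emb_injective (h.trans (map_zero emb).symm))
    have h3 := comp_deg_ne_zero (one X) h2
    change comp (one X) (e x) (emb (u x)) ≠ 0 at h3
    rw [h0, comp_zero_eq _ hone, eps_emb, map_zero] at h3
    exact h3 rfl
  rw [← hfun]
  refine free_of_independent (one X) hone v e hhom ?_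
  intro j hj
  -- a relation between leading terms allows a reduction
  obtain ⟨p, hp, hpj⟩ := exists_preimage_lieSpan v {i | i ≠ j} hj
  obtain ⟨q, hq, hqp⟩ := comp_mem e {i | i ≠ j} p hp (e j)
  have hq' : q ∈ LieSubalgebra.lieSpan k (FreeLieAlgebra k X)
      (FreeLieAlgebra.of k '' {i | i ≠ j}) :=
    LieSubalgebra.lieSpan_mono (Set.image_mono fun x hx => hx.1) hq
  obtain ⟨β, hβj, hβi⟩ := exists_elementary j q hq'
  have hlt : S (β.trans α) < S α := by
    have hval : ∀ x, (β.trans α) (FreeLieAlgebra.of k x) = α (β (FreeLieAlgebra.of k x)) :=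
      fun x => rfl
    refine Finset.sum_lt_sum (fun i _ => ?_) ⟨j, Finset.mem_univ j, ?_⟩
    · rw [hval]
      by_cases hij : i = j
      · subst hij
        rw [hβj, map_sub, map_sub, map_sub]
        -- degree at most `e i`
        have h1 : emb (g (α q)) = FreeAlgebra.lift k (fun x => emb (u x)) (emb q) :=
          emb_hom (g.comp (α : FreeLieAlgebra k X →ₗ⁅k⁆ FreeLieAlgebra k X)) q
        have h2 := (lift_comp (one X) e (fun x => emb (u x)) (fun x => le_rfl) (emb p) (e i)).1
        rw [← hqp, ← h1] at h2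
        rw [sub_eq_add_neg, ← neg_one_smul k (emb (g (α q)))]
        exact deg_add_le _ le_rfl (deg_smul_le _ _ h2)
      · rw [hβi i hij]
    · rw [hval, hβj, map_sub, map_sub, map_sub]
      have h1 : emb (g (α q)) = FreeAlgebra.lift k (fun x => emb (u x)) (emb q) :=
        emb_hom (g.comp (α : FreeLieAlgebra k X →ₗ⁅k⁆ FreeLieAlgebra k X)) q
      obtain ⟨h2, h3⟩ :=
        lift_comp (one X) e (fun x => emb (u x)) (fun x => le_rfl) (emb p) (e j)
      rw [← hqp, ← h1] at h2 h3
      have h4 : FreeAlgebra.lift k (fun x => comp (one X) (e x) (emb (u x))) (emb q) =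
          comp (one X) (e j) (emb (u j)) := by
        rw [← hfun, hqp, lift_homog (one X) e _ hhom, ← emb_lift, hpj, hhom, if_pos rfl, hv]
      rw [h4] at h3
      have h5 : deg (one X) (emb (u j) - emb (g (α q))) ≤ e j := by
        rw [sub_eq_add_neg, ← neg_one_smul k (emb (g (α q)))]
        exact deg_add_le _ le_rfl (deg_smul_le _ _ h2)
      have h6 : comp (one X) (e j) (emb (u j) - emb (g (α q))) = 0 := by
        rw [map_sub, h3, sub_self]
      refine lt_of_le_of_ne h5 ?_
      intro h7
      have h8 : emb (u j) - emb (g (α q)) = 0 := by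
        by_contra hne
        have h9 := comp_deg_ne_zero (one X) hne
        rw [h7] at h9
        exact h9 h6
      change deg (one X) (emb (u j) - emb (g (α q))) = e j at h7
      rw [h8, deg_zero] at h7
      exact (hepos j).ne h7
  exact absurd (hα (β.trans α)) (not_le.2 hlt)

end Pool.Agent.H84.LieHom.FA
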