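import Mathlib
import Pool.Agent.H84.LieHom.Reduce

/-!
The stable image of an injective endomorphism of a free Lie algebra of finite rank is a free
factor.
-/

set_option autoImplicit false

namespace Pool.Agent.H84.LieHom.FA

open FreeAlgebra

variable {k X : Type*} [Field k]

/-- The elements of degree at most `n`. -/
noncomputable def Ld (k X : Type*) [Field k] (n : ℕ) : Submodule k (FreeLieAlgebra k X) where
  carrier := {l | deg (one X) (emb l) ≤ n}
  add_mem' := by
    intro a b ha hb
    change deg (one X) (emb (a + b)) ≤ n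
    rw [map_add]
    exact deg_add_le _ ha hb
  zero_mem' := by
    change deg (one X) (emb 0) ≤ n
    rw [map_zero, deg_zero]
    exact Nat.zero_le _
  smul_mem' := by
    intro c a ha
    change deg (one X) (emb (c • a)) ≤ n
    rw [map_smul]
    exact deg_smul_le _ _ ha

lemma mem_Ld {n : ℕ} {l : FreeLieAlgebra k X} : l ∈ Ld k X n ↔ deg (one X) (emb l) ≤ n := Iff.rfl

lemma comp_one_mem (n : ℕ) (a : FreeAlgebra k X) : comp (one X) n a ∈ V k X ^ n := by
  induction a using FreeAlgebra.induction generalizing n with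
  | grade0 c =>
    rw [comp_algebraMap]
    split_ifs with h
    · subst h
      rw [pow_zero]
      exact Submodule.mem_one.2 ⟨c, rfl⟩
    · exact zero_mem _
  | grade1 x =>
    rw [comp_ι]
    split_ifs with h
    · subst h
      rw [one, pow_one]
      exact Submodule.subset_span ⟨x, rfl⟩
    · exact zero_mem _
  | mul a b ha hb =>
    rw [comp_mul]
    refine sum_mem fun p hp => ?_
    have hp' := Finset.HasAntidiagonal.mem_antidiagonal.1 hp
    rw [← hp', pow_add]
    exact Submodule.mul_mem_mul (ha p.1) (hb p.2)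
  | add a b ha hb => rw [map_add]; exact add_mem (ha n) (hb n)

instance finite_Ld [Finite X] (n : ℕ) : Module.Finite k (Ld k X n) := by
  let W : Submodule k (FreeAlgebra k X) := ⨆ i ∈ Finset.range (n + 1), V k X ^ i
  have hW : W.FG := by
    refine Submodule.fg_biSup _ _ fun i _ => ?_
    exact (Submodule.fg_span (Set.finite_range _)).pow i
  have hWf : Module.Finite k W := Module.Finite.iff_fg.2 hW
  let f : Ld k X n →ₗ[k] W := (emb.comp (Ld k X n).subtype).codRestrict W (by
    rintro ⟨l, hl⟩
    change emb l ∈ W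
    rw [← sum_comp (one X) (emb l) n hl]
    refine sum_mem fun i hi => ?_
    exact (le_iSup₂ (f := fun i (_ : i ∈ Finset.range (n + 1)) => V k X ^ i) i hi)
      (comp_one_mem i _))
  have hf : Function.Injective f := by
    intro a b h
    have h1 : emb (a : FreeLieAlgebra k X) = emb (b : FreeLieAlgebra k X) := congrArg Subtype.val h
    exact Subtype.ext (emb_injective h1)
  exact Module.Finite.of_injective f hf

section chain

variable [Fintype X] [DecidableEq X] (f : FreeLieAlgebra k X →ₗ⁅k⁆ FreeLieAlgebra k X)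

/-- Membership in the image of the `n`-th iterate. -/
def Im (n : ℕ) (z : FreeLieAlgebra k X) : Prop := ∃ y, f^[n] y = z

omit [Fintype X] [DecidableEq X] in
lemma Im_anti {m n : ℕ} (h : m ≤ n) {z : FreeLieAlgebra k X} (hz : Im f n z) : Im f m z := by
  obtain ⟨y, rfl⟩ := hz
  refine ⟨f^[n - m] y, ?_⟩
  rw [← Function.iterate_add_apply]
  congr 2
  omega

/-- The stable image. -/
noncomputable def stab : LieSubalgebra k (FreeLieAlgebra k X) where
  carrier := {z | ∀ n, Im f n z}
  add_mem' := by
    intro a b ha hb n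
    obtain ⟨y, hy⟩ := ha n
    obtain ⟨y', hy'⟩ := hb n
    refine ⟨y + y', ?_⟩
    rw [← iterHom_apply, map_add, iterHom_apply, iterHom_apply, hy, hy']
  zero_mem' := fun n => ⟨0, by rw [← iterHom_apply, map_zero]⟩
  smul_mem' := by
    intro c a ha n
    obtain ⟨y, hy⟩ := ha n
    exact ⟨c • y, by rw [← iterHom_apply, map_smul, iterHom_apply, hy]⟩
  lie_mem' := by
    intro a b ha hb n
    obtain ⟨y, hy⟩ := ha n
    obtain ⟨y', hy'⟩ := hb n
    refine ⟨⁅y, y'⁆, ?_⟩
    rw [← iterHom_apply, _root_.LieHom.map_lie, iterHom_apply, iterHom_apply, hy, hy']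

omit [Fintype X] [DecidableEq X] in
lemma mem_stab {z : FreeLieAlgebra k X} : z ∈ stab f ↔ ∀ n, Im f n z := Iff.rfl

omit [DecidableEq X] in
/-- In bounded degree the images stabilise. -/
lemma exists_stable (e : ℕ) : ∃ n₀, ∀ z, deg (one X) (emb z) ≤ e → Im f n₀ z → z ∈ stab f := by
  let E : ℕ → Submodule k (FreeLieAlgebra k X) := fun n =>
    (iterHom f n).range.toSubmodule ⊓ Ld k X e
  have hE : ∀ n z, z ∈ E n ↔ Im f n z ∧ deg (one X) (emb z) ≤ e := by
    intro n z
    constructor
    · rintro ⟨⟨y, hy⟩, h2⟩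
      exact ⟨⟨y, by rw [← iterHom_apply]; exact hy⟩, h2⟩
    · rintro ⟨⟨y, hy⟩, h2⟩
      exact ⟨⟨y, by rw [← hy, ← iterHom_apply]; rfl⟩, h2⟩
  have hfin : ∀ n, Module.Finite k (E n) := fun n =>
    Module.Finite.of_injective (Submodule.inclusion (inf_le_right : E n ≤ Ld k X e))
      (Submodule.inclusion_injective _)
  obtain ⟨n₀, hn₀⟩ := Nat.sInf_mem (s := Set.range fun n => Module.finrank k (E n)) ⟨_, 0, rfl⟩
  have hmin : ∀ n, Module.finrank k (E n₀) ≤ Module.finrank k (E n) := fun n => by
    have h : Module.finrank k (E n₀) = sInf (Set.range fun n => Module.finrank k (E n)) := hn₀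
    rw [h]
    exact Nat.sInf_le ⟨n, rfl⟩
  have hanti : ∀ n, n₀ ≤ n → E n ≤ E n₀ := by
    intro n hn z hz
    rw [hE] at hz ⊢
    exact ⟨Im_anti f hn hz.1, hz.2⟩
  have heq : ∀ n, n₀ ≤ n → E n = E n₀ := by
    intro n hn
    have := hfin n₀
    exact Submodule.eq_of_le_of_finrank_le (hanti n hn) (hmin n)
  refine ⟨n₀, fun z hz h n => ?_⟩
  rcases le_total n₀ n with hn | hn
  · have h1 : z ∈ E n := by rw [heq n hn, hE]; exact ⟨h, hz⟩
    exact ((hE n z).1 h1).1
  · exact Im_anti f hn h

omit [Fintype X] [DecidableEq X] in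
/-- An element of weighted degree at most `n` lies in the subalgebra generated by the generators
of weight at most `n`. -/
lemma mem_lieSpan_of_deg_le (e : X → ℕ) (w : FreeLieAlgebra k X) (n : ℕ) (hw : deg e (emb w) ≤ n) :
    w ∈ LieSubalgebra.lieSpan k (FreeLieAlgebra k X) (FreeLieAlgebra.of k '' {x | e x ≤ n}) := by
  have htop : w ∈ LieSubalgebra.lieSpan k (FreeLieAlgebra k X)
      (FreeLieAlgebra.of k '' Set.univ) := by
    rw [Set.image_univ, lieSpan_range_of]
    exact LieSubalgebra.mem_top w
  have h1 := fun i => comp_mem e Set.univ w htop i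
  choose l hl hl' using h1
  have h2 : w = ∑ i ∈ Finset.range (n + 1), l i := by
    refine emb_injective ?_
    rw [map_sum, Finset.sum_congr rfl fun i _ => hl' i, sum_comp e _ n hw]
  rw [h2]
  refine sum_mem fun i hi => ?_
  refine LieSubalgebra.lieSpan_mono (Set.image_mono ?_) (hl i)
  rintro x ⟨-, hx⟩
  exact hx.trans (Nat.lt_succ_iff.1 (Finset.mem_range.1 hi))

/-- The stable image is a free factor. -/
theorem stab_free_factor (hf : Function.Injective f) :
    ∃ (α : FreeLieAlgebra k X ≃ₗ⁅k⁆ FreeLieAlgebra k X) (I : Set X), ∀ z, z ∈ stab f ↔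
      ∃ w ∈ LieSubalgebra.lieSpan k (FreeLieAlgebra k X) (FreeLieAlgebra.of k '' I), α w = z := by
  classical
  have hinj : ∀ n, Function.Injective (iterHom f n) := by
    intro n
    have h1 : (iterHom f n : FreeLieAlgebra k X → FreeLieAlgebra k X) = f^[n] :=
      funext fun z => iterHom_apply f n z
    rw [h1]
    exact hf.iterate n
  have hα := fun n => exists_reduced (iterHom f n) (hinj n)
  choose α hα using hα
  let h : ℕ → (FreeLieAlgebra k X →ₗ⁅k⁆ FreeLieAlgebra k X) := fun n =>
    (iterHom f n).comp (α n : FreeLieAlgebra k X →ₗ⁅k⁆ FreeLieAlgebra k X)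
  let e : ℕ → X → ℕ := fun n x => deg (one X) (emb (h n (FreeLieAlgebra.of k x)))
  have hdeg : ∀ n w m, deg (one X) (emb (h n w)) ≤ m → deg (e n) (emb w) ≤ m := by
    intro n w m hm
    rw [emb_hom] at hm
    exact deg_le_of_free (one X) (e n) _ (fun x => le_rfl) (hα n) _ _ hm
  have hdeg' : ∀ n w m, deg (e n) (emb w) ≤ m → deg (one X) (emb (h n w)) ≤ m := by
    intro n w m hm
    rw [emb_hom]
    exact (deg_lift_le (one X) (e n) _ (fun x => le_rfl) _ _ hm).1
  choose n₀ hn₀ using exists_stable f
  -- the subalgebras generated by the elements of bounded degree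
  let B : ℕ → LieSubalgebra k (FreeLieAlgebra k X) := fun c =>
    LieSubalgebra.lieSpan k (FreeLieAlgebra k X) {z | z ∈ stab f ∧ deg (one X) (emb z) ≤ c}
  let I : ℕ → ℕ → Finset X := fun n c => Finset.univ.filter fun x => e n x ≤ c
  have hI : ∀ n c, ((I n c : Finset X) : Set X) = {x | e n x ≤ c} := fun n c => by
    ext x; simp [I]
  have hB : ∀ n c, n₀ c ≤ n → ∀ z, z ∈ B c ↔
      ∃ w ∈ LieSubalgebra.lieSpan k (FreeLieAlgebra k X)
        (FreeLieAlgebra.of k '' ((I n c : Finset X) : Set X)), h n w = z := by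
    intro n c hn
    set K := LieSubalgebra.lieSpan k (FreeLieAlgebra k X)
      (FreeLieAlgebra.of k '' ((I n c : Finset X) : Set X)) with hK
    have h1 : B c ≤ K.map (h n) := by
      refine LieSubalgebra.lieSpan_le.2 ?_
      rintro z ⟨hz, hz'⟩
      obtain ⟨y, hy⟩ := hz n
      refine ⟨(α n).symm y, ?_, ?_⟩
      · have h2 : h n ((α n).symm y) = z := by
          change iterHom f n (α n ((α n).symm y)) = z
          rw [LieEquiv.apply_symm_apply, iterHom_apply, hy]
        have h3 := hdeg n ((α n).symm y) c (by rw [h2]; exact hz')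
        have h4 := mem_lieSpan_of_deg_le (e n) _ c h3
        rw [← hI n c] at h4
        exact h4
      · change iterHom f n (α n ((α n).symm y)) = z
        rw [LieEquiv.apply_symm_apply, iterHom_apply, hy]
    have h2 : K.map (h n) ≤ B c := by
      rintro _ ⟨w, hw, rfl⟩
      have h3 : K ≤ (B c).comap (h n) := by
        rw [hK, LieSubalgebra.lieSpan_le]
        rintro _ ⟨x, hx, rfl⟩
        have hx' : e n x ≤ c := by
          rw [hI n c] at hx; exact hx
        refine LieSubalgebra.subset_lieSpan ⟨?_, hx'⟩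
        refine hn₀ c _ hx' (Im_anti f hn ?_)
        refine ⟨α n (FreeLieAlgebra.of k x), ?_⟩
        rw [← iterHom_apply]
        rfl
      exact h3 hw
    intro z
    constructor
    · intro hz
      obtain ⟨w, hw, hwz⟩ := h1 hz
      exact ⟨w, hw, hwz⟩
    · rintro ⟨w, hw, rfl⟩
      exact h2 ⟨w, hw, rfl⟩
  have hBmono : ∀ c c', c ≤ c' → B c ≤ B c' := fun c c' hcc =>
    LieSubalgebra.lieSpan_mono fun z hz => ⟨hz.1, hz.2.trans hcc⟩
  -- the chain of these subalgebras stabilises
  obtain ⟨c₀, hc₀⟩ : ∃ c₀, ∀ c, c₀ ≤ c → B c = B c₀ := by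
    by_contra hcon
    push Not at hcon
    have key : ∀ m : ℕ, ∃ c N, ∀ n, N ≤ n → m ≤ (I n c).card := by
      intro m
      induction m with
      | zero => exact ⟨0, 0, fun _ _ => Nat.zero_le _⟩
      | succ m ih =>
        obtain ⟨c, N, hN⟩ := ih
        obtain ⟨c', hcc, hne⟩ := hcon c
        refine ⟨c', max N (max (n₀ c) (n₀ c')), fun n hn => ?_⟩
        have hsub : I n c ⊆ I n c' := by
          intro x hx
          simp only [I, Finset.mem_filter, Finset.mem_univ, true_and] at hx ⊢
          exact hx.trans hcc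
        have hss : I n c ⊂ I n c' := by
          refine lt_of_le_of_ne hsub ?_
          intro heq
          apply hne
          ext z
          rw [hB n c' ((le_max_right _ _).trans ((le_max_right _ _).trans hn)) z,
            hB n c ((le_max_left _ _).trans ((le_max_right _ _).trans hn)) z, heq]
        have h1 := Finset.card_lt_card hss
        have h2 := hN n ((le_max_left _ _).trans hn)
        omega
    obtain ⟨c, N, hN⟩ := key (Fintype.card X + 1)
    have h1 := hN N le_rfl
    have h2 := Finset.card_le_univ (I N c)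
    omega
  have hstab : ∀ z, z ∈ stab f ↔ z ∈ B c₀ := by
    intro z
    constructor
    · intro hz
      have h1 : z ∈ B (max c₀ (deg (one X) (emb z))) :=
        LieSubalgebra.subset_lieSpan ⟨hz, le_max_right _ _⟩
      rwa [hc₀ _ (le_max_left _ _)] at h1
    · intro hz
      have h1 : B c₀ ≤ stab f := LieSubalgebra.lieSpan_le.2 fun z hz => hz.1
      exact h1 hz
  set n := n₀ c₀ with hn
  refine ⟨α n, ((I n c₀ : Finset X) : Set X), fun z => ?_⟩
  -- the iterate maps the stable image onto itself
  have h1 : z ∈ stab f → iterHom f n z ∈ stab f := by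
    intro hz m
    obtain ⟨y, hy⟩ := hz m
    refine ⟨f^[n] y, ?_⟩
    rw [iterHom_apply, ← hy, ← Function.iterate_add_apply, ← Function.iterate_add_apply, add_comm]
  have h2 : iterHom f n z ∈ stab f → z ∈ stab f := by
    intro hz m
    obtain ⟨y, hy⟩ := hz (n + m)
    refine ⟨y, ?_⟩
    apply hinj n
    rw [← hy, iterHom_apply, Function.iterate_add_apply]
  constructor
  · intro hz
    have h3 := (hstab _).1 (h1 hz)
    obtain ⟨w, hw, hwz⟩ := (hB n c₀ le_rfl _).1 h3
    exact ⟨w, hw, hinj n hwz⟩
  · rintro ⟨w, hw, rfl⟩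
    refine h2 ((hstab _).2 ((hB n c₀ le_rfl _).2 ⟨w, hw, rfl⟩))

end chain

end Pool.Agent.H84.LieHom.FA
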