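import Mathlib

/-!
Coverings of abelian groups by cosets, and the fibres of affine subsets of a product of abelian
groups: the combinatorial part of quantifier elimination for abelian structures.
-/

set_option autoImplicit false

namespace Pool.Agent.H84.LieHom

open scoped Pointwise

section finiteIndex

variable {G ι : Type*} [AddCommGroup G]

/-- If cosets `c i + H i` of subgroups of finite index cover `G`, then so do the cosets
`c' i + H i` if they have the same pattern of non-empty intersections. -/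
lemma cover_of_cover_finiteIndex (s : Finset ι) (H : ι → AddSubgroup G)
    (hH : ∀ i ∈ s, (H i).FiniteIndex) (c c' : ι → G)
    (hc : ∀ J : Finset ι, J ⊆ s → J.Nonempty →
      ((∃ g, ∀ i ∈ J, g - c i ∈ H i) ↔ (∃ g, ∀ i ∈ J, g - c' i ∈ H i)))
    (hcov : ∀ g, ∃ i ∈ s, g - c i ∈ H i) : ∀ g, ∃ i ∈ s, g - c' i ∈ H i := by
  classical
  let N : AddSubgroup G := ⨅ i ∈ s, H i
  have hN : N.FiniteIndex := AddSubgroup.finiteIndex_iInf' _ (fun i hi => hH i hi)
  have hNle : ∀ i ∈ s, N ≤ H i := fun i hi => iInf₂_le i hi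
  have hfin : Finite (G ⧸ N) := inferInstance
  let _ : Fintype (G ⧸ N) := Fintype.ofFinite _
  -- the images of the cosets
  let A : (ι → G) → ι → Finset (G ⧸ N) := fun c i =>
    Finset.univ.filter fun q => ∃ g : G, g - c i ∈ H i ∧ (g : G ⧸ N) = q
  have hA : ∀ (c : ι → G), ∀ i ∈ s, ∀ g : G, (g : G ⧸ N) ∈ A c i ↔ g - c i ∈ H i := by
    intro c i hi g
    simp only [A, Finset.mem_filter, Finset.mem_univ, true_and]
    constructor
    · rintro ⟨g', hg', h⟩
      rw [QuotientAddGroup.eq] at h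
      have h1 := hNle i hi h
      have h2 := (H i).add_mem hg' h1
      have e : g' - c i + (-g' + g) = g - c i := by abel
      rwa [e] at h2
    · exact fun h => ⟨g, h, rfl⟩
  -- comparison of the cardinalities of the intersections
  have hle : ∀ c c' : ι → G, (∀ J : Finset ι, J ⊆ s → J.Nonempty →
      ((∃ g, ∀ i ∈ J, g - c i ∈ H i) → (∃ g, ∀ i ∈ J, g - c' i ∈ H i))) →
      ∀ J : Finset ι, J ⊆ s → ∀ hJ : J.Nonempty, (J.inf' hJ (A c)).card ≤ (J.inf' hJ (A c')).card := by
    intro c c' hcc J hJs hJ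
    by_cases hex : ∃ g, ∀ i ∈ J, g - c i ∈ H i
    · obtain ⟨g₀, hg₀⟩ := hex
      obtain ⟨g₁, hg₁⟩ := hcc J hJs hJ ⟨g₀, hg₀⟩
      refine Finset.card_le_card_of_injOn (fun q => q + ((g₁ - g₀ : G) : G ⧸ N)) ?_
        (fun a _ b _ h => add_right_cancel h)
      intro q hq
      obtain ⟨g, rfl⟩ := QuotientAddGroup.mk_surjective q
      simp only [Finset.mem_coe, Finset.mem_inf'] at hq ⊢
      intro i hi
      have h1 := (hA c i (hJs hi) g).1 (hq i hi)
      rw [← QuotientAddGroup.mk_add, hA c' i (hJs hi)]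
      have e : g + (g₁ - g₀) - c' i = (g - c i) - (g₀ - c i) + (g₁ - c' i) := by abel
      rw [e]
      exact (H i).add_mem ((H i).sub_mem h1 (hg₀ i hi)) (hg₁ i hi)
    · have h0 : J.inf' hJ (A c) = ∅ := by
        rw [Finset.eq_empty_iff_forall_notMem]
        intro q hq
        obtain ⟨g, rfl⟩ := QuotientAddGroup.mk_surjective q
        simp only [Finset.mem_inf'] at hq
        exact hex ⟨g, fun i hi => (hA c i (hJs hi) g).1 (hq i hi)⟩
      rw [h0]
      exact Nat.zero_le _
  have hcard : (s.biUnion (A c)).card = (s.biUnion (A c')).card := by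
    have h1 := Finset.inclusion_exclusion_card_biUnion s (A c)
    have h2 := Finset.inclusion_exclusion_card_biUnion s (A c')
    have h3 : ((s.biUnion (A c)).card : ℤ) = ((s.biUnion (A c')).card : ℤ) := by
      rw [h1, h2]
      refine Finset.sum_congr rfl fun t _ => ?_
      have ht := t.2
      rw [Finset.mem_filter, Finset.mem_powerset] at ht
      have h4 : (t.1.inf' ht.2 (A c)).card = (t.1.inf' ht.2 (A c')).card :=
        le_antisymm (hle c c' (fun J h1 h2 => (hc J h1 h2).1) _ ht.1 ht.2)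
          (hle c' c (fun J h1 h2 => (hc J h1 h2).2) _ ht.1 ht.2)
      rw [h4]
    exact_mod_cast h3
  have huniv : s.biUnion (A c) = Finset.univ := by
    rw [Finset.eq_univ_iff_forall]
    intro q
    obtain ⟨g, rfl⟩ := QuotientAddGroup.mk_surjective q
    obtain ⟨i, hi, h⟩ := hcov g
    exact Finset.mem_biUnion.2 ⟨i, hi, (hA c i hi g).2 h⟩
  rw [huniv] at hcard
  have huniv' : s.biUnion (A c') = Finset.univ := by
    rw [← Finset.card_eq_iff_eq_univ, ← hcard, Finset.card_univ]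
  intro g
  have h1 : (g : G ⧸ N) ∈ s.biUnion (A c') := by rw [huniv']; exact Finset.mem_univ _
  obtain ⟨i, hi, h⟩ := Finset.mem_biUnion.1 h1
  exact ⟨i, hi, (hA c' i hi g).1 h⟩

/-- The same for arbitrary subgroups (by the lemma of B. H. Neumann, only the subgroups of finite
index matter). -/
lemma cover_of_cover (s : Finset ι) (H : ι → AddSubgroup G) (c c' : ι → G)
    (hc : ∀ J : Finset ι, J ⊆ s → J.Nonempty →
      ((∃ g, ∀ i ∈ J, g - c i ∈ H i) ↔ (∃ g, ∀ i ∈ J, g - c' i ∈ H i)))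
    (hcov : ∀ g, ∃ i ∈ s, g - c i ∈ H i) : ∀ g, ∃ i ∈ s, g - c' i ∈ H i := by
  classical
  have h1 : ⋃ i ∈ s, (c i +ᵥ (H i : Set G)) = Set.univ := by
    rw [Set.eq_univ_iff_forall]
    intro g
    obtain ⟨i, hi, h⟩ := hcov g
    refine Set.mem_biUnion hi ?_
    rw [mem_leftAddCoset_iff, neg_add_eq_sub]
    exact h
  have h2 := AddSubgroup.leftCoset_cover_filter_FiniteIndex h1
  have h3 : ∀ g, ∃ i ∈ s.filter (fun i => (H i).FiniteIndex), g - c i ∈ H i := by
    intro g
    have h4 : g ∈ ⋃ k ∈ s.filter (fun i => (H i).FiniteIndex), (c k +ᵥ (H k : Set G)) := by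
      rw [h2]; trivial
    obtain ⟨i, hi, h⟩ := Set.mem_iUnion₂.1 h4
    rw [mem_leftAddCoset_iff, neg_add_eq_sub] at h
    exact ⟨i, hi, h⟩
  intro g
  obtain ⟨i, hi, h⟩ := cover_of_cover_finiteIndex (s.filter (fun i => (H i).FiniteIndex)) H
    (fun i hi => (Finset.mem_filter.1 hi).2) c c'
    (fun J hJ hJn => hc J (hJ.trans (Finset.filter_subset _ _)) hJn) h3 g
  exact ⟨i, (Finset.mem_filter.1 hi).1, h⟩

end finiteIndex

section fibres

variable {E S ι : Type*} [AddCommGroup E] [AddCommGroup S]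

/-- The stabiliser (in the direction of the second factor) of the intersection of the sets `B i`,
`i ∈ J`. -/
def fibreGroup (B : ι → Set (E × S)) (hB : ∀ i, ∀ p ∈ B i, ∀ q ∈ B i, ∀ r ∈ B i, p - q + r ∈ B i)
    (J : Finset ι) : AddSubgroup S where
  carrier := {g | ∀ p : E × S, (∀ i ∈ J, p ∈ B i) → ∀ i ∈ J, p + ((0 : E), g) ∈ B i}
  zero_mem' := by
    intro p hp i hi
    have e : p + ((0 : E), (0 : S)) = p := by ext <;> simp
    rw [e]
    exact hp i hi
  add_mem' := by
    intro g h hg hh p hp i hi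
    have e : p + ((0 : E), g + h) = p + ((0 : E), g) + ((0 : E), h) := by
      ext <;> simp [add_assoc]
    rw [e]
    exact hh _ (hg p hp) i hi
  neg_mem' := by
    intro g hg p hp i hi
    have e : p + ((0 : E), -g) = p - (p + ((0 : E), g)) + p := by
      ext <;> simp [add_comm]
    rw [e]
    exact hB i _ (hp i hi) _ (hg p hp i hi) _ (hp i hi)

lemma mem_fibreGroup {B : ι → Set (E × S)}
    {hB : ∀ i, ∀ p ∈ B i, ∀ q ∈ B i, ∀ r ∈ B i, p - q + r ∈ B i} {J : Finset ι} {g : S} :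
    g ∈ fibreGroup B hB J ↔
      ∀ p : E × S, (∀ i ∈ J, p ∈ B i) → ∀ i ∈ J, p + ((0 : E), g) ∈ B i := Iff.rfl

/-- Differences of points in the same fibre. -/
lemma sub_mem_fibreGroup {B : ι → Set (E × S)}
    {hB : ∀ i, ∀ p ∈ B i, ∀ q ∈ B i, ∀ r ∈ B i, p - q + r ∈ B i} {J : Finset ι} {z : E} {y y' : S}
    (hy : ∀ i ∈ J, (z, y) ∈ B i) (hy' : ∀ i ∈ J, (z, y') ∈ B i) : y' - y ∈ fibreGroup B hB J := by
  intro p hp i hi
  have e : p + ((0 : E), y' - y) = p - (z, y) + (z, y') := by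
    ext
    · simp
    · simp only [Prod.snd_add, Prod.snd_sub]; abel
  rw [e]
  exact hB i _ (hp i hi) _ (hy i hi) _ (hy' i hi)

/-- Translation in a fibre. -/
lemma add_mem_fibre {B : ι → Set (E × S)}
    {hB : ∀ i, ∀ p ∈ B i, ∀ q ∈ B i, ∀ r ∈ B i, p - q + r ∈ B i} {J : Finset ι} {z : E} {y g : S}
    (hy : ∀ i ∈ J, (z, y) ∈ B i) (hg : g ∈ fibreGroup B hB J) : ∀ i ∈ J, (z, y + g) ∈ B i := by
  intro i hi
  have h := hg (z, y) hy i hi
  have e : ((z, y) : E × S) + ((0 : E), g) = (z, y + g) := by ext <;> simp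
  rwa [e] at h

/-- If `z` and `z'` lie in the same projections of intersections of the affine sets `B i`, then
for each point of the fibre over `z` there is a point of the fibre over `z'` that lies in the
same sets `B i`. -/
lemma exists_same_pattern [Fintype ι] (B : ι → Set (E × S))
    (hB : ∀ i, ∀ p ∈ B i, ∀ q ∈ B i, ∀ r ∈ B i, p - q + r ∈ B i) (z z' : E)
    (h : ∀ J : Finset ι, J.Nonempty →
      ((∃ y, ∀ i ∈ J, (z, y) ∈ B i) ↔ (∃ y, ∀ i ∈ J, (z', y) ∈ B i))) (y : S) :
    ∃ y', ∀ i, (z, y) ∈ B i ↔ (z', y') ∈ B i := by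
  classical
  by_contra hcon
  push Not at hcon
  let T : Finset ι := Finset.univ.filter fun i => (z, y) ∈ B i
  have hT : ∀ i, i ∈ T ↔ (z, y) ∈ B i := fun i => by simp [T]
  have hy₀' : ∃ y₀', ∀ i ∈ T, (z', y₀') ∈ B i := by
    by_cases hTn : T.Nonempty
    · exact (h T hTn).1 ⟨y, fun i hi => (hT i).1 hi⟩
    · rw [Finset.not_nonempty_iff_eq_empty] at hTn
      exact ⟨0, by simp [hTn]⟩
  obtain ⟨y₀', hy₀'⟩ := hy₀'
  let G := fibreGroup B hB T
  let s : Finset ι := Finset.univ.filter fun i => i ∉ T ∧ ∃ u, ∀ j ∈ insert i T, (z', u) ∈ B j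
  have hs : ∀ i, i ∈ s ↔ i ∉ T ∧ ∃ u, ∀ j ∈ insert i T, (z', u) ∈ B j := fun i => by simp [s]
  have hu' : ∀ i, ∃ u : S, i ∈ s → ∀ j ∈ insert i T, (z', u) ∈ B j := by
    intro i
    by_cases hi : i ∈ s
    · obtain ⟨u, hu⟩ := ((hs i).1 hi).2
      exact ⟨u, fun _ => hu⟩
    · exact ⟨0, fun h => absurd h hi⟩
  have hu : ∀ i, ∃ u : S, i ∈ s → ∀ j ∈ insert i T, (z, u) ∈ B j := by
    intro i
    by_cases hi : i ∈ s
    · obtain ⟨u, hu⟩ := (h (insert i T) (Finset.insert_nonempty _ _)).2 ((hs i).1 hi).2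
      exact ⟨u, fun _ => hu⟩
    · exact ⟨0, fun h => absurd h hi⟩
  choose u' hu' using hu'
  choose u hu using hu
  have hcG' : ∀ i ∈ s, u' i - y₀' ∈ G := fun i hi =>
    sub_mem_fibreGroup hy₀' (fun j hj => hu' i hi j (Finset.mem_insert_of_mem hj))
  have hcG : ∀ i ∈ s, u i - y ∈ G := fun i hi =>
    sub_mem_fibreGroup (fun j hj => (hT j).1 hj)
      (fun j hj => hu i hi j (Finset.mem_insert_of_mem hj))
  let c' : ι → G := fun i => if hi : i ∈ s then ⟨u' i - y₀', hcG' i hi⟩ else 0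
  let c : ι → G := fun i => if hi : i ∈ s then ⟨u i - y, hcG i hi⟩ else 0
  have hc' : ∀ i ∈ s, (c' i : S) = u' i - y₀' := fun i hi => by simp [c', hi]
  have hc : ∀ i ∈ s, (c i : S) = u i - y := fun i hi => by simp [c, hi]
  let H : ι → AddSubgroup G := fun i => (fibreGroup B hB (insert i T)).addSubgroupOf G
  have hH : ∀ i (g : G), g ∈ H i ↔ (g : S) ∈ fibreGroup B hB (insert i T) := fun i g =>
    AddSubgroup.mem_addSubgroupOf
  have hcov : ∀ g, ∃ i ∈ s, g - c' i ∈ H i := by
    intro g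
    have h1 := add_mem_fibre hy₀' g.2
    obtain ⟨i, hi⟩ := hcon (y₀' + g)
    have hiT : i ∉ T := by
      intro hiT
      rcases hi with ⟨h2, h3⟩ | ⟨h2, h3⟩
      · exact h3 (h1 i hiT)
      · exact h2 ((hT i).1 hiT)
    have h2 : (z', y₀' + g) ∈ B i := by
      rcases hi with ⟨h2, h3⟩ | ⟨h2, h3⟩
      · exact absurd ((hT i).2 h2) hiT
      · exact h3
    have h3 : ∀ j ∈ insert i T, (z', y₀' + (g : S)) ∈ B j := by
      intro j hj
      rcases Finset.mem_insert.1 hj with rfl | hj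
      · exact h2
      · exact h1 j hj
    have his : i ∈ s := (hs i).2 ⟨hiT, _, h3⟩
    refine ⟨i, his, ?_⟩
    rw [hH, AddSubgroup.coe_sub, hc' i his]
    have e : (g : S) - (u' i - y₀') = (y₀' + g) - u' i := by abel
    rw [e]
    exact sub_mem_fibreGroup (hu' i his) h3
  have hpat : ∀ J : Finset ι, J ⊆ s → J.Nonempty →
      ((∃ g, ∀ i ∈ J, g - c' i ∈ H i) ↔ (∃ g, ∀ i ∈ J, g - c i ∈ H i)) := by
    intro J hJs hJ
    constructor
    · rintro ⟨g, hg⟩
      have h1 : ∀ j ∈ J ∪ T, (z', y₀' + (g : S)) ∈ B j := by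
        intro j hj
        rcases Finset.mem_union.1 hj with hj | hj
        · have h2 := hg j hj
          rw [hH, AddSubgroup.coe_sub, hc' j (hJs hj)] at h2
          have h3 := add_mem_fibre (hu' j (hJs hj)) h2 j (Finset.mem_insert_self j T)
          have e : u' j + ((g : S) - (u' j - y₀')) = y₀' + g := by abel
          rwa [e] at h3
        · exact add_mem_fibre hy₀' g.2 j hj
      obtain ⟨v, hv⟩ := (h (J ∪ T) (hJ.mono Finset.subset_union_left)).2 ⟨_, h1⟩
      refine ⟨⟨v - y, sub_mem_fibreGroup (fun j hj => (hT j).1 hj)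
        (fun j hj => hv j (Finset.mem_union_right _ hj))⟩, fun i hi => ?_⟩
      rw [hH, AddSubgroup.coe_sub, hc i (hJs hi)]
      have e : v - y - (u i - y) = v - u i := by abel
      change v - y - (u i - y) ∈ _
      rw [e]
      refine sub_mem_fibreGroup (hu i (hJs hi)) (fun j hj => ?_)
      rcases Finset.mem_insert.1 hj with rfl | hj
      · exact hv j (Finset.mem_union_left _ hi)
      · exact hv j (Finset.mem_union_right _ hj)
    · rintro ⟨g, hg⟩
      have h1 : ∀ j ∈ J ∪ T, (z, y + (g : S)) ∈ B j := by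
        intro j hj
        rcases Finset.mem_union.1 hj with hj | hj
        · have h2 := hg j hj
          rw [hH, AddSubgroup.coe_sub, hc j (hJs hj)] at h2
          have h3 := add_mem_fibre (hu j (hJs hj)) h2 j (Finset.mem_insert_self j T)
          have e : u j + ((g : S) - (u j - y)) = y + g := by abel
          rwa [e] at h3
        · exact add_mem_fibre (fun j hj => (hT j).1 hj) g.2 j hj
      obtain ⟨v, hv⟩ := (h (J ∪ T) (hJ.mono Finset.subset_union_left)).1 ⟨_, h1⟩
      refine ⟨⟨v - y₀', sub_mem_fibreGroup hy₀'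
        (fun j hj => hv j (Finset.mem_union_right _ hj))⟩, fun i hi => ?_⟩
      rw [hH, AddSubgroup.coe_sub, hc' i (hJs hi)]
      have e : v - y₀' - (u' i - y₀') = v - u' i := by abel
      change v - y₀' - (u' i - y₀') ∈ _
      rw [e]
      refine sub_mem_fibreGroup (hu' i (hJs hi)) (fun j hj => ?_)
      rcases Finset.mem_insert.1 hj with rfl | hj
      · exact hv j (Finset.mem_union_left _ hi)
      · exact hv j (Finset.mem_union_right _ hj)
  obtain ⟨i, his, hi⟩ := cover_of_cover s H c' c hpat hcov 0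
  rw [hH, AddSubgroup.coe_sub, hc i his] at hi
  have h1 := add_mem_fibre (hu i his) hi i (Finset.mem_insert_self i T)
  have e : u i + (((0 : G) : S) - (u i - y)) = y := by
    rw [AddSubgroup.coe_zero]; abel
  rw [e] at h1
  exact ((hs i).1 his).1 ((hT i).2 h1)

end fibres

end Pool.Agent.H84.LieHom
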