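import Mathlib
import Pool.Agent.H84.LieHom.Chain

/-!
Linear parts of elements of a free Lie algebra, and the extension of an isomorphism between two
standard free factors to an automorphism.
-/

set_option autoImplicit false

namespace Pool.Agent.H84.LieHom.FA

open FreeAlgebra

variable {k X : Type*} [Field k]

section linear

variable [DecidableEq X]

/-- The linear part of an element. -/
noncomputable def lin (x : X) : FreeLieAlgebra k X →ₗ[k] k :=
  (eps : FreeAlgebra k X →ₐ[k] k).toLinearMap ∘ₗ der x ∘ₗ emb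

lemma lin_apply (x : X) (l : FreeLieAlgebra k X) : lin x l = eps (der x (emb l)) := rfl

lemma lin_of (x y : X) : lin (k := k) x (FreeLieAlgebra.of k y) = if y = x then 1 else 0 := by
  rw [lin_apply, emb_of, der_ι]
  split_ifs
  · rw [map_one]
  · rw [map_zero]

lemma lin_lie (x : X) (a b : FreeLieAlgebra k X) : lin x ⁅a, b⁆ = 0 := by
  rw [lin_apply, emb_lie, map_sub, der_mul, der_mul, eps_emb, eps_emb, zero_smul, zero_smul,
    zero_add, zero_add, map_sub, map_mul, map_mul, eps_emb, eps_emb, mul_zero, mul_zero, sub_self]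

/-- Linear parts of the values of a homomorphism. -/
lemma lin_hom [Fintype X] (h : FreeLieAlgebra k X →ₗ⁅k⁆ FreeLieAlgebra k X) (y : X)
    (l : FreeLieAlgebra k X) :
    lin y (h l) = ∑ x, lin x l * lin y (h (FreeLieAlgebra.of k x)) := by
  refine generators_induction (lieSpan_range_of k X)
    (fun l => lin y (h l) = ∑ x, lin x l * lin y (h (FreeLieAlgebra.of k x))) ?_ ?_ ?_ ?_ ?_ l
  · simp
  · intro x
    rw [Finset.sum_eq_single x]
    · rw [lin_of, if_pos rfl, one_mul]
    · intro z _ hz
      rw [lin_of, if_neg (fun h' => hz h'.symm), zero_mul]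
    · intro h'
      exact absurd (Finset.mem_univ x) h'
  · intro a b ha hb
    rw [map_add, map_add, ha, hb, ← Finset.sum_add_distrib]
    exact Finset.sum_congr rfl fun x _ => by rw [map_add, add_mul]
  · intro c a ha
    rw [map_smul, map_smul, ha, Finset.smul_sum]
    exact Finset.sum_congr rfl fun x _ => by rw [map_smul, smul_mul_assoc]
  · intro a b _ _
    rw [_root_.LieHom.map_lie, lin_lie]
    exact (Finset.sum_eq_zero fun x _ => by rw [lin_lie, zero_mul]).symm

end linear

/-- The standard free factor. -/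
noncomputable abbrev Kf (k : Type*) {X : Type*} [Field k] (I : Set X) :
    LieSubalgebra k (FreeLieAlgebra k X) :=
  LieSubalgebra.lieSpan k (FreeLieAlgebra k X) (FreeLieAlgebra.of k '' I)

lemma of_mem_Kf {I : Set X} {x : X} (hx : x ∈ I) : FreeLieAlgebra.of k x ∈ Kf k I :=
  LieSubalgebra.subset_lieSpan ⟨x, hx, rfl⟩

lemma lin_Kf [DecidableEq X] {I : Set X} {x : X} (hx : x ∉ I) {w : FreeLieAlgebra k X}
    (hw : w ∈ Kf k I) : lin x w = 0 := by
  let G : LieSubalgebra k (FreeLieAlgebra k X) :=
    { LinearMap.ker (lin (k := k) x) with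
      lie_mem' := fun {a b} _ _ => lin_lie x a b }
  have hG : Kf k I ≤ G := by
    rw [LieSubalgebra.lieSpan_le]
    rintro _ ⟨y, hy, rfl⟩
    change lin x (FreeLieAlgebra.of k y) = 0
    rw [lin_of, if_neg]
    rintro rfl
    exact hx hy
  exact hG hw

/-- Homomorphisms that agree on the generators of a standard free factor agree on it. -/
lemma eqOn_Kf {L' : Type*} [LieRing L'] [LieAlgebra k L'] {I : Set X}
    {f g : FreeLieAlgebra k X →ₗ⁅k⁆ L'}
    (h : ∀ x ∈ I, f (FreeLieAlgebra.of k x) = g (FreeLieAlgebra.of k x)) {w : FreeLieAlgebra k X}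
    (hw : w ∈ Kf k I) : f w = g w := by
  let G : LieSubalgebra k (FreeLieAlgebra k X) :=
    { LinearMap.eqLocus (f : FreeLieAlgebra k X →ₗ[k] L') (g : FreeLieAlgebra k X →ₗ[k] L') with
      lie_mem' := fun {a b} ha hb => by
        have ha' : f a = g a := ha
        have hb' : f b = g b := hb
        change f ⁅a, b⁆ = g ⁅a, b⁆
        rw [_root_.LieHom.map_lie, _root_.LieHom.map_lie, ha', hb'] }
  have hG : Kf k I ≤ G := by
    rw [LieSubalgebra.lieSpan_le]
    rintro _ ⟨y, hy, rfl⟩
    exact h y hy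
  exact hG hw

/-- A dimension count. -/
lemma card_le_of_span [Fintype X] [DecidableEq X] (S T : Finset X) (g : X → (X → k))
    (h : ∀ x ∈ S, (Pi.single x 1 : X → k) ∈ Submodule.span k (g '' (T : Set X))) :
    S.card ≤ T.card := by
  have h1 : LinearIndependent k (fun x : S => (Pi.single (x : X) 1 : X → k)) := by
    have h2 := (Pi.basisFun k X).linearIndependent.comp (Subtype.val : S → X)
      Subtype.val_injective
    have h3 : (⇑(Pi.basisFun k X) ∘ (Subtype.val : S → X)) =
        fun x : S => (Pi.single (x : X) 1 : X → k) := by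
      funext x
      rw [Function.comp_apply, Pi.basisFun_apply]
    rwa [h3] at h2
  have h2 := finrank_span_eq_card h1
  have h3 : Submodule.span k (Set.range fun x : S => (Pi.single (x : X) 1 : X → k)) ≤
      Submodule.span k (g '' (T : Set X)) := by
    rw [Submodule.span_le]
    rintro _ ⟨x, rfl⟩
    exact h x x.2
  have h4 := Submodule.finrank_mono h3
  have h5 : g '' (T : Set X) = Set.range fun x : T => g x := by
    ext v
    constructor
    · rintro ⟨x, hx, rfl⟩
      exact ⟨⟨x, hx⟩, rfl⟩
    · rintro ⟨⟨x, hx⟩, rfl⟩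
      exact ⟨x, hx, rfl⟩
  have h6 := finrank_range_le_card (R := k) (fun x : T => g x)
  rw [Set.finrank, ← h5] at h6
  rw [h2, Fintype.card_coe] at h4
  rw [Fintype.card_coe] at h6
  exact h4.trans h6

/-- Extension of an isomorphism between standard free factors to an automorphism. -/
theorem exists_extension_aut [Fintype X] [DecidableEq X]
    (Φ : FreeLieAlgebra k X →ₗ⁅k⁆ FreeLieAlgebra k X) (hΦ : Function.Injective Φ) (I I' : Set X)
    (h1 : ∀ w ∈ Kf k I, Φ w ∈ Kf k I') (h2 : ∀ w' ∈ Kf k I', ∃ w ∈ Kf k I, Φ w = w') :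
    ∃ σ : FreeLieAlgebra k X ≃ₗ⁅k⁆ FreeLieAlgebra k X, ∀ w ∈ Kf k I, σ w = Φ w := by
  classical
  have hq : ∀ y, ∃ q, y ∈ I' → q ∈ Kf k I ∧ Φ q = FreeLieAlgebra.of k y := by
    intro y
    by_cases hy : y ∈ I'
    · obtain ⟨q, hq, hq'⟩ := h2 _ (of_mem_Kf hy)
      exact ⟨q, fun _ => ⟨hq, hq'⟩⟩
    · exact ⟨0, fun h => absurd h hy⟩
  choose q hq using hq
  -- the numbers of generators agree
  have hcard : I.toFinset.card = I'.toFinset.card := by
    apply le_antisymm
    · let Q : FreeLieAlgebra k X →ₗ⁅k⁆ FreeLieAlgebra k X :=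
        FreeLieAlgebra.lift k fun y => if y ∈ I' then q y else 0
      have hQ : ∀ y, Q (FreeLieAlgebra.of k y) = if y ∈ I' then q y else 0 := fun y =>
        FreeLieAlgebra.lift_of_apply _ _
      have hΦQ : ∀ w' ∈ Kf k I', Φ (Q w') = w' := by
        intro w' hw'
        refine eqOn_Kf (f := Φ.comp Q) (g := _root_.LieHom.id) (fun y hy => ?_) hw'
        rw [_root_.LieHom.comp_apply, hQ, if_pos hy, (hq y hy).2]
        rfl
      refine card_le_of_span _ _ (fun y => fun z => lin z (q y)) ?_
      intro x hx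
      have hx' : x ∈ I := Set.mem_toFinset.1 hx
      have h3 : Q (Φ (FreeLieAlgebra.of k x)) = FreeLieAlgebra.of k x :=
        hΦ (hΦQ _ (h1 _ (of_mem_Kf hx')))
      have h4 : (Pi.single x 1 : X → k) =
          ∑ y ∈ I'.toFinset, lin y (Φ (FreeLieAlgebra.of k x)) • fun z => lin z (q y) := by
        funext z
        have h5 := lin_hom Q z (Φ (FreeLieAlgebra.of k x))
        rw [h3, lin_of] at h5
        rw [Finset.sum_apply]
        have h6 : (Pi.single x 1 : X → k) z = if x = z then 1 else 0 := by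
          rw [Pi.single_apply]
          by_cases h : x = z
          · rw [if_pos h, if_pos h.symm]
          · rw [if_neg h, if_neg (fun h' => h h'.symm)]
        rw [h6, h5, ← Finset.sum_subset (Finset.subset_univ I'.toFinset)]
        · refine Finset.sum_congr rfl fun y hy => ?_
          rw [hQ, if_pos (Set.mem_toFinset.1 hy)]
          rfl
        · intro y _ hy
          rw [hQ, if_neg (fun h => hy (Set.mem_toFinset.2 h)), map_zero, mul_zero]
      rw [h4]
      refine sum_mem fun y hy => Submodule.smul_mem _ _ (Submodule.subset_span ⟨y, ?_, rfl⟩)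
      exact_mod_cast hy
    · refine card_le_of_span _ _ (fun x => fun z => lin z (Φ (FreeLieAlgebra.of k x))) ?_
      intro y hy
      have hy' : y ∈ I' := Set.mem_toFinset.1 hy
      have h4 : (Pi.single y 1 : X → k) =
          ∑ x ∈ I.toFinset, lin x (q y) • fun z => lin z (Φ (FreeLieAlgebra.of k x)) := by
        funext z
        have h5 := lin_hom Φ z (q y)
        rw [(hq y hy').2, lin_of] at h5
        rw [Finset.sum_apply]
        have h6 : (Pi.single y 1 : X → k) z = if y = z then 1 else 0 := by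
          rw [Pi.single_apply]
          by_cases h : y = z
          · rw [if_pos h, if_pos h.symm]
          · rw [if_neg h, if_neg (fun h' => h h'.symm)]
        rw [h6, h5, ← Finset.sum_subset (Finset.subset_univ I.toFinset)]
        · rfl
        · intro x _ hx
          rw [lin_Kf (fun h => hx (Set.mem_toFinset.2 h)) (hq y hy').1, zero_mul]
      rw [h4]
      refine sum_mem fun x hx => Submodule.smul_mem _ _ (Submodule.subset_span ⟨x, ?_, rfl⟩)
      exact_mod_cast hx
  -- a bijection between the complements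
  have hτ : Nonempty ({x // x ∉ I} ≃ {y // y ∉ I'}) := by
    rw [← Fintype.card_eq, Fintype.card_subtype_compl, Fintype.card_subtype_compl]
    rw [Set.toFinset_card, Set.toFinset_card] at hcard
    rw [show Fintype.card {x // x ∈ I} = Fintype.card {x // x ∈ I'} from hcard]
  obtain ⟨τ⟩ := hτ
  let A : FreeLieAlgebra k X →ₗ⁅k⁆ FreeLieAlgebra k X :=
    FreeLieAlgebra.lift k fun x =>
      if h : x ∈ I then Φ (FreeLieAlgebra.of k x) else FreeLieAlgebra.of k (τ ⟨x, h⟩ : X)
  let B : FreeLieAlgebra k X →ₗ⁅k⁆ FreeLieAlgebra k X :=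
    FreeLieAlgebra.lift k fun y =>
      if h : y ∈ I' then q y else FreeLieAlgebra.of k (τ.symm ⟨y, h⟩ : X)
  have hA : ∀ x, A (FreeLieAlgebra.of k x) =
      if h : x ∈ I then Φ (FreeLieAlgebra.of k x) else FreeLieAlgebra.of k (τ ⟨x, h⟩ : X) :=
    fun x => FreeLieAlgebra.lift_of_apply _ _
  have hB : ∀ y, B (FreeLieAlgebra.of k y) =
      if h : y ∈ I' then q y else FreeLieAlgebra.of k (τ.symm ⟨y, h⟩ : X) :=
    fun y => FreeLieAlgebra.lift_of_apply _ _
  have hAΦ : ∀ w ∈ Kf k I, A w = Φ w := fun w hw =>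
    eqOn_Kf (f := A) (g := Φ) (fun x hx => by rw [hA, dif_pos hx]) hw
  have hΦB : ∀ w' ∈ Kf k I', Φ (B w') = w' := fun w' hw' =>
    eqOn_Kf (f := Φ.comp B) (g := _root_.LieHom.id) (fun y hy => by
      rw [_root_.LieHom.comp_apply, hB, dif_pos hy, (hq y hy).2]
      rfl) hw'
  have hAB : A.comp B = _root_.LieHom.id := by
    refine FreeLieAlgebra.hom_ext fun y => ?_
    rw [_root_.LieHom.comp_apply, _root_.LieHom.id_apply, hB]
    split_ifs with hy
    · rw [hAΦ _ (hq y hy).1, (hq y hy).2]
    · rw [hA, dif_neg (τ.symm ⟨y, hy⟩).2]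
      rw [Subtype.coe_eta, Equiv.apply_symm_apply]
  have hBA : B.comp A = _root_.LieHom.id := by
    refine FreeLieAlgebra.hom_ext fun x => ?_
    rw [_root_.LieHom.comp_apply, _root_.LieHom.id_apply, hA]
    split_ifs with hx
    · exact hΦ (hΦB _ (h1 _ (of_mem_Kf hx)))
    · rw [hB, dif_neg (τ ⟨x, hx⟩).2]
      rw [Subtype.coe_eta, Equiv.symm_apply_apply]
  have hAB' : ∀ z, A (B z) = z := fun z => _root_.LieHom.congr_fun hAB z
  have hBA' : ∀ z, B (A z) = z := fun z => _root_.LieHom.congr_fun hBA z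
  refine ⟨LieEquiv.ofBijective A ⟨Function.LeftInverse.injective hBA',
    Function.RightInverse.surjective hAB'⟩, fun w hw => hAΦ w hw⟩

end Pool.Agent.H84.LieHom.FA
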