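import Mathlib
import Pool.Agent.H84.LieHom.Lang
import Pool.Agent.H84.LieHom.Extend

/-!
A first-order formula that holds for the basis of a free Lie algebra and implies that a tuple
generates a free subalgebra freely.
-/

set_option autoImplicit false

namespace Pool.Agent.H84.LieHom

open FirstOrder

universe u v

section formula

variable {k : Type u} {L : Type v} [CommRing k] [LieRing L] [LieAlgebra k L]

/-- The sum of a family of terms. -/
def tsum {α : Type*} : (n : ℕ) → (Fin n → (lieLang k).Term α) → (lieLang k).Term α
  | 0, _ => tzero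
  | n + 1, t => tadd (tsum n fun i => t i.castSucc) (t (Fin.last n))

lemma realize_tsum {α : Type*} (v : α → L) (n : ℕ) (t : Fin n → (lieLang k).Term α) :
    (tsum n t).realize v = ∑ i, (t i).realize v := by
  induction n with
  | zero => simp [tsum]
  | succ n ih => rw [tsum, realize_tadd, ih, Fin.sum_univ_castSucc]

variable (k) in
/-- The sum of the second block of variables is a sum of `r` brackets. -/
noncomputable def brFormula (r : ℕ) : (lieLang k).Formula (Fin r ⊕ Fin r) :=
  FirstOrder.Language.Formula.iExs (Fin r ⊕ Fin r)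
    (FirstOrder.Language.Term.equal
      (tsum r fun i => (FirstOrder.Language.Term.var (Sum.inl (Sum.inr i)) :
        (lieLang k).Term ((Fin r ⊕ Fin r) ⊕ (Fin r ⊕ Fin r))))
      (tsum r fun i => tbr (FirstOrder.Language.Term.var (Sum.inr (Sum.inl i)))
        (FirstOrder.Language.Term.var (Sum.inr (Sum.inr i)))))

lemma realize_brFormula (r : ℕ) (v : Fin r ⊕ Fin r → L) :
    (brFormula k r).Realize v ↔ ∃ a b : Fin r → L, ∑ i, v (Sum.inr i) = ∑ i, ⁅a i, b i⁆ := by
  simp only [brFormula, FirstOrder.Language.Formula.realize_iExs,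
    FirstOrder.Language.Formula.realize_equal, realize_tsum, realize_tbr,
    FirstOrder.Language.Term.realize_var, Sum.elim_inl, Sum.elim_inr]
  constructor
  · rintro ⟨i, hi⟩
    exact ⟨fun j => i (Sum.inl j), fun j => i (Sum.inr j), hi⟩
  · rintro ⟨a, b, h⟩
    exact ⟨Sum.elim a b, by simpa using h⟩

/-- The property expressed by the formula: the elements `y i` are non-zero, and a sum of elements
commuting with the `y i` respectively is a sum of `r` brackets only if all summands are zero. -/
def Ind {r : ℕ} (y : Fin r → L) : Prop :=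
  (∀ i, y i ≠ 0) ∧ ∀ c : Fin r → L, (∀ i, ⁅c i, y i⁆ = 0) →
    (∃ a b : Fin r → L, ∑ i, c i = ∑ i, ⁅a i, b i⁆) → ∀ i, c i = 0

variable (k) in
/-- The formula expressing the property. -/
noncomputable def indFormula (r : ℕ) : (lieLang k).Formula (Fin r) :=
  (FirstOrder.Language.Formula.iInf fun i : Fin r =>
    (FirstOrder.Language.Term.equal (FirstOrder.Language.Term.var i : (lieLang k).Term (Fin r))
      tzero).not) ⊓
  FirstOrder.Language.Formula.iAlls (Fin r)
    (((FirstOrder.Language.Formula.iInf fun i : Fin r =>
      FirstOrder.Language.Term.equal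
        (tbr (FirstOrder.Language.Term.var (Sum.inr i))
          (FirstOrder.Language.Term.var (Sum.inl i)) : (lieLang k).Term (Fin r ⊕ Fin r))
        tzero) ⊓ brFormula k r).imp
      (FirstOrder.Language.Formula.iInf fun i : Fin r =>
        FirstOrder.Language.Term.equal
          (FirstOrder.Language.Term.var (Sum.inr i) : (lieLang k).Term (Fin r ⊕ Fin r)) tzero))

lemma realize_indFormula (r : ℕ) (y : Fin r → L) : (indFormula k r).Realize y ↔ Ind y := by
  have h1 : ∀ c : Fin r → L, (brFormula k r).Realize (fun a => Sum.elim y c a) ↔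
      ∃ a b : Fin r → L, ∑ i, c i = ∑ i, ⁅a i, b i⁆ := by
    intro c
    rw [realize_brFormula]
    simp only [Sum.elim_inr]
  rw [indFormula, FirstOrder.Language.Formula.realize_inf,
    FirstOrder.Language.Formula.realize_iAlls]
  simp only [FirstOrder.Language.Formula.realize_imp, FirstOrder.Language.Formula.realize_inf,
    FirstOrder.Language.Formula.realize_iInf, FirstOrder.Language.Formula.realize_not,
    FirstOrder.Language.Formula.realize_equal, realize_tbr, realize_tzero,
    FirstOrder.Language.Term.realize_var, Sum.elim_inl, Sum.elim_inr, h1, Ind]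
  constructor
  · rintro ⟨h2, h3⟩
    exact ⟨h2, fun c hc hc' => h3 c ⟨hc, hc'⟩⟩
  · rintro ⟨h2, h3⟩
    exact ⟨h2, fun c hc => h3 c hc.1 hc.2⟩

end formula

end Pool.Agent.H84.LieHom
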