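import Mathlib
import Pool.Agent.H84.LieHom.IndFormula

/-!
The property `Ind` holds for the basis of a free Lie algebra of finite rank, and implies that the
substitution is injective.
-/

set_option autoImplicit false

namespace Pool.Agent.H84.LieHom.FA

open FreeAlgebra

variable {k X : Type*} [Field k]

/-- The subalgebra generated by one element is the line through it. -/
lemma lieSpan_singleton {L : Type*} [LieRing L] [LieAlgebra k L] {v l : L}
    (hl : l ∈ LieSubalgebra.lieSpan k L {v}) : ∃ c : k, l = c • v := by
  let G : LieSubalgebra k L :=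
    { Submodule.span k {v} with
      lie_mem' := fun {a b} ha hb => by
        obtain ⟨s, rfl⟩ := Submodule.mem_span_singleton.1 ha
        obtain ⟨t, rfl⟩ := Submodule.mem_span_singleton.1 hb
        rw [smul_lie, lie_smul, lie_self, smul_zero, smul_zero]
        exact (Submodule.span k {v}).zero_mem }
  have h : LieSubalgebra.lieSpan k L {v} ≤ G := by
    rw [LieSubalgebra.lieSpan_le]
    rintro _ rfl
    exact Submodule.subset_span rfl
  obtain ⟨c, hc⟩ := Submodule.mem_span_singleton.1 (h hl)
  exact ⟨c, hc.symm⟩

/-- The centraliser of a generator is the line through it. -/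
theorem centralizer [Fintype X] [DecidableEq X] (x : X) (l : FreeLieAlgebra k X)
    (hl : ⁅l, FreeLieAlgebra.of k x⁆ = 0) : ∃ c : k, l = c • FreeLieAlgebra.of k x := by
  have hcomm : emb l * ι k x = ι k x * emb l := by
    have h1 := congrArg emb hl
    rw [emb_lie, emb_of, map_zero, sub_eq_zero] at h1
    exact h1
  have hx : Homog (one X) 1 (ι k x) := by
    intro m
    rw [comp_ι]
    change (if 1 = m then _ else _) = _
    by_cases h : m = 1
    · rw [if_pos h.symm, if_pos h]
    · rw [if_neg (fun h' => h h'.symm), if_neg h]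
  have hcomp : ∀ n, comp (one X) n (emb l) * ι k x = ι k x * comp (one X) n (emb l) := by
    intro n
    have h1 := congrArg (comp (one X) (n + 1)) hcomm
    rw [comp_mul_homog (one X) hx, if_pos (by omega), Nat.add_sub_cancel, comp_mul] at h1
    rw [h1, Finset.sum_eq_single (1, n)]
    · rw [hx, if_pos rfl]
    · intro p hp hpn
      have hp' := Finset.HasAntidiagonal.mem_antidiagonal.1 hp
      have h2 : p.1 ≠ 1 := by
        intro h2
        exact hpn (Prod.ext h2 (by change p.2 = n; omega))
      rw [hx, if_neg h2, zero_mul]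
    · intro h2
      exact absurd (Finset.HasAntidiagonal.mem_antidiagonal.2
        (by change 1 + n = n + 1; omega)) h2
  have htop : l ∈ LieSubalgebra.lieSpan k (FreeLieAlgebra k X)
      (FreeLieAlgebra.of k '' Set.univ) := by
    rw [Set.image_univ, lieSpan_range_of]
    exact LieSubalgebra.mem_top l
  have h1 := fun i => comp_mem (one X) Set.univ l htop i
  choose c _ hc' using h1
  have key : ∀ n, ∃ s : k, c n = s • FreeLieAlgebra.of k x := by
    intro n
    by_contra hcon
    push Not at hcon
    have hinj := free_of_independent (one X) (fun _ => Nat.one_pos)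
      (![c n, FreeLieAlgebra.of k x] : Fin 2 → FreeLieAlgebra k X) ![n, 1] (by
        intro j
        fin_cases j
        · change Homog (one X) n (emb (c n))
          rw [hc']
          exact homog_comp _ _ _
        · change Homog (one X) 1 (emb (FreeLieAlgebra.of k x))
          rw [emb_of]
          exact hx) (by
        intro j hj
        fin_cases j
        · have h2 : (![c n, FreeLieAlgebra.of k x] : Fin 2 → FreeLieAlgebra k X) ''
              {i | i ≠ 0} = {FreeLieAlgebra.of k x} := by
            ext w
            constructor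
            · rintro ⟨i, hi, rfl⟩
              fin_cases i
              · exact absurd rfl hi
              · rfl
            · rintro rfl
              exact ⟨1, by decide, rfl⟩
          change c n ∈ LieSubalgebra.lieSpan k (FreeLieAlgebra k X)
            ((![c n, FreeLieAlgebra.of k x] : Fin 2 → FreeLieAlgebra k X) '' {i | i ≠ 0}) at hj
          rw [h2] at hj
          obtain ⟨s, hs⟩ := lieSpan_singleton hj
          exact hcon s hs
        · have h2 : (![c n, FreeLieAlgebra.of k x] : Fin 2 → FreeLieAlgebra k X) ''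
              {i | i ≠ 1} = {c n} := by
            ext w
            constructor
            · rintro ⟨i, hi, rfl⟩
              fin_cases i
              · rfl
              · exact absurd rfl hi
            · rintro rfl
              exact ⟨0, by decide, rfl⟩
          change FreeLieAlgebra.of k x ∈ LieSubalgebra.lieSpan k (FreeLieAlgebra k X)
            ((![c n, FreeLieAlgebra.of k x] : Fin 2 → FreeLieAlgebra k X) '' {i | i ≠ 1}) at hj
          rw [h2] at hj
          obtain ⟨s, hs⟩ := lieSpan_singleton hj
          have hs0 : s ≠ 0 := by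
            rintro rfl
            rw [zero_smul] at hs
            have h5 := congrArg (lin x) hs
            rw [lin_of, if_pos rfl, map_zero] at h5
            exact one_ne_zero h5
          refine hcon s⁻¹ ?_
          rw [hs, smul_smul, inv_mul_cancel₀ hs0, one_smul])
    have h3 : (ι k (0 : Fin 2) * ι k 1 : FreeAlgebra k (Fin 2)) = ι k 1 * ι k 0 := by
      apply hinj
      rw [map_mul, map_mul, FreeAlgebra.lift_ι_apply, FreeAlgebra.lift_ι_apply]
      change emb (c n) * emb (FreeLieAlgebra.of k x) = emb (FreeLieAlgebra.of k x) * emb (c n)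
      rw [hc', emb_of]
      exact hcomp n
    have h4 := congrArg (der (0 : Fin 2)) h3
    rw [der_mul, der_mul, eps_ι, eps_ι, zero_smul, zero_smul, zero_add, zero_add, der_ι, der_ι,
      if_pos rfl, if_neg (by decide), one_mul, zero_mul] at h4
    have h5 := congrArg (der (1 : Fin 2)) h4
    rw [der_ι, if_pos rfl, map_zero] at h5
    have h6 := congrArg eps h5
    rw [map_one, map_zero] at h6
    exact one_ne_zero h6
  choose s hs using key
  refine ⟨∑ i ∈ Finset.range (deg (one X) (emb l) + 1), s i, ?_⟩
  apply emb_injective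
  rw [Finset.sum_smul, map_sum]
  conv_lhs => rw [← sum_comp (one X) (emb l) _ le_rfl]
  refine Finset.sum_congr rfl fun i _ => ?_
  rw [← hc', hs]

/-- The property holds for the generators. -/
theorem ind_of (r : ℕ) : Ind (FreeLieAlgebra.of k : Fin r → FreeLieAlgebra k (Fin r)) := by
  constructor
  · intro i h
    have h5 := congrArg (lin i) h
    rw [lin_of, if_pos rfl, map_zero] at h5
    exact one_ne_zero h5
  · rintro c hc ⟨a, b, hab⟩
    have h1 := fun i => centralizer i (c i) (hc i)
    choose s hs using h1
    intro i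
    have h2 := congrArg (lin i) hab
    rw [map_sum, map_sum, Finset.sum_eq_single i, Finset.sum_eq_zero] at h2
    · rw [hs, map_smul, lin_of, if_pos rfl, smul_eq_mul, mul_one] at h2
      rw [hs, h2, zero_smul]
    · intro j _
      exact lin_lie _ _ _
    · intro j _ hj
      rw [hs, map_smul, lin_of, if_neg hj, smul_zero]
    · intro h
      exact absurd (Finset.mem_univ i) h

/-- Every element of the derived algebra is a sum of brackets with the generators. -/
lemma exists_sum_brackets {L : Type*} [LieRing L] [LieAlgebra k L] {r : ℕ} (x : Fin r → L)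
    (hx : LieSubalgebra.lieSpan k L (Set.range x) = ⊤) (z : L) (hz : z ∈ brSpan k L) :
    ∃ b : Fin r → L, z = ∑ i, ⁅x i, b i⁆ := by
  have key : ∀ u w : L, ∃ b : Fin r → L, ⁅u, w⁆ = ∑ i, ⁅x i, b i⁆ := by
    intro u
    refine generators_induction hx (fun u => ∀ w, ∃ b : Fin r → L, ⁅u, w⁆ = ∑ i, ⁅x i, b i⁆)
      ?_ ?_ ?_ ?_ ?_ u
    · intro w; exact ⟨0, by simp⟩
    · intro i w
      refine ⟨Pi.single i w, ?_⟩
      rw [Finset.sum_eq_single i]
      · rw [Pi.single_eq_same]
      · intro j _ hj
        rw [Pi.single_eq_of_ne hj, lie_zero]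
      · intro h
        exact absurd (Finset.mem_univ i) h
    · intro a b ha hb w
      obtain ⟨c, hc⟩ := ha w
      obtain ⟨d, hd⟩ := hb w
      refine ⟨c + d, ?_⟩
      rw [add_lie, hc, hd, ← Finset.sum_add_distrib]
      exact Finset.sum_congr rfl fun i _ => by rw [Pi.add_apply, lie_add]
    · intro s a ha w
      obtain ⟨c, hc⟩ := ha w
      refine ⟨s • c, ?_⟩
      rw [smul_lie, hc, Finset.smul_sum]
      exact Finset.sum_congr rfl fun i _ => by rw [Pi.smul_apply, lie_smul]
    · intro a b ha hb w
      obtain ⟨c, hc⟩ := ha ⁅b, w⁆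
      obtain ⟨d, hd⟩ := hb ⁅a, w⁆
      refine ⟨c - d, ?_⟩
      rw [lie_lie, hc, hd, ← Finset.sum_sub_distrib]
      exact Finset.sum_congr rfl fun i _ => by rw [Pi.sub_apply, lie_sub]
  rw [brSpan] at hz
  induction hz using Submodule.span_induction with
  | mem z hz =>
    obtain ⟨a, b, rfl⟩ := hz
    exact key a b
  | zero => exact ⟨0, by simp⟩
  | add a b _ _ ha hb =>
    obtain ⟨c, rfl⟩ := ha
    obtain ⟨d, rfl⟩ := hb
    refine ⟨c + d, ?_⟩
    rw [← Finset.sum_add_distrib]
    exact Finset.sum_congr rfl fun i _ => by rw [Pi.add_apply, lie_add]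
  | smul s a _ ha =>
    obtain ⟨c, rfl⟩ := ha
    refine ⟨s • c, ?_⟩
    rw [Finset.smul_sum]
    exact Finset.sum_congr rfl fun i _ => by rw [Pi.smul_apply, lie_smul]

/-- The lower central series lies in high degree. -/
lemma comp_lc (n : ℕ) : ∀ z ∈ lc k (FreeLieAlgebra k X) n, ∀ m, m ≤ n →
    comp (one X) m (emb z) = 0 := by
  have h0 : ∀ z : FreeLieAlgebra k X, comp (one X) 0 (emb z) = 0 := by
    intro z
    rw [comp_zero_eq (one X) (fun _ => Nat.one_pos), eps_emb, map_zero]
  induction n with
  | zero =>
    intro z _ m hm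
    rw [Nat.le_zero.1 hm]
    exact h0 z
  | succ n ih =>
    intro z hz m hm
    have hz' : z ∈ (lc k (FreeLieAlgebra k X) (n + 1)).toSubmodule := hz
    rw [lc_succ_toSubmodule] at hz'
    clear hz
    induction hz' using Submodule.span_induction with
    | mem z hz =>
      obtain ⟨a, b, hb, rfl⟩ := hz
      rw [emb_lie, map_sub, comp_mul, comp_mul, Finset.sum_eq_zero, Finset.sum_eq_zero, sub_zero]
      · intro p hp
        have hp' := Finset.HasAntidiagonal.mem_antidiagonal.1 hp
        by_cases h : p.2 = 0
        · rw [h, h0, mul_zero]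
        · rw [ih b hb p.1 (by omega), zero_mul]
      · intro p hp
        have hp' := Finset.HasAntidiagonal.mem_antidiagonal.1 hp
        by_cases h : p.1 = 0
        · rw [h, h0, zero_mul]
        · rw [ih b hb p.2 (by omega), mul_zero]
    | zero => rw [map_zero, map_zero]
    | add a b _ _ ha hb => rw [map_add, map_add, ha, hb, add_zero]
    | smul s a _ ha => rw [map_smul, map_smul, ha, smul_zero]

lemma eq_zero_of_mem_lc {z : FreeLieAlgebra k X} (hz : ∀ n, z ∈ lc k (FreeLieAlgebra k X) n) :
    z = 0 := by
  apply emb_injective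
  rw [map_zero]
  exact eq_zero_of_comp (one X) fun n => comp_lc n z (hz n) n le_rfl

/-- The free Lie algebra of rank `r`. -/
abbrev FL (k : Type*) [Field k] (r : ℕ) := FreeLieAlgebra k (Fin r)

/-- The property implies that the substitution is injective. -/
theorem injective_of_ind (r : ℕ) (y : Fin r → FreeLieAlgebra k (Fin r)) (hy : Ind y) :
    Function.Injective (FreeLieAlgebra.lift k y) := by
  classical
  set φ := FreeLieAlgebra.lift k y with hφ
  have hφof : ∀ i, φ (FreeLieAlgebra.of k i) = y i := fun i => FreeLieAlgebra.lift_of_apply _ _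
  have hgen := lieSpan_range_of k (Fin r)
  -- independence modulo the derived algebra
  have hli : LinearIndependent k (fun i => (brSpan k (FL k r)).mkQ (y i)) := by
    rw [Fintype.linearIndependent_iff]
    intro s hs i
    have h1 : ∑ i, s i • y i ∈ brSpan k (FL k r) := by
      rw [← Submodule.ker_mkQ (brSpan k (FL k r)), LinearMap.mem_ker, map_sum, ← hs]
      exact Finset.sum_congr rfl fun i _ => map_smul _ _ _
    obtain ⟨b, hb⟩ := exists_sum_brackets (FreeLieAlgebra.of k) hgen _ h1
    have h2 := hy.2 (fun i => s i • y i) (fun i => by rw [smul_lie, lie_self, smul_zero])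
      ⟨_, b, hb⟩ i
    exact (smul_eq_zero.1 h2).resolve_right (hy.1 i)
  have hspan_of : Submodule.span k (Set.range fun i => (brSpan k (FL k r)).mkQ
      (FreeLieAlgebra.of k i : FL k r)) = ⊤ := by
    rw [eq_top_iff]
    intro v _
    obtain ⟨z, rfl⟩ := (brSpan k (FL k r)).mkQ_surjective v
    obtain ⟨w, hw, hwz⟩ := exists_span_add_brSpan _ hgen z
    have h2 : (brSpan k (FL k r)).mkQ z = (brSpan k (FL k r)).mkQ w := by
      rw [← sub_eq_zero, ← map_sub, ← LinearMap.mem_ker, Submodule.ker_mkQ]
      exact hwz
    have h4 : (Set.range fun i => (brSpan k (FL k r)).mkQ (FreeLieAlgebra.of k i : FL k r)) =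
        (brSpan k (FL k r)).mkQ '' Set.range (FreeLieAlgebra.of k) := by
      ext z; simp
    rw [h2, h4, ← Submodule.map_span]
    exact ⟨w, hw, rfl⟩
  have hfin : Module.Finite k (FL k r ⧸ brSpan k (FL k r)) := by
    refine ⟨?_⟩
    rw [← hspan_of]
    exact Submodule.fg_span (Set.finite_range _)
  have hrank : Module.finrank k (FL k r ⧸ brSpan k (FL k r)) ≤ r := by
    have h2 := finrank_range_le_card (R := k) (fun i => (brSpan k (FL k r)).mkQ
      (FreeLieAlgebra.of k i : FL k r))
    rw [Set.finrank, hspan_of, finrank_top, Fintype.card_fin] at h2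
    exact h2
  have hspan : Submodule.span k (Set.range fun i => (brSpan k (FL k r)).mkQ (y i)) = ⊤ := by
    refine hli.span_eq_top_of_card_eq_finrank' ?_
    rw [Fintype.card_fin]
    have h1 := hli.fintype_card_le_finrank
    rw [Fintype.card_fin] at h1
    omega
  have happrox : ∀ z : FL k r, ∃ a ∈ φ.range, z - a ∈ brSpan k (FL k r) := by
    intro z
    have h3 : (brSpan k (FL k r)).mkQ z ∈ Submodule.span k (Set.range fun i => (brSpan k (FL k r)).mkQ (y i)) := by
      rw [hspan]; trivial
    have h4 : (Set.range fun i => (brSpan k (FL k r)).mkQ (y i)) = (brSpan k (FL k r)).mkQ '' Set.range y := by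
      ext z; simp
    rw [h4, ← Submodule.map_span] at h3
    obtain ⟨w, hw, hwz⟩ := h3
    refine ⟨w, ?_, ?_⟩
    · have h5 : Submodule.span k (Set.range y) ≤ φ.range.toSubmodule := by
        rw [Submodule.span_le]
        rintro _ ⟨i, rfl⟩
        exact ⟨FreeLieAlgebra.of k i, hφof i⟩
      exact h5 hw
    · rw [← Submodule.ker_mkQ (brSpan k (FL k r)), LinearMap.mem_ker, map_sub, hwz, sub_self]
  rw [injective_iff_map_eq_zero]
  intro z hz
  refine eq_zero_of_mem_lc fun n => ?_
  -- the induced map on the quotient by the lower central series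
  have hle : (lc k (FL k r) n).toSubmodule ≤ (lc k (FL k r) n).toSubmodule.comap (φ : FL k r →ₗ[k] FL k r) := by
    intro w hw
    exact lcs_fullyInvariant n φ w hw
  let Φ : (FL k r ⧸ (lc k (FL k r) n).toSubmodule) →ₗ[k] (FL k r ⧸ (lc k (FL k r) n).toSubmodule) :=
    Submodule.mapQ _ _ (φ : FL k r →ₗ[k] FL k r) hle
  have hfin' : Module.Finite k (FL k r ⧸ (lc k (FL k r) n).toSubmodule) := by
    obtain ⟨W, hW, h⟩ := exists_fg_complement _ hgen n
    refine ⟨?_⟩
    have h1 : W.map (lc k (FL k r) n).toSubmodule.mkQ = ⊤ := by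
      rw [eq_top_iff]
      intro v _
      obtain ⟨z, rfl⟩ := (lc k (FL k r) n).toSubmodule.mkQ_surjective v
      obtain ⟨w, hw, hwz⟩ := h z
      refine ⟨w, hw, ?_⟩
      rw [← sub_eq_zero, ← map_sub, ← LinearMap.mem_ker, Submodule.ker_mkQ]
      have h2 := neg_mem (S := LieIdeal k (FL k r)) hwz
      rwa [neg_sub] at h2
    rw [← h1]
    exact hW.map _
  have hsurj : Function.Surjective Φ := by
    intro v
    obtain ⟨z, rfl⟩ := (lc k (FL k r) n).toSubmodule.mkQ_surjective v
    obtain ⟨a, ⟨w, rfl⟩, ha⟩ := approx_top φ.range happrox n z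
    refine ⟨(lc k (FL k r) n).toSubmodule.mkQ w, ?_⟩
    have h1 : Φ ((lc k (FL k r) n).toSubmodule.mkQ w) = (lc k (FL k r) n).toSubmodule.mkQ (φ w) :=
      Submodule.mapQ_apply _ _ _ _
    rw [h1, ← sub_eq_zero, ← map_sub, ← LinearMap.mem_ker, Submodule.ker_mkQ]
    have h2 := neg_mem (S := LieIdeal k (FL k r)) ha
    rwa [neg_sub] at h2
  have hinj : Function.Injective Φ := LinearMap.injective_iff_surjective.2 hsurj
  have h1 : Φ ((lc k (FL k r) n).toSubmodule.mkQ z) = 0 := by
    have h2 : Φ ((lc k (FL k r) n).toSubmodule.mkQ z) = (lc k (FL k r) n).toSubmodule.mkQ (φ z) :=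
      Submodule.mapQ_apply _ _ _ _
    rw [h2, hz, map_zero]
  have h2 := hinj (h1.trans (map_zero Φ).symm)
  rw [← LinearMap.mem_ker, Submodule.ker_mkQ] at h2
  exact h2

end Pool.Agent.H84.LieHom.FA
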