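import Mathlib
import Pool.Agent.H84.LieHom.Lang
import Pool.Agent.H84.LieHom.Cosets

/-!
A criterion for two tuples of a Lie algebra with an abelian ideal of finite index to have the
same type.
-/

set_option autoImplicit false

namespace Pool.Agent.H84.LieHom

open FirstOrder

universe u v

variable {k : Type u} {S : Type v} [CommRing k] [LieRing S] [LieAlgebra k S]

/-- On a coset of an abelian ideal the terms are affine. -/
lemma term_affine (M : LieIdeal k S) (hM : ∀ a ∈ M, ∀ b ∈ M, ⁅a, b⁆ = 0) {α : Type*}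
    (t : (lieLang k).Term α) (p q r : α → S) (hpq : ∀ i, p i - q i ∈ M) (hrq : ∀ i, r i - q i ∈ M) :
    t.realize (fun i => p i - q i + r i) = t.realize p - t.realize q + t.realize r ∧
      t.realize p - t.realize q ∈ M ∧ t.realize r - t.realize q ∈ M := by
  induction t with
  | var i => exact ⟨rfl, hpq i, hrq i⟩
  | @func l g ts ih =>
    change LieFunc k l at g
    cases g with
    | zero =>
      change (0 : S) = 0 - 0 + 0 ∧ (0 : S) - 0 ∈ M ∧ (0 : S) - 0 ∈ M
      simp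
    | neg =>
      obtain ⟨h1, h2, h3⟩ := ih 0
      change - ((ts 0).realize fun i => p i - q i + r i) =
          - (ts 0).realize p - - (ts 0).realize q + - (ts 0).realize r ∧
        - (ts 0).realize p - - (ts 0).realize q ∈ M ∧ - (ts 0).realize r - - (ts 0).realize q ∈ M
      rw [h1]
      refine ⟨by abel, ?_, ?_⟩
      · rw [neg_sub_neg, ← neg_sub]; exact neg_mem h2
      · rw [neg_sub_neg, ← neg_sub]; exact neg_mem h3
    | smul c =>
      obtain ⟨h1, h2, h3⟩ := ih 0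
      change c • ((ts 0).realize fun i => p i - q i + r i) =
          c • (ts 0).realize p - c • (ts 0).realize q + c • (ts 0).realize r ∧
        c • (ts 0).realize p - c • (ts 0).realize q ∈ M ∧
        c • (ts 0).realize r - c • (ts 0).realize q ∈ M
      rw [h1]
      refine ⟨by rw [smul_add, smul_sub], ?_, ?_⟩
      · rw [← smul_sub]; exact M.smul_mem c h2
      · rw [← smul_sub]; exact M.smul_mem c h3
    | add =>
      obtain ⟨h1, h2, h3⟩ := ih 0
      obtain ⟨h1', h2', h3'⟩ := ih 1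
      change ((ts 0).realize fun i => p i - q i + r i) + ((ts 1).realize fun i => p i - q i + r i) =
          ((ts 0).realize p + (ts 1).realize p) - ((ts 0).realize q + (ts 1).realize q) +
            ((ts 0).realize r + (ts 1).realize r) ∧
        ((ts 0).realize p + (ts 1).realize p) - ((ts 0).realize q + (ts 1).realize q) ∈ M ∧
        ((ts 0).realize r + (ts 1).realize r) - ((ts 0).realize q + (ts 1).realize q) ∈ M
      rw [h1, h1']
      refine ⟨by abel, ?_, ?_⟩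
      · rw [add_sub_add_comm]; exact add_mem h2 h2'
      · rw [add_sub_add_comm]; exact add_mem h3 h3'
    | bracket =>
      obtain ⟨h1, h2, h3⟩ := ih 0
      obtain ⟨h1', h2', h3'⟩ := ih 1
      change ⁅((ts 0).realize fun i => p i - q i + r i), ((ts 1).realize fun i => p i - q i + r i)⁆ =
          ⁅(ts 0).realize p, (ts 1).realize p⁆ - ⁅(ts 0).realize q, (ts 1).realize q⁆ +
            ⁅(ts 0).realize r, (ts 1).realize r⁆ ∧
        ⁅(ts 0).realize p, (ts 1).realize p⁆ - ⁅(ts 0).realize q, (ts 1).realize q⁆ ∈ M ∧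
        ⁅(ts 0).realize r, (ts 1).realize r⁆ - ⁅(ts 0).realize q, (ts 1).realize q⁆ ∈ M
      rw [h1, h1']
      generalize (ts 0).realize p = a₁ at *
      generalize (ts 0).realize q = a₂ at *
      generalize (ts 0).realize r = a₃ at *
      generalize (ts 1).realize p = b₁ at *
      generalize (ts 1).realize q = b₂ at *
      generalize (ts 1).realize r = b₃ at *
      have e1 : ∀ a b : S, a - a₂ ∈ M → b - b₂ ∈ M → ⁅a, b⁆ - ⁅a₂, b₂⁆ ∈ M := by
        intro a b ha hb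
        have e : ⁅a, b⁆ - ⁅a₂, b₂⁆ = ⁅a, b - b₂⁆ + ⁅a - a₂, b₂⁆ := by
          rw [lie_sub, sub_lie]; abel
        rw [e]
        exact add_mem (M.lie_mem hb) (lie_mem_left k S M _ _ ha)
      refine ⟨?_, e1 _ _ h2 h2', e1 _ _ h3 h3'⟩
      have z1 := hM _ h2 _ h3'
      have z2 := hM _ h3 _ h2'
      simp only [lie_add, add_lie, lie_sub, sub_lie] at z1 z2 ⊢
      have e2 : ⁅a₁, b₁⁆ - ⁅a₂, b₁⁆ + ⁅a₃, b₁⁆ - (⁅a₁, b₂⁆ - ⁅a₂, b₂⁆ + ⁅a₃, b₂⁆) +
          (⁅a₁, b₃⁆ - ⁅a₂, b₃⁆ + ⁅a₃, b₃⁆) = ⁅a₁, b₁⁆ - ⁅a₂, b₂⁆ + ⁅a₃, b₃⁆ +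
          (⁅a₁, b₃⁆ - ⁅a₂, b₃⁆ - (⁅a₁, b₂⁆ - ⁅a₂, b₂⁆)) +
          (⁅a₃, b₁⁆ - ⁅a₂, b₁⁆ - (⁅a₃, b₂⁆ - ⁅a₂, b₂⁆)) := by abel
      rw [e2, z1, z2, add_zero, add_zero]

/-- The sets used to decide formulas: affine, contained in one coset of the ideal, invariant
under the two endomorphisms. -/
structure Good (M : LieIdeal k S) (φ ψ : S →ₗ⁅k⁆ S) {m n : ℕ}
    (X : Set ((Fin m → S) × (Fin n → S))) : Prop where
  aff : ∀ p ∈ X, ∀ q ∈ X, ∀ r ∈ X, p - q + r ∈ X
  coset : ∀ p ∈ X, ∀ q ∈ X, (∀ i, p.1 i - q.1 i ∈ M) ∧ ∀ j, p.2 j - q.2 j ∈ M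
  inv₁ : ∀ p ∈ X, ((fun i => φ (p.1 i), fun j => φ (p.2 j)) : (Fin m → S) × (Fin n → S)) ∈ X
  inv₂ : ∀ p ∈ X, ((fun i => ψ (p.1 i), fun j => ψ (p.2 j)) : (Fin m → S) × (Fin n → S)) ∈ X

lemma snoc_sub_add {n : ℕ} (a b c : Fin n → S) (x y z : S) :
    (Fin.snoc (a - b + c) (x - y + z) : Fin (n + 1) → S) =
      Fin.snoc a x - Fin.snoc b y + Fin.snoc c z := by
  funext i
  refine Fin.lastCases ?_ (fun j => ?_) i
  · simp
  · simp

/-- Satisfaction of a formula is decided by membership in finitely many good sets. -/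
lemma exists_good (M : LieIdeal k S) (hM : ∀ a ∈ M, ∀ b ∈ M, ⁅a, b⁆ = 0) [Finite (S ⧸ M)]
    (φ ψ : S →ₗ⁅k⁆ S) (hφ : ∀ z, φ z - z ∈ M) (hψ : ∀ z, ψ z - z ∈ M) {m : ℕ} {n : ℕ}
    (Φ : (lieLang k).BoundedFormula (Fin m) n) :
    ∃ (ι : Type v) (_ : Fintype ι) (B : ι → Set ((Fin m → S) × (Fin n → S))),
      (∀ i, Good M φ ψ (B i)) ∧
      ∀ p q : (Fin m → S) × (Fin n → S), (∀ i, p ∈ B i ↔ q ∈ B i) →
        (Φ.Realize p.1 p.2 ↔ Φ.Realize q.1 q.2) := by
  classical
  induction Φ with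
  | falsum => exact ⟨PEmpty, inferInstance, fun i => i.elim, fun i => i.elim, fun p q _ => Iff.rfl⟩
  | @equal n t₁ t₂ =>
    let mk : S → S ⧸ M := LieSubmodule.Quotient.mk
    have hmk : ∀ a b : S, mk a = mk b ↔ a - b ∈ M := fun a b =>
      Submodule.Quotient.eq M.toSubmodule
    let _ : Fintype (S ⧸ M) := Fintype.ofFinite _
    refine ⟨(Fin m → S ⧸ M) × (Fin n → S ⧸ M), inferInstance, fun c =>
      {p | (∀ i, mk (p.1 i) = c.1 i) ∧ (∀ j, mk (p.2 j) = c.2 j) ∧
        t₁.realize (Sum.elim p.1 p.2) = t₂.realize (Sum.elim p.1 p.2)}, fun c => ?_, ?_⟩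
    · have hcos : ∀ p ∈ {p : (Fin m → S) × (Fin n → S) |
          (∀ i, mk (p.1 i) = c.1 i) ∧ (∀ j, mk (p.2 j) = c.2 j) ∧
          t₁.realize (Sum.elim p.1 p.2) = t₂.realize (Sum.elim p.1 p.2)},
          ∀ q ∈ {p : (Fin m → S) × (Fin n → S) |
          (∀ i, mk (p.1 i) = c.1 i) ∧ (∀ j, mk (p.2 j) = c.2 j) ∧
          t₁.realize (Sum.elim p.1 p.2) = t₂.realize (Sum.elim p.1 p.2)},
          (∀ i, p.1 i - q.1 i ∈ M) ∧ ∀ j, p.2 j - q.2 j ∈ M := by
        rintro p ⟨h1, h2, -⟩ q ⟨h1', h2', -⟩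
        exact ⟨fun i => (hmk _ _).1 ((h1 i).trans (h1' i).symm),
          fun j => (hmk _ _).1 ((h2 j).trans (h2' j).symm)⟩
      have hinv : ∀ χ : S →ₗ⁅k⁆ S, (∀ z, χ z - z ∈ M) → ∀ p ∈ {p : (Fin m → S) × (Fin n → S) |
          (∀ i, mk (p.1 i) = c.1 i) ∧ (∀ j, mk (p.2 j) = c.2 j) ∧
          t₁.realize (Sum.elim p.1 p.2) = t₂.realize (Sum.elim p.1 p.2)},
          ((fun i => χ (p.1 i), fun j => χ (p.2 j)) : (Fin m → S) × (Fin n → S)) ∈
          {p : (Fin m → S) × (Fin n → S) |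
          (∀ i, mk (p.1 i) = c.1 i) ∧ (∀ j, mk (p.2 j) = c.2 j) ∧
          t₁.realize (Sum.elim p.1 p.2) = t₂.realize (Sum.elim p.1 p.2)} := by
        rintro χ hχ p ⟨h1, h2, h3⟩
        refine ⟨fun i => ?_, fun j => ?_, ?_⟩
        · rw [← h1 i, hmk]; exact hχ _
        · rw [← h2 j, hmk]; exact hχ _
        · have e : (Sum.elim (fun i => χ (p.1 i)) fun j => χ (p.2 j)) =
              fun x => χ (Sum.elim p.1 p.2 x) := by
            funext x
            rcases x with x | x <;> rfl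
          change t₁.realize (Sum.elim (fun i => χ (p.1 i)) fun j => χ (p.2 j)) =
            t₂.realize (Sum.elim (fun i => χ (p.1 i)) fun j => χ (p.2 j))
          rw [e, realize_hom, realize_hom, h3]
      refine ⟨fun p hp q hq r hr => ?_, hcos, hinv φ hφ, hinv ψ hψ⟩
      have hpq := hcos p hp q hq
      have hrq := hcos r hr q hq
      have hpr := hcos p hp r hr
      have e : (Sum.elim (p - q + r).1 (p - q + r).2 : Fin m ⊕ Fin n → S) =
          fun x => Sum.elim p.1 p.2 x - Sum.elim q.1 q.2 x + Sum.elim r.1 r.2 x := by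
        funext x
        rcases x with x | x <;> rfl
      have hM1 : ∀ x, (Sum.elim p.1 p.2 x : S) - Sum.elim q.1 q.2 x ∈ M := by
        rintro (x | x)
        · exact hpq.1 x
        · exact hpq.2 x
      have hM2 : ∀ x, (Sum.elim r.1 r.2 x : S) - Sum.elim q.1 q.2 x ∈ M := by
        rintro (x | x)
        · exact hrq.1 x
        · exact hrq.2 x
      refine ⟨fun i => ?_, fun j => ?_, ?_⟩
      · rw [← hr.1 i, hmk]
        have e' : (p - q + r).1 i - r.1 i = p.1 i - q.1 i := by simp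
        rw [e']
        exact hpq.1 i
      · rw [← hr.2.1 j, hmk]
        have e' : (p - q + r).2 j - r.2 j = p.2 j - q.2 j := by simp
        rw [e']
        exact hpq.2 j
      · rw [e, (term_affine M hM t₁ _ _ _ hM1 hM2).1, (term_affine M hM t₂ _ _ _ hM1 hM2).1,
          hp.2.2, hq.2.2, hr.2.2]
    · intro p q h
      have key : ∀ p q : (Fin m → S) × (Fin n → S), (∀ c : (Fin m → S ⧸ M) × (Fin n → S ⧸ M),
          p ∈ {p : (Fin m → S) × (Fin n → S) |
          (∀ i, mk (p.1 i) = c.1 i) ∧ (∀ j, mk (p.2 j) = c.2 j) ∧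
          t₁.realize (Sum.elim p.1 p.2) = t₂.realize (Sum.elim p.1 p.2)} ↔
          q ∈ {p : (Fin m → S) × (Fin n → S) |
          (∀ i, mk (p.1 i) = c.1 i) ∧ (∀ j, mk (p.2 j) = c.2 j) ∧
          t₁.realize (Sum.elim p.1 p.2) = t₂.realize (Sum.elim p.1 p.2)}) →
          t₁.realize (Sum.elim p.1 p.2) = t₂.realize (Sum.elim p.1 p.2) →
          t₁.realize (Sum.elim q.1 q.2) = t₂.realize (Sum.elim q.1 q.2) := by
        intro p q h hp
        have h1 := (h (fun i => mk (p.1 i), fun j => mk (p.2 j))).1 ⟨fun _ => rfl, fun _ => rfl, hp⟩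
        exact h1.2.2
      exact ⟨key p q h, key q p fun c => (h c).symm⟩
  | rel R => exact R.elim
  | imp f g ihf ihg =>
    obtain ⟨ι₁, _, B₁, hB₁, h₁⟩ := ihf
    obtain ⟨ι₂, _, B₂, hB₂, h₂⟩ := ihg
    refine ⟨ι₁ ⊕ ι₂, inferInstance, Sum.elim B₁ B₂, ?_, fun p q h => ?_⟩
    · rintro (i | i)
      · exact hB₁ i
      · exact hB₂ i
    · rw [Language.BoundedFormula.realize_imp, Language.BoundedFormula.realize_imp,
        h₁ p q fun i => h (Sum.inl i), h₂ p q fun i => h (Sum.inr i)]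
  | @all n f ih =>
    obtain ⟨ι, _, B, hB, h⟩ := ih
    refine ⟨{J : Finset ι // J.Nonempty}, inferInstance, fun J =>
      {p | ∃ y : S, ∀ i ∈ J.1, ((p.1, Fin.snoc p.2 y) : (Fin m → S) × (Fin (n + 1) → S)) ∈ B i},
      fun J => ?_, ?_⟩
    · have hinv : ∀ χ : S →ₗ⁅k⁆ S, (∀ i, ∀ p ∈ B i,
          ((fun i => χ (p.1 i), fun j => χ (p.2 j)) : (Fin m → S) × (Fin (n + 1) → S)) ∈ B i) →
          ∀ p ∈ {p : (Fin m → S) × (Fin n → S) | ∃ y : S, ∀ i ∈ J.1,
            ((p.1, Fin.snoc p.2 y) : (Fin m → S) × (Fin (n + 1) → S)) ∈ B i},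
          ((fun i => χ (p.1 i), fun j => χ (p.2 j)) : (Fin m → S) × (Fin n → S)) ∈
          {p : (Fin m → S) × (Fin n → S) | ∃ y : S, ∀ i ∈ J.1,
            ((p.1, Fin.snoc p.2 y) : (Fin m → S) × (Fin (n + 1) → S)) ∈ B i} := by
        rintro χ hχ p ⟨y, hy⟩
        refine ⟨χ y, fun i hi => ?_⟩
        have h1 := hχ i _ (hy i hi)
        convert! h1 using 2
        funext j
        refine Fin.lastCases ?_ (fun j => ?_) j
        · simp
        · simp
      refine ⟨?_, ?_, hinv φ (fun i => (hB i).inv₁), hinv ψ (fun i => (hB i).inv₂)⟩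
      · rintro p ⟨yp, hp⟩ q ⟨yq, hq⟩ r ⟨yr, hr⟩
        refine ⟨yp - yq + yr, fun i hi => ?_⟩
        have h1 := (hB i).aff _ (hp i hi) _ (hq i hi) _ (hr i hi)
        convert! h1 using 1
        ext1
        · rfl
        · exact snoc_sub_add _ _ _ _ _ _
      · rintro p ⟨yp, hp⟩ q ⟨yq, hq⟩
        obtain ⟨i, hi⟩ := J.2
        have h1 := (hB i).coset _ (hp i hi) _ (hq i hi)
        refine ⟨h1.1, fun j => ?_⟩
        have h2 := h1.2 j.castSucc
        simpa using h2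
    · intro p q hpq
      have key : ∀ p q : (Fin m → S) × (Fin n → S), (∀ J : {J : Finset ι // J.Nonempty},
          (∃ y : S, ∀ i ∈ J.1, ((p.1, Fin.snoc p.2 y) : (Fin m → S) × (Fin (n + 1) → S)) ∈ B i) ↔
          (∃ y : S, ∀ i ∈ J.1, ((q.1, Fin.snoc q.2 y) : (Fin m → S) × (Fin (n + 1) → S)) ∈ B i)) →
          (∀ y, f.Realize p.1 (Fin.snoc p.2 y)) → ∀ y, f.Realize q.1 (Fin.snoc q.2 y) := by
        intro p q hpq hp y
        obtain ⟨y', hy'⟩ := exists_same_pattern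
          (fun i => {w : ((Fin m → S) × (Fin n → S)) × S |
            ((w.1.1, Fin.snoc w.1.2 w.2) : (Fin m → S) × (Fin (n + 1) → S)) ∈ B i})
          (by
            intro i a ha b hb c hc
            have h1 := (hB i).aff _ ha _ hb _ hc
            change (((a - b + c).1.1, Fin.snoc (a - b + c).1.2 (a - b + c).2) :
              (Fin m → S) × (Fin (n + 1) → S)) ∈ B i
            convert! h1 using 1
            ext1
            · rfl
            · exact snoc_sub_add _ _ _ _ _ _)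
          q p (fun J hJ => (hpq ⟨J, hJ⟩).symm) y
        exact (h (q.1, Fin.snoc q.2 y) (p.1, Fin.snoc p.2 y') hy').2 (hp y')
      rw [Language.BoundedFormula.realize_all, Language.BoundedFormula.realize_all]
      exact ⟨key p q hpq, key q p fun J => (hpq J).symm⟩

/-- The criterion: two tuples exchanged by endomorphisms that are the identity modulo an abelian
ideal of finite index have the same type. -/
theorem sameType_of_endomorphisms (M : LieIdeal k S) (hM : ∀ a ∈ M, ∀ b ∈ M, ⁅a, b⁆ = 0)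
    [Finite (S ⧸ M)] (φ ψ : S →ₗ⁅k⁆ S) (hφ : ∀ z, φ z - z ∈ M) (hψ : ∀ z, ψ z - z ∈ M) {m : ℕ}
    (a b : Fin m → S) (hab : ∀ i, φ (a i) = b i) (hba : ∀ i, ψ (b i) = a i) :
    SameType k a b := by
  intro Φ
  obtain ⟨ι, _, B, hB, h⟩ := exists_good M hM φ ψ hφ hψ Φ
  refine h (a, default) (b, default) fun i => ⟨fun ha => ?_, fun hb => ?_⟩
  · have h1 := (hB i).inv₁ _ ha
    convert! h1 using 1
    ext1
    · funext i; exact (hab i).symm
    · exact Subsingleton.elim _ _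
  · have h1 := (hB i).inv₂ _ hb
    convert! h1 using 1
    ext1
    · funext i; exact (hba i).symm
    · exact Subsingleton.elim _ _

end Pool.Agent.H84.LieHom
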