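import Mathlib
import Pool.Agent.H84.LieHom.IndFree

/-!
Free Lie algebras of finite rank over a field are logically homogeneous.
-/

set_option autoImplicit false

namespace Pool.Agent.H84.LieHom

open FirstOrder FA

variable {k : Type*} [Field k]

/-- Equality of types gives an injective endomorphism carrying one tuple to the other. -/
lemma exists_injective_endo {r m : ℕ} {μ₁ μ₂ : Fin m → FreeLieAlgebra k (Fin r)}
    (h : SameType k μ₁ μ₂) :
    ∃ φ : FreeLieAlgebra k (Fin r) →ₗ⁅k⁆ FreeLieAlgebra k (Fin r),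
      Function.Injective φ ∧ ∀ j, φ (μ₁ j) = μ₂ j := by
  have h1 : ∀ j, ∃ t : (lieLang k).Term (Fin r), t.realize (FreeLieAlgebra.of k) = μ₁ j := fun j =>
    exists_term_of_mem_lieSpan _ (by rw [lieSpan_range_of]; exact LieSubalgebra.mem_top _)
  choose w hw using h1
  obtain ⟨y, hy, hy'⟩ := h.transfer w (indFormula k r) (FreeLieAlgebra.of k)
    (fun j => (hw j).symm) ((realize_indFormula r _).2 (ind_of r))
  refine ⟨FreeLieAlgebra.lift k y, injective_of_ind r y ((realize_indFormula r y).1 hy'),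
    fun j => ?_⟩
  rw [← hw j, hy j, ← realize_hom]
  congr 1
  funext i
  exact FreeLieAlgebra.lift_of_apply _ _

lemma iterate_comm {L : Type*} (φ ψ : L → L) (n : ℕ) (z : L) :
    φ ((fun z => ψ (φ z))^[n] z) = (fun z => φ (ψ z))^[n] (φ z) := by
  induction n generalizing z with
  | zero => rfl
  | succ n ih => rw [Function.iterate_succ_apply, Function.iterate_succ_apply, ih]

/-- A homomorphism maps the stable image of `ψ φ` to the stable image of `φ ψ`. -/
lemma map_stab {X : Type*} (φ ψ : FreeLieAlgebra k X →ₗ⁅k⁆ FreeLieAlgebra k X)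
    {z : FreeLieAlgebra k X} (hz : z ∈ stab (ψ.comp φ)) : φ z ∈ stab (φ.comp ψ) := by
  intro n
  obtain ⟨y, hy⟩ := hz n
  refine ⟨φ y, ?_⟩
  rw [← hy]
  exact (iterate_comm φ ψ n y).symm

/-- Part (a). -/
theorem free_logicallyHomogeneous (k : Type*) [Field k] (r : ℕ) :
    LogicallyHomogeneous k (FreeLieAlgebra k (Fin r)) := by
  intro m _ μ₁ μ₂ hμ
  obtain ⟨φ, hφi, hφ⟩ := exists_injective_endo hμ
  obtain ⟨ψ, hψi, hψ⟩ := exists_injective_endo hμ.symm
  obtain ⟨α, I, hα⟩ := stab_free_factor (ψ.comp φ) (hψi.comp hφi)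
  obtain ⟨α', I', hα'⟩ := stab_free_factor (φ.comp ψ) (hφi.comp hψi)
  -- the tuple lies in the stable image
  have hμ₁ : ∀ j, μ₁ j ∈ stab (ψ.comp φ) := by
    intro j n
    refine ⟨μ₁ j, Function.iterate_fixed ?_ n⟩
    rw [_root_.LieHom.comp_apply, hφ, hψ]
  -- the first homomorphism maps one stable image onto the other
  have honto : ∀ z' ∈ stab (φ.comp ψ), ∃ z ∈ stab (ψ.comp φ), φ z = z' := by
    intro z' hz'
    obtain ⟨u, hu⟩ := hz' 1
    have hu' : φ (ψ u) = z' := hu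
    have hust : u ∈ stab (φ.comp ψ) := by
      intro n
      obtain ⟨v, hv⟩ := hz' (n + 1)
      refine ⟨v, ?_⟩
      apply (hφi.comp hψi)
      rw [Function.comp_apply, Function.comp_apply, hu', ← hv, Function.iterate_succ_apply']
      rfl
    exact ⟨ψ u, map_stab ψ φ hust, hu'⟩
  -- transport to the standard free factors
  let Φ : FreeLieAlgebra k (Fin r) →ₗ⁅k⁆ FreeLieAlgebra k (Fin r) :=
    (α'.symm : FreeLieAlgebra k (Fin r) →ₗ⁅k⁆ FreeLieAlgebra k (Fin r)).comp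
      (φ.comp (α : FreeLieAlgebra k (Fin r) →ₗ⁅k⁆ FreeLieAlgebra k (Fin r)))
  have hΦ : ∀ w, Φ w = α'.symm (φ (α w)) := fun w => rfl
  have hΦi : Function.Injective Φ := by
    intro a b hab
    rw [hΦ, hΦ] at hab
    exact α.injective (hφi (α'.symm.injective hab))
  have h1 : ∀ w ∈ Kf k I, Φ w ∈ Kf k I' := by
    intro w hw
    obtain ⟨w', hw', h2⟩ := (hα' _).1 (map_stab φ ψ ((hα _).2 ⟨w, hw, rfl⟩))
    rw [hΦ, ← h2, LieEquiv.symm_apply_apply]
    exact hw'
  have h2 : ∀ w' ∈ Kf k I', ∃ w ∈ Kf k I, Φ w = w' := by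
    intro w' hw'
    obtain ⟨z, hz, hz'⟩ := honto _ ((hα' _).2 ⟨w', hw', rfl⟩)
    obtain ⟨w, hw, hwz⟩ := (hα z).1 hz
    refine ⟨w, hw, ?_⟩
    rw [hΦ, hwz, hz', LieEquiv.symm_apply_apply]
  obtain ⟨σ, hσ⟩ := exists_extension_aut Φ hΦi I I' h1 h2
  refine ⟨(α.symm.trans σ).trans α', fun j => ?_⟩
  obtain ⟨w, hw, hwμ⟩ := (hα _).1 (hμ₁ j)
  change α' (σ (α.symm (μ₁ j))) = μ₂ j
  rw [← hwμ, LieEquiv.symm_apply_apply, hσ w hw, hΦ, LieEquiv.apply_symm_apply, hwμ, hφ]

end Pool.Agent.H84.LieHom
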