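import Mathlib
import Pool.Agent.H84.LieHom.Magnus
import Pool.Agent.H84.LieHom.ModelLemma

/-!
The free metabelian Lie algebra of rank three over the field with two elements is not logically
homogeneous.
-/

set_option autoImplicit false

namespace Pool.Agent.H84.LieHom

noncomputable section

/-- The derived ideal of the free metabelian Lie algebra. -/
abbrev M32 : LieIdeal (ZMod 2) S32 := LieAlgebra.derivedSeries (ZMod 2) S32 1

lemma lie_mem_M32 (a b : S32) : ⁅a, b⁆ ∈ M32 :=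
  derived_one_iff.2 (Submodule.subset_span ⟨a, b, rfl⟩)

lemma M32_abelian (a : S32) (ha : a ∈ M32) (b : S32) (hb : b ∈ M32) : ⁅a, b⁆ = 0 :=
  derived_abelian a b ha hb

lemma two_smul_zero (z : S32) : z + z = 0 := by
  have h : (2 : ZMod 2) • z = 0 := by
    have h2 : (2 : ZMod 2) = 0 := rfl
    rw [h2, zero_smul]
  rwa [two_smul] at h

lemma neg_eq (z : S32) : -z = z := by
  rw [neg_eq_iff_add_eq_zero, two_smul_zero]

instance : Finite (S32 ⧸ M32) := by
  have h1 : Submodule.span (ZMod 2) (Set.range fun i => (M32.toSubmodule).mkQ (gx i)) = ⊤ := by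
    rw [eq_top_iff]
    intro v _
    obtain ⟨z, rfl⟩ := (M32.toSubmodule).mkQ_surjective v
    obtain ⟨w, hw, hwz⟩ := exists_span_add_brSpan gx gx_generates z
    have h2 : (M32.toSubmodule).mkQ z = (M32.toSubmodule).mkQ w := by
      rw [← sub_eq_zero, ← map_sub, ← LinearMap.mem_ker, Submodule.ker_mkQ]
      exact derived_one_iff.2 hwz
    have h4 : (Set.range fun i => (M32.toSubmodule).mkQ (gx i)) =
        (M32.toSubmodule).mkQ '' Set.range gx := by
      ext z; simp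
    rw [h2, h4, ← Submodule.map_span]
    exact ⟨w, hw, rfl⟩
  have h2 : Module.Finite (ZMod 2) (S32 ⧸ M32.toSubmodule) := by
    refine ⟨?_⟩
    rw [← h1]
    exact Submodule.fg_span (Set.finite_range _)
  have h3 : Finite (S32 ⧸ M32.toSubmodule) := Module.finite_of_finite (ZMod 2)
  exact h3

/-- Endomorphisms that fix the generators modulo the derived algebra. -/
lemma endo_cong (χ : S32 →ₗ⁅ZMod 2⁆ S32) (h : ∀ i, χ (gx i) - gx i ∈ M32) (z : S32) :
    χ z - z ∈ M32 := by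
  refine generators_induction gx_generates (fun z => χ z - z ∈ M32) ?_ h ?_ ?_ ?_ z
  · simp
  · intro a b ha hb
    have e : χ (a + b) - (a + b) = (χ a - a) + (χ b - b) := by rw [map_add]; abel
    rw [e]
    exact add_mem ha hb
  · intro c a ha
    have e : χ (c • a) - c • a = c • (χ a - a) := by rw [map_smul, smul_sub]
    rw [e]
    exact M32.smul_mem c ha
  · intro a b _ _
    rw [_root_.LieHom.map_lie]
    exact sub_mem (lie_mem_M32 _ _) (lie_mem_M32 _ _)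

/-- Adjoint operators commute on the derived algebra. -/
lemma ad_comm (x y m : S32) (hm : m ∈ M32) : ⁅x, ⁅y, m⁆⁆ = ⁅y, ⁅x, m⁆⁆ := by
  have h : ⁅⁅x, y⁆, m⁆ = 0 := M32_abelian _ (lie_mem_M32 _ _) _ hm
  rw [lie_lie, sub_eq_zero] at h
  exact h

/-- The endomorphisms of the free metabelian Lie algebra with prescribed values. -/
lemma exists_endo (y : Fin 3 → S32) : ∃ χ : S32 →ₗ⁅ZMod 2⁆ S32, ∀ i, χ (gx i) = y i :=
  quot_relFree _ (fun _ _ hz => LieIdeal.derivedSeries_map_le 2 (LieIdeal.mem_map hz)) y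

/-- The bracket of the second and the third generator. -/
def w23 : S32 := ⁅gx 1, gx 2⁆

lemma w23_mem : w23 ∈ M32 := lie_mem_M32 _ _

/-- The first element. -/
def elA : S32 := gx 0 + ⁅gx 1, ⁅gx 0, gx 1⁆⁆ + ⁅gx 2, w23⁆

/-- The second element. -/
def elB : S32 := gx 0 + ⁅gx 1, ⁅gx 0, gx 1⁆⁆ +
  ⁅gx 2, w23 + ⁅gx 1, w23⁆ + ⁅gx 1, ⁅gx 1, w23⁆⁆⁆

/-- The image of the third generator. -/
def elY : S32 := gx 2 + w23 + ⁅gx 1, w23⁆

lemma elY_bracket (m : S32) (hm : m ∈ M32) : ⁅elY, m⁆ = ⁅gx 2, m⁆ := by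
  rw [elY, add_lie, add_lie, M32_abelian _ w23_mem _ hm, M32_abelian _ (lie_mem_M32 _ _) _ hm,
    add_zero, add_zero]

lemma bracket_elY : ⁅gx 1, elY⁆ = w23 + ⁅gx 1, w23⁆ + ⁅gx 1, ⁅gx 1, w23⁆⁆ := by
  rw [elY, lie_add, lie_add]
  rfl

lemma exists_phi : ∃ φ : S32 →ₗ⁅ZMod 2⁆ S32, (∀ z, φ z - z ∈ M32) ∧ φ elA = elB := by
  obtain ⟨φ, hφ⟩ := exists_endo ![gx 0, gx 1, elY]
  have h0 : φ (gx 0) = gx 0 := hφ 0
  have h1 : φ (gx 1) = gx 1 := hφ 1
  have h2 : φ (gx 2) = elY := hφ 2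
  refine ⟨φ, endo_cong φ ?_, ?_⟩
  · intro i
    fin_cases i
    · change φ (gx 0) - gx 0 ∈ M32
      rw [h0, sub_self]; exact zero_mem _
    · change φ (gx 1) - gx 1 ∈ M32
      rw [h1, sub_self]; exact zero_mem _
    · change φ (gx 2) - gx 2 ∈ M32
      have e : elY - gx 2 = w23 + ⁅gx 1, w23⁆ := by rw [elY]; abel
      rw [h2, e]
      exact add_mem w23_mem (lie_mem_M32 _ _)
  · rw [elA, elB]
    simp only [map_add, _root_.LieHom.map_lie, h0, h1, h2, w23]
    rw [← w23]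
    change gx 0 + ⁅gx 1, ⁅gx 0, gx 1⁆⁆ + ⁅elY, ⁅gx 1, elY⁆⁆ = _
    rw [elY_bracket _ (lie_mem_M32 _ _), bracket_elY]

lemma exists_psi : ∃ ψ : S32 →ₗ⁅ZMod 2⁆ S32, (∀ z, ψ z - z ∈ M32) ∧ ψ elB = elA := by
  obtain ⟨ψ, hψ⟩ := exists_endo ![gx 0 + ⁅gx 2, ⁅gx 1, ⁅gx 1, w23⁆⁆⁆, gx 1, elY]
  have h0 : ψ (gx 0) = gx 0 + ⁅gx 2, ⁅gx 1, ⁅gx 1, w23⁆⁆⁆ := hψ 0
  have h1 : ψ (gx 1) = gx 1 := hψ 1
  have h2 : ψ (gx 2) = elY := hψ 2
  refine ⟨ψ, endo_cong ψ ?_, ?_⟩
  · intro i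
    fin_cases i
    · change ψ (gx 0) - gx 0 ∈ M32
      rw [h0, add_sub_cancel_left]; exact lie_mem_M32 _ _
    · change ψ (gx 1) - gx 1 ∈ M32
      rw [h1, sub_self]; exact zero_mem _
    · change ψ (gx 2) - gx 2 ∈ M32
      have e : elY - gx 2 = w23 + ⁅gx 1, w23⁆ := by rw [elY]; abel
      rw [h2, e]
      exact add_mem w23_mem (lie_mem_M32 _ _)
  · have hw : ψ w23 = w23 + ⁅gx 1, w23⁆ + ⁅gx 1, ⁅gx 1, w23⁆⁆ := by
      rw [w23, _root_.LieHom.map_lie, h1, h2, bracket_elY]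
      rfl
    rw [elB, elA]
    simp only [map_add, _root_.LieHom.map_lie, h0, h1, h2, hw]
    rw [elY_bracket _ (by
      refine add_mem (add_mem (add_mem (add_mem w23_mem (lie_mem_M32 _ _)) (lie_mem_M32 _ _))
        (lie_mem_M32 _ _)) (lie_mem_M32 _ _))]
    simp only [lie_add, add_lie]
    set D := w23 with hD
    generalize hD1 : ⁅gx 1, D⁆ = D1
    have hD1m : D1 ∈ M32 := by rw [← hD1]; exact lie_mem_M32 _ _
    generalize hD2 : ⁅gx 1, D1⁆ = D2
    have hD2m : D2 ∈ M32 := by rw [← hD2]; exact lie_mem_M32 _ _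
    generalize hD3 : ⁅gx 1, D2⁆ = D3
    have hD3m : D3 ∈ M32 := by rw [← hD3]; exact lie_mem_M32 _ _
    generalize hD4 : ⁅gx 1, D3⁆ = D4
    -- the commutation of the adjoint operators
    have c : ⁅gx 1, ⁅⁅gx 2, D2⁆, gx 1⁆⁆ = ⁅gx 2, D4⁆ := by
      rw [← lie_skew ⁅gx 2, D2⁆ (gx 1), neg_eq, ad_comm (gx 1) (gx 2) D2 hD2m, hD3,
        ad_comm (gx 1) (gx 2) D3 hD3m, hD4]
    rw [c]
    generalize ⁅gx 2, D⁆ = F
    generalize ⁅gx 2, D1⁆ = F1
    generalize ⁅gx 2, D2⁆ = F2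
    generalize ⁅gx 2, D3⁆ = F3
    generalize ⁅gx 2, D4⁆ = F4
    generalize ⁅gx 1, ⁅gx 0, gx 1⁆⁆ = G
    have e : gx 0 + F2 + (G + F4) + (F + F1 + F2 + (F1 + F2 + F3) + (F2 + F3 + F4)) =
        gx 0 + G + F + (F1 + F1) + (F2 + F2) + (F2 + F2) + (F3 + F3) + (F4 + F4) := by abel
    rw [e]
    simp only [two_smul_zero, add_zero]

open MvPolynomial in
/-- The homomorphism into the Lie algebra of vectors. -/
def del : S32 →ₗ⁅ZMod 2⁆ Tm := Classical.choose exists_del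

lemma del_gx (i : Fin 3) : del (gx i) = bas i := Classical.choose_spec exists_del i

lemma br_bas (i : Fin 3) (w : Tm) (h : eps w = 0) :
    ⁅bas i, w⁆ = (MvPolynomial.X i : P3) • w := by
  rw [tm_bracket, h, eps_bas, zero_smul, sub_zero]

/-- The vector `X₁ e₂ - X₂ e₁`. -/
def vw : Tm := (MvPolynomial.X 1 : P3) • bas 2 - (MvPolynomial.X 2 : P3) • bas 1

lemma del_w23 : del w23 = vw := by
  rw [w23, _root_.LieHom.map_lie, del_gx, del_gx, tm_bracket, eps_bas, eps_bas]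
  rfl

lemma eps_vw : eps vw = 0 := by
  rw [← del_w23, w23, _root_.LieHom.map_lie, eps_bracket]

/-- The vector `X₀ e₁ - X₁ e₀`. -/
def vw' : Tm := (MvPolynomial.X 0 : P3) • bas 1 - (MvPolynomial.X 1 : P3) • bas 0

lemma del_w01 : del ⁅gx 0, gx 1⁆ = vw' := by
  rw [_root_.LieHom.map_lie, del_gx, del_gx, tm_bracket, eps_bas, eps_bas]
  rfl

lemma eps_vw' : eps vw' = 0 := by
  rw [← del_w01, _root_.LieHom.map_lie, eps_bracket]

/-- The polynomial `1 + X₁ + X₁²`. -/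
def uu : P3 := 1 + MvPolynomial.X 1 + MvPolynomial.X 1 * MvPolynomial.X 1

lemma del_elA : del elA = bas 0 + (MvPolynomial.X 1 : P3) • vw' + (MvPolynomial.X 2 : P3) • vw := by
  rw [elA, map_add, map_add, _root_.LieHom.map_lie del (gx 1), _root_.LieHom.map_lie del (gx 2),
    del_w01, del_w23, del_gx, del_gx, del_gx, br_bas _ _ eps_vw', br_bas _ _ eps_vw]

lemma del_elB : del elB =
    bas 0 + (MvPolynomial.X 1 : P3) • vw' + (MvPolynomial.X 2 : P3) • (uu • vw) := by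
  have h1 : del (w23 + ⁅gx 1, w23⁆ + ⁅gx 1, ⁅gx 1, w23⁆⁆) = uu • vw := by
    rw [map_add, map_add, _root_.LieHom.map_lie del (gx 1) ⁅gx 1, w23⁆,
      _root_.LieHom.map_lie del (gx 1) w23, del_w23, del_gx, br_bas _ _ eps_vw,
      br_bas _ _ (by rw [map_smul, eps_vw, smul_zero]), uu, add_smul, add_smul, one_smul, smul_smul]
  rw [elB, map_add, map_add, _root_.LieHom.map_lie del (gx 1), _root_.LieHom.map_lie del (gx 2),
    h1, del_w01, del_gx, del_gx, del_gx, br_bas _ _ eps_vw',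
    br_bas _ _ (by rw [map_smul, eps_vw, smul_zero])]

lemma eps_del_elA : eps (del elA) = MvPolynomial.X 0 := by
  rw [del_elA, map_add, map_add, map_smul, map_smul, eps_vw, eps_vw', eps_bas, smul_zero, smul_zero,
    add_zero, add_zero]

lemma eps_del_elB : eps (del elB) = MvPolynomial.X 0 := by
  rw [del_elB, map_add, map_add, map_smul, map_smul, map_smul, eps_vw, eps_vw', eps_bas, smul_zero,
    smul_zero, smul_zero, add_zero, add_zero]

/-- The linear part of an element. -/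
lemma eps_del (z : S32) : ∃ l : Fin 3 → ZMod 2,
    eps (del z) = ∑ i, MvPolynomial.C (l i) * (MvPolynomial.X i : P3) := by
  refine generators_induction gx_generates (fun z => ∃ l : Fin 3 → ZMod 2,
    eps (del z) = ∑ i, MvPolynomial.C (l i) * (MvPolynomial.X i : P3)) ?_ ?_ ?_ ?_ ?_ z
  · exact ⟨0, by simp⟩
  · intro i
    refine ⟨Pi.single i 1, ?_⟩
    rw [del_gx, eps_bas, Finset.sum_eq_single i]
    · simp
    · intro j _ hj
      simp [hj]
    · simp
  · rintro a b ⟨l, hl⟩ ⟨l', hl'⟩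
    refine ⟨l + l', ?_⟩
    rw [map_add, map_add, hl, hl', ← Finset.sum_add_distrib]
    simp [add_mul]
  · rintro c a ⟨l, hl⟩
    refine ⟨c • l, ?_⟩
    rw [map_smul, eps_smul2, hl, Finset.smul_sum]
    refine Finset.sum_congr rfl fun i _ => ?_
    rw [Pi.smul_apply, smul_eq_mul, MvPolynomial.C_mul, MvPolynomial.smul_eq_C_mul, mul_assoc]
  · intro a b _ _
    exact ⟨0, by rw [_root_.LieHom.map_lie, eps_bracket]; simp⟩

/-- The semilinear map attached to an endomorphism. -/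
def jmap (c : Fin 3 → Tm) (g : P3 →ₐ[ZMod 2] P3) (hg : ∀ i, g (MvPolynomial.X i) = eps (c i)) :
    Tm →ₗ⁅ZMod 2⁆ Tm where
  toFun w := ∑ i, g (Tm.co i w) • c i
  map_add' w w' := by
    simp only [map_add, add_smul, Finset.sum_add_distrib]
  map_smul' t w := by
    have h : ∀ i, Tm.co i (t • w) = t • Tm.co i w := fun i =>
      LinearMap.map_smul_of_tower (Tm.co i) t w
    simp only [h, map_smul, smul_assoc, Finset.smul_sum, RingHom.id_apply]
  map_lie' := by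
    intro w w'
    have he : ∀ w : Tm, eps (∑ i, g (Tm.co i w) • c i) = g (eps w) := by
      intro w
      rw [map_sum, eps_apply, map_sum]
      refine Finset.sum_congr rfl fun i _ => ?_
      rw [map_smul, map_mul, hg, smul_eq_mul, mul_comm]
    change (∑ i, g (Tm.co i ⁅w, w'⁆) • c i) = ⁅∑ i, g (Tm.co i w) • c i, ∑ i, g (Tm.co i w') • c i⁆
    rw [tm_bracket (∑ i, g (Tm.co i w) • c i), he, he, tm_bracket]
    simp only [map_sub, map_smul, smul_eq_mul, map_mul, sub_smul, Finset.sum_sub_distrib,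
      Finset.smul_sum, smul_smul]

lemma jmap_apply (c : Fin 3 → Tm) (g : P3 →ₐ[ZMod 2] P3)
    (hg : ∀ i, g (MvPolynomial.X i) = eps (c i)) (w : Tm) :
    jmap c g hg w = ∑ i, g (Tm.co i w) • c i := rfl

lemma eps_jmap (c : Fin 3 → Tm) (g : P3 →ₐ[ZMod 2] P3)
    (hg : ∀ i, g (MvPolynomial.X i) = eps (c i)) (w : Tm) :
    eps (jmap c g hg w) = g (eps w) := by
  rw [jmap_apply, map_sum, eps_apply, map_sum]
  refine Finset.sum_congr rfl fun i _ => ?_
  rw [map_smul, map_mul, hg, smul_eq_mul, mul_comm]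

lemma del_endo (σ : S32 →ₗ⁅ZMod 2⁆ S32) (g : P3 →ₐ[ZMod 2] P3)
    (hg : ∀ i, g (MvPolynomial.X i) = eps (del (σ (gx i)))) (z : S32) :
    del (σ z) = jmap (fun i => del (σ (gx i))) g hg (del z) := by
  refine hom_eq_of_generators gx_generates (f := del.comp σ)
    (g := (jmap (fun i => del (σ (gx i))) g hg).comp del) (fun i => ?_) z
  rw [_root_.LieHom.comp_apply, _root_.LieHom.comp_apply, del_gx, jmap_apply]
  simp only [co_bas]
  rw [Finset.sum_eq_single i]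
  · simp
  · intro j _ hj
    simp [hj]
  · simp

end

end Pool.Agent.H84.LieHom
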