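import Mathlib
import Pool.Agent.H84.LieHom.PartC

/-!
The two elements of the free metabelian Lie algebra are not conjugate under automorphisms.
-/

set_option autoImplicit false

namespace Pool.Agent.H84.LieHom

open MvPolynomial

lemma co_del_elA (j : Fin 3) : Tm.co j (del elA) = ![1 - X 1 * X 1, X 1 * X 0 - X 2 * X 2,
    X 2 * X 1] j := by
  rw [del_elA, vw, vw']
  fin_cases j <;> simp [co_bas] <;> ring

lemma co_del_elB (j : Fin 3) : Tm.co j (del elB) = ![1 - X 1 * X 1, X 1 * X 0 - X 2 * (uu * X 2),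
    X 2 * (uu * X 1)] j := by
  rw [del_elB, vw, vw']
  fin_cases j <;> simp [co_bas] <;> ring

/-- No automorphism maps the first element to the second. -/
theorem not_conj (σ : S32 ≃ₗ⁅ZMod 2⁆ S32) : σ elA ≠ elB := by
  intro hσ
  set c : Fin 3 → Tm := fun i => del (σ (gx i)) with hc
  let g : P3 →ₐ[ZMod 2] P3 := aeval fun i => eps (c i)
  have hg : ∀ i, g (X i) = eps (c i) := fun i => aeval_X _ _
  have hdel : ∀ z, del (σ z) = ∑ i, g (Tm.co i (del z)) • c i := fun z =>
    del_endo (σ : S32 →ₗ⁅ZMod 2⁆ S32) g hg z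
  have heps : ∀ z, eps (del (σ z)) = g (eps (del z)) := by
    intro z
    have h1 : del (σ z) = jmap c g hg (del z) := del_endo (σ : S32 →ₗ⁅ZMod 2⁆ S32) g hg z
    rw [h1, eps_jmap]
  -- the linear forms
  have hy0 : g (X 0) = X 0 := by
    have h1 := heps elA
    rw [hσ, eps_del_elA, eps_del_elB] at h1
    exact h1.symm
  obtain ⟨l₁, hl₁⟩ := eps_del (σ (gx 1))
  obtain ⟨l₂, hl₂⟩ := eps_del (σ (gx 2))
  have hy1 : g (X 1) = C (l₁ 0) * X 0 + C (l₁ 1) * X 1 + C (l₁ 2) * X 2 := by
    rw [hg, hc]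
    simp only [hl₁, Fin.sum_univ_three]
  have hy2 : g (X 2) = C (l₂ 0) * X 0 + C (l₂ 1) * X 1 + C (l₂ 2) * X 2 := by
    rw [hg, hc]
    simp only [hl₂, Fin.sum_univ_three]
  -- the vector equation
  have hvec : ∀ j, g (1 - X 1 * X 1) * Tm.co j (c 0) + g (X 1 * X 0 - X 2 * X 2) * Tm.co j (c 1) +
      g (X 2 * X 1) * Tm.co j (c 2) = Tm.co j (del elB) := by
    intro j
    have h1 := congrArg (Tm.co j) (hdel elA)
    rw [hσ, Fin.sum_univ_three] at h1
    simp only [map_add, map_smul, smul_eq_mul, co_del_elA] at h1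
    exact h1.symm
  have hvec' : ∀ j, (1 - g (X 1) * g (X 1)) * Tm.co j (c 0) +
      (g (X 1) * X 0 - g (X 2) * g (X 2)) * Tm.co j (c 1) +
      (g (X 2) * g (X 1)) * Tm.co j (c 2) = Tm.co j (del elB) := by
    intro j
    rw [← hvec j]
    simp only [map_sub, map_mul, map_one, hy0]
  -- the inverse
  have hinv : ∀ i j, ∑ m, g (Tm.co m (del (σ.symm (gx i)))) * Tm.co j (c m) =
      if j = i then 1 else 0 := by
    intro i j
    have h1 := congrArg (Tm.co j) (hdel (σ.symm (gx i)))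
    rw [LieEquiv.apply_symm_apply, del_gx, co_bas, map_sum] at h1
    rw [h1]
    simp only [map_smul, smul_eq_mul]
  have hinv' : ∀ i, ∑ m, g (Tm.co m (del (σ.symm (gx i)))) * g (X m) = X i := by
    intro i
    have h1 := heps (σ.symm (gx i))
    rw [LieEquiv.apply_symm_apply, del_gx, eps_bas, eps_apply, map_sum] at h1
    rw [h1]
    refine Finset.sum_congr rfl fun m _ => ?_
    rw [map_mul, mul_comm]
  -- evaluation at points
  have hpt : ∀ v : Fin 3 → ZMod 2, v 0 = 0 → v ≠ 0 →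
      eval v (g (X 1)) = 0 → eval v (g (X 2)) = 0 → False := by
    intro v hv0 hv h1 h2
    apply hv
    funext i
    have h3 := congrArg (eval v) (hinv' i)
    rw [Fin.sum_univ_three, hy0, map_add, map_add, map_mul, map_mul, map_mul, h1, h2, eval_X,
      eval_X, hv0] at h3
    simpa using h3.symm
  have hpt' : ∀ v : Fin 3 → ZMod 2, v 0 = 0 → eval v (g (X 1)) = 1 → eval v (g (X 2)) = 0 →
      ∀ j, eval v (Tm.co j (del elB)) = 0 := by
    intro v hv0 h1 h2 j
    rw [← hvec' j]
    simp only [map_add, map_sub, map_mul, h1, h2, eval_X, hv0, map_one]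
    ring
  have e1 : ∀ v : Fin 3 → ZMod 2, eval v (g (X 1)) = l₁ 0 * v 0 + l₁ 1 * v 1 + l₁ 2 * v 2 := by
    intro v; rw [hy1]; simp
  have e2 : ∀ v : Fin 3 → ZMod 2, eval v (g (X 2)) = l₂ 0 * v 0 + l₂ 1 * v 1 + l₂ 2 * v 2 := by
    intro v; rw [hy2]; simp
  have dich : ∀ a : ZMod 2, a = 0 ∨ a = 1 := by decide
  have key : ∀ v : Fin 3 → ZMod 2, v 0 = 0 → v ≠ 0 → (∃ j, eval v (Tm.co j (del elB)) ≠ 0) →
      eval v (g (X 2)) = 1 := by
    intro v hv0 hv hj
    rcases dich (eval v (g (X 2))) with h2 | h2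
    · exfalso
      rcases dich (eval v (g (X 1))) with h1 | h1
      · exact hpt v hv0 hv h1 h2
      · obtain ⟨j, hj⟩ := hj
        exact hj (hpt' v hv0 h1 h2 j)
    · exact h2
  have hp := key ![0, 0, 1] rfl (by decide) ⟨0, by rw [co_del_elB]; simp⟩
  have hq := key ![0, 1, 1] rfl (by decide) ⟨2, by
    rw [co_del_elB]
    simp [uu]
    decide⟩
  rw [e2] at hp hq
  simp only [Matrix.cons_val_zero, Matrix.cons_val_one, Matrix.cons_val, mul_zero, mul_one,
    zero_add] at hp hq
  have hl21 : l₂ 1 = 0 := by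
    rw [hp] at hq
    simpa using hq
  have hl11 : l₁ 1 = 1 := by
    rcases dich (l₁ 1) with h | h
    · exfalso
      refine hpt ![0, 1, 0] rfl (by decide) ?_ ?_
      · rw [e1]; simp [h]
      · rw [e2]; simp [hl21]
    · exact h
  -- specialisation
  let θ : P3 →+* Polynomial (Polynomial (ZMod 2)) :=
    eval₂Hom ((Polynomial.C).comp Polynomial.C) ![0, Polynomial.C Polynomial.X, Polynomial.X]
  have θ0 : θ (X 0) = 0 := by simp [θ]
  have θ1 : θ (X 1) = Polynomial.C Polynomial.X := by simp [θ]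
  have θ2 : θ (X 2) = Polynomial.X := by simp [θ]
  have θC : ∀ a, θ (C a) = Polynomial.C (Polynomial.C a) := fun a => by simp [θ]
  have hθ1 : θ (g (X 1)) = Polynomial.C Polynomial.X +
      Polynomial.C (Polynomial.C (l₁ 2)) * Polynomial.X := by
    rw [hy1, hl11]
    simp only [map_add, map_mul, θ0, θ1, θ2, θC, mul_zero, zero_add, map_one, one_mul]
  have hθ2 : θ (g (X 2)) = Polynomial.X := by
    rw [hy2, hl21, hp]
    simp only [map_add, map_mul, θ0, θ1, θ2, θC, mul_zero, zero_add, map_one, one_mul, map_zero,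
      zero_mul]
  have hθu : θ uu = 1 + Polynomial.C Polynomial.X + Polynomial.C Polynomial.X ^ 2 := by
    rw [uu, map_add, map_add, map_mul, map_one, θ1, sq]
  have hE : ∀ i, g (X i) = X 0 * Tm.co 0 (c i) + X 1 * Tm.co 1 (c i) + X 2 * Tm.co 2 (c i) := by
    intro i
    rw [hg, eps_apply, Fin.sum_univ_three]
  refine poly_contradiction (Polynomial.C (Polynomial.C (l₁ 2))) (θ (Tm.co 1 (c 0)))
    (θ (Tm.co 2 (c 0))) (θ (Tm.co 1 (c 1))) (θ (Tm.co 2 (c 1))) (θ (Tm.co 1 (c 2)))
    (θ (Tm.co 2 (c 2))) (θ (g (Tm.co 0 (del (σ.symm (gx 2))))))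
    (θ (g (Tm.co 1 (del (σ.symm (gx 2)))))) (θ (g (Tm.co 2 (del (σ.symm (gx 2)))))) ?_ ?_ ?_ ?_ ?_
    ?_ ?_
  · have h := congrArg θ (hE 0)
    rw [hy0] at h
    simp only [map_add, map_mul, θ0, θ1, θ2] at h
    linear_combination -h
  · have h := congrArg θ (hE 1)
    rw [hθ1] at h
    simp only [map_add, map_mul, θ0, θ1, θ2] at h
    linear_combination -h
  · have h := congrArg θ (hE 2)
    rw [hθ2] at h
    simp only [map_add, map_mul, θ0, θ1, θ2] at h
    linear_combination -h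
  · have h := congrArg θ (hvec' 1)
    rw [co_del_elB] at h
    simp only [map_add, map_sub, map_mul, θ0, θ1, θ2, hθ1, hθ2, hθu, map_one, Matrix.cons_val_one,
      Matrix.cons_val_zero] at h
    linear_combination h
  · have h := congrArg θ (hvec' 2)
    rw [co_del_elB] at h
    simp only [map_add, map_sub, map_mul, θ0, θ1, θ2, hθ1, hθ2, hθu, map_one, Matrix.cons_val] at h
    linear_combination h
  · have h := congrArg θ (hinv 2 1)
    rw [Fin.sum_univ_three] at h
    simp only [map_add, map_mul] at h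
    rw [h]
    simp
  · have h := congrArg θ (hinv 2 2)
    rw [Fin.sum_univ_three] at h
    simp only [map_add, map_mul] at h
    rw [h]
    simp

/-- Part (c): the free metabelian Lie algebra of rank three over the field with two elements is
not logically homogeneous. -/
theorem freeSolvable_not_homogeneous :
    ¬ LogicallyHomogeneous (ZMod 2) (FreeSolvable (ZMod 2) 3 2) := by
  intro h
  obtain ⟨φ, hφ, hφ'⟩ := exists_phi
  obtain ⟨ψ, hψ, hψ'⟩ := exists_psi
  obtain ⟨σ, hσ⟩ := h 1 le_rfl (fun _ => elA) (fun _ => elB)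
    (sameType_of_endomorphisms M32 M32_abelian φ ψ hφ hψ _ _ (fun _ => hφ') (fun _ => hψ'))
  exact not_conj σ (hσ 0)

end Pool.Agent.H84.LieHom
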